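import Pool.Agent.Lib.MP_f0744f_nt.Defs

namespace F0744

lemma wt_ge (J : ℕ) : ∀ d : ℕ, (d : ℝ) * (1 - 1 / 2 ^ J) - J ≤ (wt J d : ℝ) := by
  induction J with
  | zero => intro d; simp [wt]
  | succ J ih =>
    intro d
    have h := ih (d / 2)
    have hd : ((d : ℝ) - 1) / 2 ≤ ((d / 2 : ℕ) : ℝ) := by
      have h1 : d ≤ 2 * (d / 2) + 1 := by omega
      have h2 : (d : ℝ) ≤ 2 * ((d / 2 : ℕ) : ℝ) + 1 := by exact_mod_cast h1
      linarith
    set e : ℝ := 1 / 2 ^ J with he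
    have he0 : 0 < e := by positivity
    have he1 : e ≤ 1 := by
      rw [he, div_le_one (by positivity)]
      exact one_le_pow₀ (by norm_num)
    have he2 : (1 : ℝ) / 2 ^ (J + 1) = e / 2 := by
      rw [he, pow_succ]; field_simp
    simp only [wt]
    push_cast
    push_cast at h
    rw [he2]
    set m : ℝ := ((d / 2 : ℕ) : ℝ)
    nlinarith

theorem Wt_ge (J n : ℕ) :
    ((n : ℝ) ^ 2 - n) * (1 - 1 / 2 ^ J) - 2 * J * n ≤ 2 * (Wt J n : ℝ) := by
  induction n with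
  | zero => simp [Wt]
  | succ n ih =>
    have h1 : Wt J (n + 1) = Wt J n + wt J n := by simp [Wt, Finset.sum_range_succ]
    have h2 := wt_ge J n
    rw [h1]
    push_cast
    nlinarith

open Polynomial

/-- basis polynomials -/
noncomputable def bp (q : ℚ[X]) : ℕ → ℕ → ℚ[X]
  | 0, d => X ^ d
  | J + 1, d => X ^ (d % 2) * (bp q J (d / 2)).comp q

lemma bp_deg {q : ℚ[X]} (hq : q.natDegree = 2) (J : ℕ) : ∀ d, (bp q J d).natDegree = d ∧
    (bp q J d).leadingCoeff = q.leadingCoeff ^ wt J d := by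
  have hq0 : q ≠ 0 := by rintro rfl; simp at hq
  have hl0 : q.leadingCoeff ≠ 0 := leadingCoeff_ne_zero.2 hq0
  induction J with
  | zero => intro d; simp [bp, wt]
  | succ J ih =>
    intro d
    obtain ⟨h1, h2⟩ := ih (d / 2)
    have h3 : bp q J (d / 2) ≠ 0 := by
      intro h; rw [h] at h2; simp at h2
      exact absurd h2.symm (pow_ne_zero _ hl0)
    have hcomp : (bp q J (d / 2)).comp q ≠ 0 := by
      rw [← leadingCoeff_ne_zero, leadingCoeff_comp (by rw [hq]; norm_num), h2, h1]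
      exact mul_ne_zero (pow_ne_zero _ hl0) (pow_ne_zero _ hl0)
    simp only [bp]
    constructor
    · rw [natDegree_mul (pow_ne_zero _ X_ne_zero) hcomp, natDegree_pow, natDegree_X, natDegree_comp,
        h1, hq]
      omega
    · rw [leadingCoeff_mul, leadingCoeff_pow, leadingCoeff_X, one_pow, one_mul,
        leadingCoeff_comp (by rw [hq]; norm_num), h2, h1, wt, pow_add]

lemma bp_int {S0 : Finset ℤ} {q : ℚ[X]} {ph : ℤ → ℤ}
    (hval : ∀ x ∈ S0, ((ph x : ℤ) : ℚ) = q.eval (x : ℚ)) (J : ℕ) :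
    ∀ (d : ℕ), ∀ x ∈ Yd S0 ph J, ∃ z : ℤ, (z : ℚ) = (bp q J d).eval (x : ℚ) := by
  induction J with
  | zero => intro d x _; exact ⟨x ^ d, by simp [bp]⟩
  | succ J ih =>
    intro d x hx
    simp only [Yd, Finset.mem_filter] at hx
    obtain ⟨z, hz⟩ := ih (d / 2) (ph x) hx.2
    refine ⟨x ^ (d % 2) * z, ?_⟩
    simp only [bp, eval_mul, eval_pow, eval_X, eval_comp]
    push_cast
    rw [hz, hval x hx.1]

theorem det_dvd (S0 T : Finset ℤ) (al be ga : ℚ) (ph : ℤ → ℤ) (J : ℕ)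
    (hval : ∀ x ∈ S0, ((ph x : ℤ) : ℚ) = al * (x : ℚ) ^ 2 + be * (x : ℚ) + ga)
    (hT : T ⊆ Yd S0 ph J) :
    (al.den : ℤ) ^ (2 * Wt J T.card) ∣ ∏ q ∈ T.offDiag, (q.1 - q.2) := by
  by_cases hal : al = 0
  · subst hal; simp
  set q : ℚ[X] := C al * X ^ 2 + C be * X + C ga with hq
  have hqd : q.natDegree = 2 := natDegree_quadratic hal
  have hql : q.leadingCoeff = al := leadingCoeff_quadratic hal
  have hval' : ∀ x ∈ S0, ((ph x : ℤ) : ℚ) = q.eval (x : ℚ) := by
    intro x hx; rw [hval x hx, hq]; simp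
  set n := T.card with hn
  let e : Fin n ↪o ℤ := T.orderEmbOfFin rfl
  have heT : ∀ i, e i ∈ T := fun i => T.orderEmbOfFin_mem rfl i
  -- integer matrix
  have hint : ∀ i j : Fin n, ∃ z : ℤ, (z : ℚ) = (bp q J j).eval ((e i : ℤ) : ℚ) :=
    fun i j => bp_int hval' J j (e i) (hT (heT i))
  choose z hz using hint
  -- monic polynomials
  have hlc : ∀ d, (bp q J d).leadingCoeff = al ^ wt J d := fun d => by rw [(bp_deg hqd J d).2, hql]
  let v : Fin n → ℚ := fun i => ((e i : ℤ) : ℚ)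
  let P : Fin n → ℚ[X] := fun j => C ((al ^ wt J j)⁻¹) * bp q J j
  have hPd : ∀ j, (P j).natDegree = j := fun j => by
    simp only [P]
    rw [natDegree_C_mul (inv_ne_zero (pow_ne_zero _ hal)), (bp_deg hqd J j).1]
  have hPm : ∀ j, (P j).Monic := fun j => by
    simp only [P, Monic]
    rw [leadingCoeff_mul, leadingCoeff_C, hlc, inv_mul_cancel₀ (pow_ne_zero _ hal)]
  have h1 := Matrix.det_eval_matrixOfPolynomials_eq_det_vandermonde v P hPd hPm
  have h2 : (Matrix.of fun i j : Fin n => (P j).eval (v i)).det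
      = (∏ j : Fin n, (al ^ wt J j)⁻¹) * (Matrix.of fun i j : Fin n => (z i j : ℚ)).det := by
    rw [← Matrix.det_mul_row]
    congr 1
    ext i j
    simp [P, hz, v]
  have h3 : (∏ j : Fin n, (al ^ wt J (j : ℕ))⁻¹) = (al ^ Wt J n)⁻¹ := by
    rw [Finset.prod_inv_distrib, Wt, ← Finset.prod_pow_eq_pow_sum]
    congr 1
    exact Fin.prod_univ_eq_prod_range (fun j => al ^ wt J j) n
  set DZ : ℤ := (Matrix.of fun i j : Fin n => z i j).det with hDZ
  have h4 : (Matrix.of fun i j : Fin n => (z i j : ℚ)).det = (DZ : ℚ) := by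
    rw [hDZ, Int.cast_det]
    rfl
  set V : ℤ := ∏ i : Fin n, ∏ j ∈ Finset.Ioi i, (e j - e i) with hV
  have h5 : (Matrix.vandermonde v).det = (V : ℚ) := by
    rw [Matrix.det_vandermonde, hV]
    push_cast
    rfl
  have h6 : al ^ Wt J n * (V : ℚ) = (DZ : ℚ) := by
    rw [h5, h2, h3, h4] at h1
    rw [h1, ← mul_assoc, mul_inv_cancel₀ (pow_ne_zero _ hal), one_mul]
  -- divisibility
  have h7 : (al.den : ℤ) ^ Wt J n ∣ V := by
    have h8 : al.num ^ Wt J n * V = (al.den : ℤ) ^ Wt J n * DZ := by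
      have hden : (al.den : ℚ) ≠ 0 := by exact_mod_cast al.den_nz
      have h9 : (al.num : ℚ) = al * al.den := by
        rw [Rat.mul_den_eq_num]
      have : ((al.num ^ Wt J n * V : ℤ) : ℚ) = (((al.den : ℤ) ^ Wt J n * DZ : ℤ) : ℚ) := by
        push_cast
        rw [h9, ← h6, mul_pow]; ring
      exact_mod_cast this
    have hcop : IsCoprime ((al.den : ℤ) ^ Wt J n) (al.num ^ Wt J n) := by
      apply IsCoprime.pow
      rw [Int.isCoprime_iff_gcd_eq_one, Int.gcd_comm]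
      exact al.reduced
    exact hcop.dvd_of_dvd_mul_left ⟨DZ, h8⟩
  -- the product over offDiag
  have h10 : ∏ q ∈ T.offDiag with q.1 < q.2, (q.2 - q.1) = V := by
    rw [hV, Finset.prod_sigma']
    symm
    refine Finset.prod_nbij (fun s => (e s.1, e s.2)) ?_ ?_ ?_ ?_
    · rintro ⟨i, j⟩ hij
      simp only [Finset.mem_sigma, Finset.mem_univ, true_and, Finset.mem_Ioi] at hij
      simp only [Finset.mem_filter, Finset.mem_offDiag]
      exact ⟨⟨heT i, heT j, (e.lt_iff_lt.2 hij).ne⟩, e.lt_iff_lt.2 hij⟩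
    · rintro ⟨i, j⟩ _ ⟨i', j'⟩ _ h
      simp only [Prod.mk.injEq] at h
      have := e.injective h.1
      have := e.injective h.2
      subst_vars; rfl
    · rintro ⟨x, y⟩ hxy
      simp only [Finset.coe_filter, Finset.mem_offDiag, Set.mem_ofPred_eq] at hxy
      obtain ⟨⟨hx, hy, _⟩, hlt⟩ := hxy
      have hr : Set.range e = T := T.range_orderEmbOfFin rfl
      obtain ⟨i, hi⟩ : x ∈ Set.range e := by rw [hr]; exact hx
      obtain ⟨j, hj⟩ : y ∈ Set.range e := by rw [hr]; exact hy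
      refine ⟨⟨i, j⟩, ?_, ?_⟩
      · simp only [Finset.coe_sigma, Set.mem_sigma_iff, Finset.coe_univ, Set.mem_univ, true_and,
          Finset.coe_Ioi, Set.mem_Ioi]
        rw [← e.lt_iff_lt, hi, hj]; exact hlt
      · simp [hi, hj]
    · rintro ⟨i, j⟩ _; rfl
  have h11 : ∏ q ∈ T.offDiag with ¬ q.1 < q.2, (q.1 - q.2) = V := by
    rw [← h10]
    refine Finset.prod_nbij' (fun s => (s.2, s.1)) (fun s => (s.2, s.1)) ?_ ?_ ?_ ?_ ?_
    · rintro ⟨x, y⟩ h
      simp only [Finset.mem_filter, Finset.mem_offDiag] at h ⊢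
      exact ⟨⟨h.1.2.1, h.1.1, fun h' => h.1.2.2 h'.symm⟩, lt_of_le_of_ne (not_lt.1 h.2)
        (fun h' => h.1.2.2 h'.symm)⟩
    · rintro ⟨x, y⟩ h
      simp only [Finset.mem_filter, Finset.mem_offDiag] at h ⊢
      exact ⟨⟨h.1.2.1, h.1.1, fun h' => h.1.2.2 h'.symm⟩, not_lt.2 h.2.le⟩
    · rintro ⟨x, y⟩ _; rfl
    · rintro ⟨x, y⟩ _; rfl
    · rintro ⟨x, y⟩ _; rfl
  have h12 : V ∣ ∏ q ∈ T.offDiag with q.1 < q.2, (q.1 - q.2) := by
    have : ∏ q ∈ T.offDiag with q.1 < q.2, (q.1 - q.2)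
        = (∏ q ∈ T.offDiag with q.1 < q.2, (-1 : ℤ)) * ∏ q ∈ T.offDiag with q.1 < q.2, (q.2 - q.1) := by
      rw [← Finset.prod_mul_distrib]
      exact Finset.prod_congr rfl fun s _ => by ring
    rw [this, h10]
    exact Dvd.intro_left _ rfl
  rw [← Finset.prod_filter_mul_prod_filter_not T.offDiag (fun q => q.1 < q.2), two_mul, pow_add]
  refine mul_dvd_mul (h7.trans h12) ?_
  rw [h11]; exact h7

end F0744
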