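import Pool.Agent.Lib.MP_f0744f_nt.Loc

namespace F0744

variable {S : Finset ℤ} {a b : ℤ}

/-- the structure at a good prime -/
structure Loc (f : QM S a) (g : QM S b) (Y : Finset ℤ) (C p m : ℕ) (x0 y0 : ℤ) : Prop where
  hp : p.Prime
  hm : 1 ≤ m
  hpm : 2 < p ^ m
  df : f.al.den.factorization p = m
  dg : g.al.den.factorization p = m
  hx0 : x0 ∈ S ∧ x0 ≠ a ∧ x0 ≠ b
  hy0 : y0 ∈ S ∧ y0 ≠ a ∧ y0 ≠ b
  hxy : ¬ (p : ℤ) ∣ x0 - y0
  cls : ∀ z ∈ S, (p : ℤ) ^ m ∣ z - x0 ∨ (p : ℤ) ^ m ∣ z - y0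
  hY : ∀ x ∈ Y, x ∈ S ∧ x ≠ a ∧ x ≠ b
  nd : ∀ T ⊆ Y, Y.card ≤ T.card + C → ∀ i j : Bool, ∃ x ∈ T,
    decide ((p : ℤ) ∣ x - x0) = i ∧ decide ((p : ℤ) ∣ f.ph x - x0) = j

/-- relation at points `x, y` of one class with `z` in the other -/
theorem rel (f : QM S a) {p : ℕ} (hp : p.Prime) {m : ℕ} {D1 ζ : ℤ}
    (hD : (f.al.den : ℤ) = (p : ℤ) ^ m * D1) {x y z : ℤ} (hx : x ∈ S ∧ x ≠ a) (hy : y ∈ S ∧ y ≠ a)
    (hz : z ∈ S ∧ z ≠ a) (hyz : ¬ (p : ℤ) ∣ y - z) (hxy : x - y = (p : ℤ) ^ m * ζ) :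
    (p : ℤ) ^ m ∣ D1 * (f.ph x - f.ph y) - ζ * (f.al.num * (x - z)) := by
  have hk := key f hx hy hz
  have hpp : (p : ℤ) ^ m ≠ 0 := by
    have : (p : ℤ) ≠ 0 := by exact_mod_cast hp.ne_zero
    positivity
  rw [hxy, hD] at hk
  have h1 : (D1 * (f.ph x - f.ph y)) * (y - z) =
      ζ * ((p : ℤ) ^ m * D1 * (f.ph y - f.ph z) + f.al.num * (y - z) * (x - z)) := by
    apply mul_left_cancel₀ hpp
    linear_combination hk
  apply dvd_cancel hp hyz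
  refine ⟨ζ * D1 * (f.ph y - f.ph z), ?_⟩
  linear_combination h1

theorem den_split {p : ℕ} (hp : p.Prime) {q : ℚ} {m : ℕ} (h : q.den.factorization p = m) :
    ∃ D1 : ℤ, ¬ (p : ℤ) ∣ D1 ∧ (q.den : ℤ) = (p : ℤ) ^ m * D1 := by
  refine ⟨((q.den / p ^ m : ℕ) : ℤ), ?_, ?_⟩
  · intro h1
    have h2 : p ∣ q.den / p ^ m := by exact_mod_cast h1
    rw [← h] at h2
    exact Nat.not_dvd_ordCompl hp q.den_nz h2
  · have h3 : p ^ m * (q.den / p ^ m) = q.den := by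
      rw [← h]
      exact Nat.ordProj_mul_ordCompl_eq_self q.den p
    exact_mod_cast h3.symm

namespace Loc

variable {f : QM S a} {g : QM S b} {Y : Finset ℤ} {C p m : ℕ} {x0 y0 : ℤ}

theorem pdvd (h : Loc f g Y C p m x0 y0) : (p : ℤ) ∣ (p : ℤ) ^ m := dvd_pow_self _ (by have := h.hm; omega)

theorem symm_dvd {u v : ℤ} (h : (p : ℤ) ∣ u - v) : (p : ℤ) ∣ v - u := by
  have := (dvd_neg.mpr h); simpa using this

/-- a point of `S` in the class of `x0` -/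
theorem cls_x (h : Loc f g Y C p m x0 y0) {z : ℤ} (hz : z ∈ S) (h1 : (p : ℤ) ∣ z - x0) :
    (p : ℤ) ^ m ∣ z - x0 := by
  rcases h.cls z hz with h2 | h2
  · exact h2
  · exfalso
    apply h.hxy
    have h3 := dvd_sub ((pdvd h).trans h2) h1
    simpa using h3

theorem cls_y (h : Loc f g Y C p m x0 y0) {z : ℤ} (hz : z ∈ S) (h1 : ¬ (p : ℤ) ∣ z - x0) :
    (p : ℤ) ^ m ∣ z - y0 := by
  rcases h.cls z hz with h2 | h2
  · exact absurd ((pdvd h).trans h2) h1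
  · exact h2

/-- `rep i` is the representative of class `i` and `rep (!i)` of the other class -/
def rep (x0 y0 : ℤ) (i : Bool) : ℤ := if i then x0 else y0

theorem rep_dvd (h : Loc f g Y C p m x0 y0) {z : ℤ} (hz : z ∈ S) {i : Bool}
    (h1 : decide ((p : ℤ) ∣ z - x0) = i) : (p : ℤ) ^ m ∣ z - rep x0 y0 i := by
  cases i with
  | true => exact h.cls_x hz (by simpa using h1)
  | false => exact h.cls_y hz (by simpa using h1)

theorem rep_mem (h : Loc f g Y C p m x0 y0) (i : Bool) :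
    rep x0 y0 i ∈ S ∧ rep x0 y0 i ≠ a ∧ rep x0 y0 i ≠ b := by
  cases i with
  | true => exact h.hx0
  | false => exact h.hy0

theorem rep_ne (h : Loc f g Y C p m x0 y0) (i : Bool) :
    ¬ (p : ℤ) ∣ rep x0 y0 i - rep x0 y0 (!i) := by
  cases i with
  | true => exact h.hxy
  | false =>
    intro h1
    exact h.hxy (symm_dvd h1)

/-- a point of class `i` is not congruent to the other representative -/
theorem rep_ne' (h : Loc f g Y C p m x0 y0) {z : ℤ} (hz : z ∈ S) {i : Bool}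
    (h1 : decide ((p : ℤ) ∣ z - x0) = i) : ¬ (p : ℤ) ∣ z - rep x0 y0 (!i) := by
  intro h2
  have h3 := (pdvd h).trans (h.rep_dvd hz h1)
  apply h.rep_ne i
  have := dvd_sub h2 h3
  simpa using this

/-- two points of the same class whose `f`-images lie in different classes -/
theorem pair (h : Loc f g Y C p m x0 y0) {T : Finset ℤ} (hT : T ⊆ Y) (hc : Y.card ≤ T.card + C)
    (i : Bool) : ∃ x ∈ T, ∃ y ∈ T, ∃ ζ : ℤ, decide ((p : ℤ) ∣ x - x0) = i ∧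
      decide ((p : ℤ) ∣ y - x0) = i ∧ x - y = (p : ℤ) ^ m * ζ ∧ ¬ (p : ℤ) ∣ ζ ∧
      (p : ℤ) ^ m ∣ f.ph x - x0 ∧ (p : ℤ) ^ m ∣ f.ph y - y0 ∧ ¬ (p : ℤ) ∣ g.ph x - g.ph y := by
  obtain ⟨x, hx, hx1, hx2⟩ := h.nd T hT hc i true
  obtain ⟨y, hy, hy1, hy2⟩ := h.nd T hT hc i false
  have mx := h.hY x (hT hx)
  have my := h.hY y (hT hy)
  have mz := h.rep_mem (!i)
  have fx := f.maps x mx.1 mx.2.1
  have fy := f.maps y my.1 my.2.1
  have e1 : (p : ℤ) ^ m ∣ f.ph x - x0 := h.cls_x fx (by simpa using hx2)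
  have e2 : (p : ℤ) ^ m ∣ f.ph y - y0 := h.cls_y fy (by simpa using hy2)
  have e3 : ¬ (p : ℤ) ∣ f.ph x - f.ph y := by
    intro h3
    have hy2' : ¬ (p : ℤ) ∣ f.ph y - x0 := by simpa using hy2
    apply hy2'
    have := dvd_sub ((pdvd h).trans e1) h3
    simpa using this
  have nx := h.rep_ne' mx.1 hx1
  have ny := h.rep_ne' my.1 hy1
  have s0 := sim f h.hp h.hm h.df ⟨mx.1, mx.2.1⟩ ⟨my.1, my.2.1⟩ ⟨mz.1, mz.2.1⟩ nx ny
  have s1 := sim g h.hp h.hm h.dg ⟨mx.1, mx.2.2⟩ ⟨my.1, my.2.2⟩ ⟨mz.1, mz.2.2⟩ nx ny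
  have d0 : (p : ℤ) ^ m ∣ x - y := by
    have := (s0 0).mpr (by simp)
    simpa using this
  have d1 : ¬ (p : ℤ) ^ (m + 1) ∣ x - y := by
    intro h3
    apply e3
    have := (s0 1).mp h3
    simpa using this
  obtain ⟨ζ, hζ⟩ := d0
  refine ⟨x, hx, y, hy, ζ, hx1, hy1, hζ, ?_, e1, e2, ?_⟩
  · intro h3
    apply d1
    rw [hζ, pow_succ]
    exact mul_dvd_mul_left _ h3
  · intro h3
    apply d1
    exact (s1 1).mpr (by simpa using h3)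

/-- the images of the pair under `g` -/
theorem gimg (h : Loc f g Y C p m x0 y0) {x y : ℤ} (hx : x ∈ Y) (hy : y ∈ Y)
    (hne : ¬ (p : ℤ) ∣ g.ph x - g.ph y) :
    ((p : ℤ) ^ m ∣ g.ph x - x0 ∧ (p : ℤ) ^ m ∣ g.ph y - y0) ∨
    ((p : ℤ) ^ m ∣ g.ph x - y0 ∧ (p : ℤ) ^ m ∣ g.ph y - x0) := by
  have mx := h.hY x hx
  have my := h.hY y hy
  have gx := g.maps x mx.1 mx.2.2
  have gy := g.maps y my.1 my.2.2
  rcases h.cls _ gx with h1 | h1 <;> rcases h.cls _ gy with h2 | h2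
  · exfalso; apply hne
    have := dvd_sub ((pdvd h).trans h1) ((pdvd h).trans h2)
    simpa using this
  · exact Or.inl ⟨h1, h2⟩
  · exact Or.inr ⟨h1, h2⟩
  · exfalso; apply hne
    have := dvd_sub ((pdvd h).trans h1) ((pdvd h).trans h2)
    simpa using this

/-- Step 5 -/
theorem n1 (h : Loc f g Y C p m x0 y0) :
    (p : ℤ) ^ (3 * m) ∣ (f.al.num * g.al.den) ^ 2 - (g.al.num * f.al.den) ^ 2 := by
  obtain ⟨x, hx, y, hy, ζ, hx1, hy1, hζ, hz0, e1, e2, e3⟩ :=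
    h.pair (Finset.Subset.refl Y) (by omega) true
  obtain ⟨D1, hD1, hD⟩ := den_split h.hp h.df
  obtain ⟨D2, hD2, hD'⟩ := den_split h.hp h.dg
  have mx := h.hY x hx
  have my := h.hY y hy
  have mz := h.rep_mem (!true)
  have nx := h.rep_ne' mx.1 hx1
  have ny := h.rep_ne' my.1 hy1
  obtain ⟨k1, hk1⟩ := rel f h.hp hD ⟨mx.1, mx.2.1⟩ ⟨my.1, my.2.1⟩ ⟨mz.1, mz.2.1⟩ ny hζ
  obtain ⟨k2, hk2⟩ := rel g h.hp hD' ⟨mx.1, mx.2.2⟩ ⟨my.1, my.2.2⟩ ⟨mz.1, mz.2.2⟩ ny hζ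
  set z := rep x0 y0 (!true) with hz
  set u := f.ph x - f.ph y with hu
  set v := g.ph x - g.ph y with hv
  -- squares agree
  have hsq : (p : ℤ) ^ m ∣ u ^ 2 - v ^ 2 := by
    rcases h.gimg hx hy e3 with ⟨g1, g2⟩ | ⟨g1, g2⟩
    · have h4 : (p : ℤ) ^ m ∣ u - v := by
        have := dvd_sub (dvd_sub e1 e2) (dvd_sub g1 g2)
        have e : f.ph x - x0 - (f.ph y - y0) - (g.ph x - x0 - (g.ph y - y0)) = u - v := by
          rw [hu, hv]; ring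
        rwa [e] at this
      have e : u ^ 2 - v ^ 2 = (u - v) * (u + v) := by ring
      rw [e]; exact h4.mul_right _
    · have h4 : (p : ℤ) ^ m ∣ u + v := by
        have := dvd_add (dvd_sub e1 e2) (dvd_sub g1 g2)
        have e : f.ph x - x0 - (f.ph y - y0) + (g.ph x - y0 - (g.ph y - x0)) = u + v := by
          rw [hu, hv]; ring
        rwa [e] at this
      have e : u ^ 2 - v ^ 2 = (u + v) * (u - v) := by ring
      rw [e]; exact h4.mul_right _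
  obtain ⟨k3, hk3⟩ := hsq
  have hu0 : ¬ (p : ℤ) ∣ u := by
    intro h4
    apply h.hxy
    have h5 := dvd_sub ((pdvd h).trans e1) ((pdvd h).trans e2)
    have h6 := dvd_sub h4 h5
    have e : u - (f.ph x - x0 - (f.ph y - y0)) = x0 - y0 := by rw [hu]; ring
    rwa [e] at h6
  have main : (p : ℤ) ^ m ∣ (D2 * f.al.num) ^ 2 - (D1 * g.al.num) ^ 2 := by
    have hu2 : ¬ (p : ℤ) ∣ u * u := not_dvd_mul h.hp hu0 hu0
    apply dvd_cancel h.hp hu2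
    set P := (p : ℤ) ^ m
    set w := f.al.num
    set w' := g.al.num
    set t := x - z
    -- D1 u = ζ w t + P k1, D2 v = ζ w' t + P k2, u^2 = v^2 + P k3
    refine ⟨D2 ^ 2 * w ^ 2 * k3 + (2 * ζ * w' * t * k2 + P * k2 ^ 2) * w ^ 2 -
      (2 * ζ * w * t * k1 + P * k1 ^ 2) * w' ^ 2, ?_⟩
    have a1 : D1 * u = ζ * (w * t) + P * k1 := by linarith
    have a2 : D2 * v = ζ * (w' * t) + P * k2 := by linarith
    have a3 : u ^ 2 = v ^ 2 + P * k3 := by linarith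
    have b1 : (D1 * u) ^ 2 = (ζ * (w * t) + P * k1) ^ 2 := by rw [a1]
    have b2 : (D2 * v) ^ 2 = (ζ * (w' * t) + P * k2) ^ 2 := by rw [a2]
    linear_combination (-w' ^ 2) * b1 + w ^ 2 * b2 + D2 ^ 2 * w ^ 2 * a3
  obtain ⟨k, hk⟩ := main
  refine ⟨k, ?_⟩
  rw [hD, hD']
  have e : (p : ℤ) ^ (3 * m) = (p : ℤ) ^ m * (p : ℤ) ^ m * (p : ℤ) ^ m := by
    rw [← pow_add, ← pow_add]; congr 1; ring
  rw [e]
  linear_combination ((p : ℤ) ^ m * (p : ℤ) ^ m) * hk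

/-- `p^m` does not divide `2 (x0 - y0)` -/
theorem two_ne (h : Loc f g Y C p m x0 y0) : ¬ (p : ℤ) ^ m ∣ 2 * (x0 - y0) := by
  intro h1
  have h2 := dvd_cancel h.hp h.hxy h1
  have h3 : (p : ℤ) ^ m ≤ 2 := Int.le_of_dvd (by norm_num) h2
  have h4 := h.hpm
  have h5 : (2 : ℤ) < (p : ℤ) ^ m := by exact_mod_cast h4
  omega

/-- Step 6, sign `+` -/
theorem six_pos (h : Loc f g Y C p m x0 y0) (hal : g.al = f.al) {T : Finset ℤ} (hT : T ⊆ Y)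
    (hc : Y.card ≤ T.card + C) (i : Bool) :
    ∃ x ∈ T, decide ((p : ℤ) ∣ x - x0) = i ∧ (p : ℤ) ^ m ∣ f.ph x - g.ph x := by
  obtain ⟨x, hx, y, hy, ζ, hx1, hy1, hζ, hz0, e1, e2, e3⟩ := h.pair hT hc i
  obtain ⟨D1, hD1, hD⟩ := den_split h.hp h.df
  have hD' : (g.al.den : ℤ) = (p : ℤ) ^ m * D1 := by rw [hal]; exact hD
  have mx := h.hY x (hT hx)
  have my := h.hY y (hT hy)
  have mz := h.rep_mem (!i)
  have ny := h.rep_ne' my.1 hy1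
  have r1 := rel f h.hp hD ⟨mx.1, mx.2.1⟩ ⟨my.1, my.2.1⟩ ⟨mz.1, mz.2.1⟩ ny hζ
  have r2 := rel g h.hp hD' ⟨mx.1, mx.2.2⟩ ⟨my.1, my.2.2⟩ ⟨mz.1, mz.2.2⟩ ny hζ
  rw [hal] at r2
  have r3 : (p : ℤ) ^ m ∣ ((f.ph x - f.ph y) - (g.ph x - g.ph y)) * D1 := by
    have := dvd_sub r1 r2
    have e : D1 * (f.ph x - f.ph y) - ζ * (f.al.num * (x - rep x0 y0 (!i))) -
      (D1 * (g.ph x - g.ph y) - ζ * (f.al.num * (x - rep x0 y0 (!i)))) =
      ((f.ph x - f.ph y) - (g.ph x - g.ph y)) * D1 := by ring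
    rwa [e] at this
  have r4 := dvd_cancel h.hp hD1 r3
  refine ⟨x, hx, hx1, ?_⟩
  rcases h.gimg (hT hx) (hT hy) e3 with ⟨g1, g2⟩ | ⟨g1, g2⟩
  · have := dvd_sub e1 g1
    simpa using this
  · exfalso
    apply h.two_ne
    have := dvd_sub r4 (dvd_sub (dvd_sub e1 e2) (dvd_sub g1 g2))
    have e : f.ph x - f.ph y - (g.ph x - g.ph y) - (f.ph x - x0 - (f.ph y - y0) -
      (g.ph x - y0 - (g.ph y - x0))) = 2 * (x0 - y0) := by ring
    rwa [e] at this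

/-- Step 6, sign `-` -/
theorem six_neg (h : Loc f g Y C p m x0 y0) (hal : g.al = - f.al) {T : Finset ℤ} (hT : T ⊆ Y)
    (hc : Y.card ≤ T.card + C) (i : Bool) :
    ∃ x ∈ T, decide ((p : ℤ) ∣ x - x0) = i ∧ (p : ℤ) ^ m ∣ f.ph x + g.ph x - (x0 + y0) := by
  obtain ⟨x, hx, y, hy, ζ, hx1, hy1, hζ, hz0, e1, e2, e3⟩ := h.pair hT hc i
  obtain ⟨D1, hD1, hD⟩ := den_split h.hp h.df
  have hD' : (g.al.den : ℤ) = (p : ℤ) ^ m * D1 := by rw [hal, Rat.den_neg_eq_den]; exact hD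
  have mx := h.hY x (hT hx)
  have my := h.hY y (hT hy)
  have mz := h.rep_mem (!i)
  have ny := h.rep_ne' my.1 hy1
  have r1 := rel f h.hp hD ⟨mx.1, mx.2.1⟩ ⟨my.1, my.2.1⟩ ⟨mz.1, mz.2.1⟩ ny hζ
  have r2 := rel g h.hp hD' ⟨mx.1, mx.2.2⟩ ⟨my.1, my.2.2⟩ ⟨mz.1, mz.2.2⟩ ny hζ
  rw [hal, Rat.num_neg_eq_neg_num] at r2
  have r3 : (p : ℤ) ^ m ∣ ((f.ph x - f.ph y) + (g.ph x - g.ph y)) * D1 := by
    have := dvd_add r1 r2
    have e : D1 * (f.ph x - f.ph y) - ζ * (f.al.num * (x - rep x0 y0 (!i))) +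
      (D1 * (g.ph x - g.ph y) - ζ * (-f.al.num * (x - rep x0 y0 (!i)))) =
      ((f.ph x - f.ph y) + (g.ph x - g.ph y)) * D1 := by ring
    rwa [e] at this
  have r4 := dvd_cancel h.hp hD1 r3
  refine ⟨x, hx, hx1, ?_⟩
  rcases h.gimg (hT hx) (hT hy) e3 with ⟨g1, g2⟩ | ⟨g1, g2⟩
  · exfalso
    apply h.two_ne
    have := dvd_sub r4 (dvd_add (dvd_sub e1 e2) (dvd_sub g1 g2))
    have e : f.ph x - f.ph y + (g.ph x - g.ph y) - (f.ph x - x0 - (f.ph y - y0) +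
      (g.ph x - x0 - (g.ph y - y0))) = 2 * (x0 - y0) := by ring
    rwa [e] at this
  · have := dvd_add e1 g1
    have e : f.ph x - x0 + (g.ph x - y0) = f.ph x + g.ph x - (x0 + y0) := by ring
    rwa [e] at this

end Loc

end F0744
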