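import Pool.Agent.Lib.MP_f0744f_nt.Nd
import Pool.Agent.Lib.MP_f0744f_nt.Loc2

open Finset

namespace F0744

variable {S : Finset ℤ} {a b : ℤ}

theorem one_class (f : QM S a) {p : ℕ} (hp : p.Prime) {d : ℕ} (hd1 : 1 ≤ d)
    (hd : f.al.den.factorization p = d) {z : ℤ} (hz : z ∈ S ∧ z ≠ a) (Y : Finset ℤ)
    (hY : ∀ x ∈ Y, (x ∈ S ∧ x ≠ a) ∧ ¬ (p : ℤ) ∣ x - z ∧ f.ph x ≠ a ∧ ¬ (p : ℤ) ∣ f.ph x - z) :
    ∀ x ∈ Y, ∀ y ∈ Y, (p : ℤ) ^ (2 * d) ∣ x - y := by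
  intro x hx y hy
  have h1 := hY x hx
  have h2 := hY y hy
  have fx : f.ph x ∈ S ∧ f.ph x ≠ a := ⟨f.maps x h1.1.1 h1.1.2, h1.2.2.1⟩
  have fy : f.ph y ∈ S ∧ f.ph y ≠ a := ⟨f.maps y h2.1.1 h2.1.2, h2.2.2.1⟩
  have s1 := (sim f hp hd1 hd fx fy hz h1.2.2.2 h2.2.2.2 0).mpr (by simp)
  have s2 := (sim f hp hd1 hd h1.1 h2.1 hz h1.2.1 h2.2.1 d).mpr (by simpa using s1)
  have e : 2 * d = d + d := by ring
  rw [e]; exact s2

/-- the standing assumptions at a good prime -/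
structure Hyp (f : QM S a) (g : QM S b) (Y : Finset ℤ) (C C' p m : ℕ) : Prop where
  hp : p.Prime
  hm : 1 ≤ m
  hpm : 2 < p ^ m
  hab : a ≠ b
  ha : a ∈ S
  hb : b ∈ S
  hY : ∀ x ∈ Y, x ∈ S ∧ x ≠ a ∧ x ≠ b
  hYf : ∀ x ∈ Y, f.ph x ≠ a ∧ f.ph x ≠ b
  hYg : ∀ x ∈ Y, g.ph x ≠ a ∧ g.ph x ≠ b
  hC : S.card ≤ Y.card + C'
  hn : 1000 * (C + C' + 1) ≤ Y.card
  prim : ∃ u ∈ S, ∃ v ∈ S, ¬ (p : ℤ) ∣ u - v
  hE : 100 * E p Y ≤ 101 * m * (Y.card * Y.card - Y.card)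
  hf : 99 * m ≤ 100 * f.al.den.factorization p
  hf' : f.al.den.factorization p ≤ m
  hg : 99 * m ≤ 100 * g.al.den.factorization p
  hg' : g.al.den.factorization p ≤ m
  hmx : m = f.al.den.factorization p ∨ m = g.al.den.factorization p

theorem span_aux {p : ℕ} {Y : Finset ℤ} {d m : ℕ} (hm : 1 ≤ m) (hd : 99 * m ≤ 100 * d)
    (hn : 2 ≤ Y.card) (hE : 100 * E p Y ≤ 101 * m * (Y.card * Y.card - Y.card))
    (h : 2 * d * (Y.card * Y.card - Y.card) ≤ E p Y) : False := by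
  have h1 : 1 ≤ Y.card * Y.card - Y.card := by
    have : 2 * Y.card ≤ Y.card * Y.card := Nat.mul_le_mul_right _ hn
    omega
  set N := Y.card * Y.card - Y.card
  have h2 : 100 * (2 * d * N) ≤ 101 * m * N := (Nat.mul_le_mul_left 100 h).trans hE
  have h3 : 2 * (100 * d) * N ≤ 101 * m * N := by
    calc 2 * (100 * d) * N = 100 * (2 * d * N) := by ring
      _ ≤ _ := h2
  have h4 := Nat.le_of_mul_le_mul_right h3 (by omega : 0 < N)
  omega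

theorem span {f : QM S a} {g : QM S b} {Y : Finset ℤ} {C C' p m : ℕ} (H : Hyp f g Y C C' p m) :
    ∃ x0 y0 : ℤ, (x0 ∈ S ∧ x0 ≠ a ∧ x0 ≠ b) ∧ (y0 ∈ S ∧ y0 ≠ a ∧ y0 ≠ b) ∧
      ¬ (p : ℤ) ∣ x0 - y0 := by
  by_contra hcon
  push Not at hcon
  have hn2 : 2 ≤ Y.card := by have := H.hn; omega
  have hdf : 1 ≤ f.al.den.factorization p := by have := H.hf; have := H.hm; omega
  have hdg : 1 ≤ g.al.den.factorization p := by have := H.hg; have := H.hm; omega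
  obtain ⟨s, hs⟩ : Y.Nonempty := card_pos.mp (by omega)
  obtain ⟨u, hu, v, hv, huv⟩ := H.prim
  have hs' := H.hY s hs
  have hall : ∀ x, (x ∈ S ∧ x ≠ a ∧ x ≠ b) → (p : ℤ) ∣ x - s := by
    intro x hx
    exact hcon x s hx hs'
  obtain ⟨z, hz, hzs⟩ : ∃ z ∈ S, ¬ (p : ℤ) ∣ z - s := by
    by_cases h1 : (p : ℤ) ∣ u - s
    · refine ⟨v, hv, ?_⟩
      intro h2
      apply huv
      have := dvd_sub h1 h2
      simpa using this
    · exact ⟨u, hu, h1⟩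
  have hz' : z = a ∨ z = b := by
    by_contra h1
    push Not at h1
    exact hzs (hall z ⟨hz, h1.1, h1.2⟩)
  have hnz : ∀ x, (x ∈ S ∧ x ≠ a ∧ x ≠ b) → ¬ (p : ℤ) ∣ x - z := by
    intro x hx h1
    apply hzs
    have := dvd_sub (hall x hx) h1
    simpa using this
  rcases hz' with rfl | rfl
  · -- z = a : use g
    have h1 := one_class g H.hp hdg rfl ⟨H.ha, H.hab⟩ Y (by
        intro x hx
        have k := H.hY x hx
        have kg := H.hYg x hx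
        have mg := g.maps x k.1 k.2.2
        exact ⟨⟨k.1, k.2.2⟩, hnz x k, kg.2, hnz _ ⟨mg, kg.1, kg.2⟩⟩)
    exact span_aux H.hm H.hg hn2 H.hE (E_all H.hp h1)
  · have h1 := one_class f H.hp hdf rfl ⟨H.hb, H.hab.symm⟩ Y (by
        intro x hx
        have k := H.hY x hx
        have kf := H.hYf x hx
        have mf := f.maps x k.1 k.2.1
        exact ⟨⟨k.1, k.2.1⟩, hnz x k, kf.1, hnz _ ⟨mf, kf.1, kf.2⟩⟩)
    exact span_aux H.hm H.hf hn2 H.hE (E_all H.hp h1)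

/-- arithmetic contradiction for a missing word -/
theorem nd_arith {t n k m d e : ℕ} (hm : 1 ≤ m) (hd : 99 * m ≤ 100 * d) (hd' : d ≤ m)
    (hn : 1000 * (k + 1) ≤ n) (ht : n ≤ t + 2 * k) (htn : t ≤ n)
    (hE : 100 * e ≤ 101 * m * (n * n - n)) (h : d * (31 * t ^ 2) ≤ 30 * e + d * (90 * t)) :
    False := by
  have hnn : n ≤ n * n := Nat.le_mul_self n
  zify [hnn] at *
  have h1 : 99 * (m : ℤ) * (31 * t ^ 2) ≤ 100 * (d * (31 * t ^ 2)) := by nlinarith [sq_nonneg (t : ℤ)]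
  have h2 : (d : ℤ) * (90 * t) ≤ m * (90 * t) := by nlinarith
  have h3 : (m : ℤ) * (3069 * t ^ 2) ≤ m * (3030 * (n * n - n) + 9000 * t) := by nlinarith
  have h4 : (3069 : ℤ) * t ^ 2 ≤ 3030 * (n * n - n) + 9000 * t := by
    exact le_of_mul_le_mul_left h3 (by linarith)
  have h5 : 500 * (t : ℤ) ≥ 499 * n := by linarith
  have h6 : 250000 * (t : ℤ) ^ 2 ≥ 249001 * n ^ 2 := by nlinarith
  nlinarith

/-- no missing word for `f` -/
theorem nd_f {f : QM S a} {Y : Finset ℤ} {C C' p m : ℕ} (hp : p.Prime) (hm : 1 ≤ m)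
    (hY : ∀ x ∈ Y, (x ∈ S ∧ x ≠ a) ∧ f.ph x ≠ a) (hC : S.card ≤ Y.card + C')
    (hn : 1000 * (C + C' + 1) ≤ Y.card)
    (hE : 100 * E p Y ≤ 101 * m * (Y.card * Y.card - Y.card))
    (hf : 99 * m ≤ 100 * f.al.den.factorization p) (hf' : f.al.den.factorization p ≤ m)
    {x0 y0 : ℤ} (hx0 : x0 ∈ S ∧ x0 ≠ a) (hy0 : y0 ∈ S ∧ y0 ≠ a) (hxy : ¬ (p : ℤ) ∣ x0 - y0)
    (T : Finset ℤ) (hTY : T ⊆ Y) (hTC : Y.card ≤ T.card + C) (i j : Bool) :
    ∃ x ∈ T, decide ((p : ℤ) ∣ x - x0) = i ∧ decide ((p : ℤ) ∣ f.ph x - x0) = j := by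
  by_contra hcon
  push Not at hcon
  have hd1 : 1 ≤ f.al.den.factorization p := by omega
  obtain ⟨T1, hT1, hc, he⟩ := nd_energy f hp hd1 rfl hx0 hy0 hxy T
    (fun x hx => hY x (hTY hx)) i j (fun x hx h => hcon x hx h.1 h.2)
  have h1 : T1.card ≤ Y.card := card_le_card (hT1.trans hTY)
  have h2 : E p T1 ≤ E p Y := E_mono p (hT1.trans hTY)
  have h3 : Y.card ≤ S.card := by
    apply card_le_card
    intro x hx
    exact (hY x hx).1.1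
  refine nd_arith (t := T1.card) (n := Y.card) (k := C + C') (m := m)
    (d := f.al.den.factorization p) (e := E p Y) hm hf hf' hn (by omega) h1 hE ?_
  omega

theorem loc_of {f : QM S a} {g : QM S b} {Y : Finset ℤ} {C C' p m : ℕ}
    (H : Hyp f g Y C C' p m) : ∃ x0 y0 : ℤ, Loc f g Y C p m x0 y0 := by
  obtain ⟨x0, y0, hx0, hy0, hxy⟩ := span H
  have ndf := nd_f (f := f) (Y := Y) (C := C) (C' := C') H.hp H.hm
    (fun x hx => ⟨⟨(H.hY x hx).1, (H.hY x hx).2.1⟩, (H.hYf x hx).1⟩) H.hC H.hn H.hE H.hf H.hf'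
    ⟨hx0.1, hx0.2.1⟩ ⟨hy0.1, hy0.2.1⟩ hxy
  have ndg := nd_f (f := g) (Y := Y) (C := C) (C' := C') H.hp H.hm
    (fun x hx => ⟨⟨(H.hY x hx).1, (H.hY x hx).2.2⟩, (H.hYg x hx).2⟩) H.hC H.hn H.hE H.hg H.hg'
    ⟨hx0.1, hx0.2.2⟩ ⟨hy0.1, hy0.2.2⟩ hxy
  have hdf : 1 ≤ f.al.den.factorization p := by have := H.hf; have := H.hm; omega
  have hdg : 1 ≤ g.al.den.factorization p := by have := H.hg; have := H.hm; omega
  -- the two exponents agree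
  have cmp : ∀ {a1 b1 : ℤ} (f1 : QM S a1) (g1 : QM S b1), 1 ≤ f1.al.den.factorization p →
      1 ≤ g1.al.den.factorization p →
      (x0 ∈ S ∧ x0 ≠ a1 ∧ x0 ≠ b1) → (y0 ∈ S ∧ y0 ≠ a1 ∧ y0 ≠ b1) →
      (∀ x ∈ Y, x ∈ S ∧ x ≠ a1 ∧ x ≠ b1) →
      (∀ T ⊆ Y, Y.card ≤ T.card + C → ∀ i j : Bool, ∃ x ∈ T,
        decide ((p : ℤ) ∣ x - x0) = i ∧ decide ((p : ℤ) ∣ f1.ph x - x0) = j) →
      g1.al.den.factorization p ≤ f1.al.den.factorization p := by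
    intro a1 b1 f1 g1 h1 h2 k1 k2 k3 nd
    obtain ⟨x, hx, hx1, hx2⟩ := nd Y (Subset.refl Y) (by omega) true true
    obtain ⟨y, hy, hy1, hy2⟩ := nd Y (Subset.refl Y) (by omega) true false
    have mx := k3 x hx
    have my := k3 y hy
    have cx : (p : ℤ) ∣ x - x0 := by simpa using hx1
    have cy : (p : ℤ) ∣ y - x0 := by simpa using hy1
    have nx : ¬ (p : ℤ) ∣ x - y0 := by
      intro h; apply hxy; have := dvd_sub h cx; simpa using this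
    have ny : ¬ (p : ℤ) ∣ y - y0 := by
      intro h; apply hxy; have := dvd_sub h cy; simpa using this
    have s1 := sim f1 H.hp h1 rfl ⟨mx.1, mx.2.1⟩ ⟨my.1, my.2.1⟩ ⟨k2.1, k2.2.1⟩ nx ny 1
    have s2 := (sim g1 H.hp h2 rfl ⟨mx.1, mx.2.2⟩ ⟨my.1, my.2.2⟩ ⟨k2.1, k2.2.2⟩ nx ny 0).mpr
      (by simp)
    by_contra hlt
    push Not at hlt
    have h3 : (p : ℤ) ^ (f1.al.den.factorization p + 1) ∣ x - y :=
      (pow_dvd_pow _ (by omega)).trans s2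
    have h4 := s1.mp h3
    have hy2' : ¬ (p : ℤ) ∣ f1.ph y - x0 := by simpa using hy2
    have hx2' : (p : ℤ) ∣ f1.ph x - x0 := by simpa using hx2
    apply hy2'
    rw [pow_one] at h4
    have := dvd_sub hx2' h4
    simpa using this
  have c1 := cmp f g hdf hdg hx0 hy0 H.hY ndf
  have c2 := cmp g f hdg hdf ⟨hx0.1, hx0.2.2, hx0.2.1⟩ ⟨hy0.1, hy0.2.2, hy0.2.1⟩
    (fun x hx => ⟨(H.hY x hx).1, (H.hY x hx).2.2, (H.hY x hx).2.1⟩) ndg
  have hE' : f.al.den.factorization p = g.al.den.factorization p := le_antisymm c2 c1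
  have df : f.al.den.factorization p = m := by
    rcases H.hmx with h | h
    · exact h.symm
    · rw [hE', h]
  have dg : g.al.den.factorization p = m := by rw [← hE', df]
  have hdf' : (p : ℤ) ^ m ∣ (f.al.den : ℤ) := by
    have := Nat.ordProj_dvd f.al.den p
    rw [df] at this
    exact_mod_cast this
  have hdg' : (p : ℤ) ^ m ∣ (g.al.den : ℤ) := by
    have := Nat.ordProj_dvd g.al.den p
    rw [dg] at this
    exact_mod_cast this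
  refine ⟨x0, y0, ⟨H.hp, H.hm, H.hpm, df, dg, hx0, hy0, hxy, ?_, H.hY, ndf⟩⟩
  intro z hz
  by_cases hza : z = a
  · have hzb : z ≠ b := by rw [hza]; exact H.hab
    exact two_class g H.hp H.hm hdg' ⟨hx0.1, hx0.2.2⟩ ⟨hy0.1, hy0.2.2⟩ ⟨hz, hzb⟩ hxy
  · exact two_class f H.hp H.hm hdf' ⟨hx0.1, hx0.2.1⟩ ⟨hy0.1, hy0.2.1⟩ ⟨hz, hza⟩ hxy

end F0744
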