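import Pool.Agent.Lib.MP_f0744f_nt.Defs

namespace F0744

/-- points of `S` whose first `k` iterates avoid `a` (and stay in `S`) -/
def Dm (S : Finset ℤ) (a : ℤ) (ph : ℤ → ℤ) : ℕ → Finset ℤ
  | 0 => S
  | j + 1 => S.filter (fun x => x ≠ a ∧ ph x ∈ Dm S a ph j)

theorem Dm_sub (S : Finset ℤ) (a : ℤ) (ph : ℤ → ℤ) (k : ℕ) : Dm S a ph k ⊆ S := by
  cases k with
  | zero => exact Finset.Subset.refl S
  | succ k => exact Finset.filter_subset _ _

theorem Dm_card (S : Finset ℤ) (a : ℤ) (f : QM S a) (k : ℕ) :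
    S.card ≤ (Dm S a f.ph k).card + k := by
  have key : ∀ k, (S \ Dm S a f.ph k).card ≤ k := by
    intro k
    induction k with
    | zero => simp [Dm]
    | succ k ih =>
      have h1 : S \ Dm S a f.ph (k + 1) ⊆
          insert a (S.filter (fun x => x ≠ a ∧ f.ph x ∈ S \ Dm S a f.ph k)) := by
        intro x hx
        rw [Finset.mem_sdiff] at hx
        obtain ⟨hxS, hx2⟩ := hx
        by_cases hxa : x = a
        · rw [hxa]; exact Finset.mem_insert_self _ _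
        · refine Finset.mem_insert_of_mem ?_
          rw [Finset.mem_filter]
          refine ⟨hxS, hxa, ?_⟩
          rw [Finset.mem_sdiff]
          refine ⟨f.maps x hxS hxa, ?_⟩
          intro h
          apply hx2
          simp only [Dm, Finset.mem_filter]
          exact ⟨hxS, hxa, h⟩
      have h2 : (S.filter (fun x => x ≠ a ∧ f.ph x ∈ S \ Dm S a f.ph k)).card ≤
          (S \ Dm S a f.ph k).card := by
        apply Finset.card_le_card_of_injOn f.ph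
        · intro x hx
          have hx' := Finset.mem_coe.mp hx
          rw [Finset.mem_filter] at hx'
          exact Finset.mem_coe.mpr hx'.2.2
        · intro x hx y hy hxy
          have hx' := Finset.mem_coe.mp hx
          have hy' := Finset.mem_coe.mp hy
          rw [Finset.mem_filter] at hx' hy'
          exact f.inj x hx'.1 y hy'.1 hx'.2.1 hy'.2.1 hxy
      calc (S \ Dm S a f.ph (k + 1)).card
          ≤ (insert a (S.filter (fun x => x ≠ a ∧ f.ph x ∈ S \ Dm S a f.ph k))).card :=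
            Finset.card_le_card h1
        _ ≤ (S.filter (fun x => x ≠ a ∧ f.ph x ∈ S \ Dm S a f.ph k)).card + 1 :=
            Finset.card_insert_le _ _
        _ ≤ k + 1 := by omega
  have h3 := key k
  have h4 := Finset.card_sdiff_add_card_eq_card (Dm_sub S a f.ph k)
  omega

/-- the difference formula -/
theorem QM.diff {S : Finset ℤ} {a : ℤ} (f : QM S a) {x y : ℤ} (hx : x ∈ S) (hy : y ∈ S)
    (hxa : x ≠ a) (hya : y ≠ a) :
    ((f.ph x : ℤ) : ℚ) - ((f.ph y : ℤ) : ℚ) =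
      f.al * ((x : ℚ) - y) * (((x : ℚ) - (-f.be / (2 * f.al))) + ((y : ℚ) - (-f.be / (2 * f.al)))) := by
  rw [f.val x hx hxa, f.val y hy hya]
  have := f.hal
  field_simp
  ring

theorem abs_sub_le_L {S : Finset ℤ} {L : ℤ} (hL : ∀ x ∈ S, ∀ y ∈ S, x - y ≤ L) {x y : ℤ}
    (hx : x ∈ S) (hy : y ∈ S) : |(x : ℚ) - y| ≤ L := by
  rw [abs_le]
  have h1 := hL x hx y hy
  have h2 := hL y hy x hx
  have h1' : (x : ℚ) - y ≤ L := by exact_mod_cast h1
  have h2' : (y : ℚ) - x ≤ L := by exact_mod_cast h2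
  constructor <;> linarith

/-- expansion on a set on one side of the critical point -/
theorem expand {S : Finset ℤ} {a : ℤ} (f : QM S a) (L : ℤ) 
    (hfar : ∀ x ∈ S, x ≠ a → (L : ℚ) / 100 ≤ |(x : ℚ) - (-f.be / (2 * f.al))|)
    {x y : ℤ} (hx : x ∈ S) (hy : y ∈ S) (hxa : x ≠ a) (hya : y ≠ a)
    (hside : (-f.be / (2 * f.al) ≤ (x : ℚ) ∧ -f.be / (2 * f.al) ≤ (y : ℚ)) ∨
      ((x : ℚ) < -f.be / (2 * f.al) ∧ (y : ℚ) < -f.be / (2 * f.al))) :
    |f.al| * L / 50 * |(x : ℚ) - y| ≤ |((f.ph x : ℤ) : ℚ) - ((f.ph y : ℤ) : ℚ)| := by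
  rw [f.diff hx hy hxa hya, abs_mul, abs_mul]
  have h1 := hfar x hx hxa
  have h2 := hfar y hy hya
  set c : ℚ := -f.be / (2 * f.al) with hc
  have h3 : (L : ℚ) / 50 ≤ |((x : ℚ) - c) + ((y : ℚ) - c)| := by
    rcases hside with ⟨h, h'⟩ | ⟨h, h'⟩
    · rw [abs_of_nonneg (by linarith)] at h1 h2
      rw [abs_of_nonneg (by linarith)]
      linarith
    · rw [abs_of_neg (by linarith)] at h1 h2
      rw [abs_of_neg (by linarith)]
      linarith
  have h4 : 0 ≤ |f.al| * |(x : ℚ) - y| := by positivity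
  have h5 := mul_le_mul_of_nonneg_left h3 h4
  calc |f.al| * L / 50 * |(x : ℚ) - y| = |f.al| * |(x : ℚ) - y| * (L / 50) := by ring
    _ ≤ _ := h5

theorem pigeon {S : Finset ℤ} {a : ℤ} (f : QM S a) (L : ℤ) (hL0 : 0 ≤ L)
    (hL : ∀ x ∈ S, ∀ y ∈ S, x - y ≤ L)
    (hfar : ∀ x ∈ S, x ≠ a → (L : ℚ) / 100 ≤ |(x : ℚ) - (-f.be / (2 * f.al))|) (k : ℕ) :
    ∀ T : Finset ℤ, T ⊆ Dm S a f.ph k → 2 ^ k < T.card →
      ∃ x ∈ T, ∃ y ∈ T, x ≠ y ∧ (|f.al| * L / 50) ^ k * |(x : ℚ) - y| ≤ L := by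
  induction k with
  | zero =>
    intro T hT hc
    rw [pow_zero] at hc
    obtain ⟨x, hx, y, hy, hxy⟩ := Finset.one_lt_card.mp hc
    refine ⟨x, hx, y, hy, hxy, ?_⟩
    rw [pow_zero, one_mul]
    exact abs_sub_le_L hL (hT hx) (hT hy)
  | succ k ih =>
    intro T hT hc
    have hTm : ∀ x ∈ T, x ∈ S ∧ x ≠ a ∧ f.ph x ∈ Dm S a f.ph k := by
      intro x hx
      have := hT hx
      simp only [Dm, Finset.mem_filter] at this
      exact this
    set c : ℚ := -f.be / (2 * f.al) with hcd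
    -- choose the side
    have hside : ∃ T' ⊆ T, 2 ^ k < T'.card ∧ ∀ x ∈ T', ∀ y ∈ T',
        (c ≤ (x : ℚ) ∧ c ≤ (y : ℚ)) ∨ ((x : ℚ) < c ∧ (y : ℚ) < c) := by
      have hsum := Finset.card_filter_add_card_filter_not (s := T) (fun x : ℤ => c ≤ (x : ℚ))
      by_cases h : 2 ^ k < (T.filter (fun x : ℤ => c ≤ (x : ℚ))).card
      · refine ⟨_, Finset.filter_subset _ _, h, ?_⟩
        intro x hx y hy
        exact Or.inl ⟨(Finset.mem_filter.mp hx).2, (Finset.mem_filter.mp hy).2⟩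
      · refine ⟨T.filter (fun x : ℤ => ¬ c ≤ (x : ℚ)), Finset.filter_subset _ _, ?_, ?_⟩
        · rw [pow_succ] at hc
          omega
        · intro x hx y hy
          exact Or.inr ⟨not_le.mp (Finset.mem_filter.mp hx).2,
            not_le.mp (Finset.mem_filter.mp hy).2⟩
    obtain ⟨T', hT'T, hc', hs⟩ := hside
    have hinj : Set.InjOn f.ph (T' : Set ℤ) := by
      intro x hx y hy hxy
      obtain ⟨h1, h2, -⟩ := hTm x (hT'T (Finset.mem_coe.mp hx))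
      obtain ⟨h3, h4, -⟩ := hTm y (hT'T (Finset.mem_coe.mp hy))
      exact f.inj x h1 y h3 h2 h4 hxy
    have hcard : (T'.image f.ph).card = T'.card := Finset.card_image_of_injOn hinj
    obtain ⟨u, hu, v, hv, huv, hle⟩ := ih (T'.image f.ph) (by
      intro u hu
      obtain ⟨x, hx, rfl⟩ := Finset.mem_image.mp hu
      exact (hTm x (hT'T hx)).2.2) (by rw [hcard]; exact hc')
    obtain ⟨x, hx, rfl⟩ := Finset.mem_image.mp hu
    obtain ⟨y, hy, rfl⟩ := Finset.mem_image.mp hv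
    refine ⟨x, hT'T hx, y, hT'T hy, fun h => huv (by rw [h]), ?_⟩
    obtain ⟨h1, h2, -⟩ := hTm x (hT'T hx)
    obtain ⟨h3, h4, -⟩ := hTm y (hT'T hy)
    have hex := expand f L hfar h1 h3 h2 h4 (hs x hx y hy)
    have hr : 0 ≤ |f.al| * (L : ℚ) / 50 := by
      have : (0 : ℚ) ≤ L := by exact_mod_cast hL0
      positivity
    calc (|f.al| * L / 50) ^ (k + 1) * |(x : ℚ) - y|
        = (|f.al| * L / 50) ^ k * (|f.al| * L / 50 * |(x : ℚ) - y|) := by ring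
      _ ≤ (|f.al| * L / 50) ^ k * |((f.ph x : ℤ) : ℚ) - ((f.ph y : ℤ) : ℚ)| :=
          mul_le_mul_of_nonneg_left hex (pow_nonneg hr k)
      _ ≤ L := hle

theorem real_far {S : Finset ℤ} {a : ℤ} (f : QM S a) (L : ℤ) (hL0 : 0 ≤ L)
    (hL : ∀ x ∈ S, ∀ y ∈ S, x - y ≤ L)
    (hfar : ∀ x ∈ S, x ≠ a → (L : ℚ) / 100 ≤ |(x : ℚ) - (-f.be / (2 * f.al))|) (k : ℕ)
    (hN : 2 ^ k + k < S.card) : (|f.al| * L / 1000) ^ k ≤ (L : ℚ) := by
  have h1 := Dm_card S a f k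
  obtain ⟨x, hx, y, hy, hxy, hle⟩ := pigeon f L hL0 hL hfar k (Dm S a f.ph k)
    (Finset.Subset.refl _) (by omega)
  have hL' : (0 : ℚ) ≤ L := by exact_mod_cast hL0
  have h2 : (1 : ℚ) ≤ |(x : ℚ) - y| := by
    have h3 : (1 : ℤ) ≤ |x - y| := Int.one_le_abs (sub_ne_zero.mpr hxy)
    have h4 : ((1 : ℤ) : ℚ) ≤ ((|x - y| : ℤ) : ℚ) := by exact_mod_cast h3
    rw [Int.cast_abs, Int.cast_sub, Int.cast_one] at h4
    exact h4
  have h5 : |f.al| * (L : ℚ) / 1000 ≤ |f.al| * L / 50 := by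
    have : 0 ≤ |f.al| * (L : ℚ) := by positivity
    linarith
  have h6 : 0 ≤ |f.al| * (L : ℚ) / 1000 := by positivity
  have h7 := pow_le_pow_left₀ h6 h5 k
  have h8 : 0 ≤ (|f.al| * (L : ℚ) / 50) ^ k := by positivity
  have h9 := le_mul_of_one_le_right h8 h2
  linarith

theorem near_diam {S : Finset ℤ} {a : ℤ} (f : QM S a) (L : ℤ) (hL0 : 0 < L)
    (hL : ∀ x ∈ S, ∀ y ∈ S, x - y ≤ L) (hr : 1000 < |f.al| * (L : ℚ))
    {x₀ : ℤ} (hx₀ : x₀ ∈ S) (hx₀a : x₀ ≠ a)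
    (hnear : |(x₀ : ℚ) - (-f.be / (2 * f.al))| < (L : ℚ) / 100)
    {x y : ℤ} (hx : x ∈ S) (hy : y ∈ S) (hxa : x ≠ a) (hya : y ≠ a) :
    |(x : ℚ) - y| < 7 / 100 * L := by
  have hL' : (0 : ℚ) < L := by exact_mod_cast hL0
  set c : ℚ := -f.be / (2 * f.al) with hc
  have hal : 0 < |f.al| := abs_pos.mpr f.hal
  have key : ∀ z ∈ S, z ≠ a → |(z : ℚ) - c| < 7 / 200 * L := by
    intro z hz hza
    have h1 := f.diff hz hx₀ hza hx₀a
    have h2 := abs_sub_le_L hL (f.maps z hz hza) (f.maps x₀ hx₀ hx₀a)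
    rw [h1, mul_assoc, abs_mul] at h2
    have h3 : ((z : ℚ) - x₀) * (((z : ℚ) - c) + ((x₀ : ℚ) - c)) =
        ((z : ℚ) - c) ^ 2 - ((x₀ : ℚ) - c) ^ 2 := by ring
    rw [h3] at h2
    have h4 : |f.al| * (((z : ℚ) - c) ^ 2 - ((x₀ : ℚ) - c) ^ 2) ≤ L :=
      le_trans (mul_le_mul_of_nonneg_left (le_abs_self _) hal.le) h2
    have h5 : ((x₀ : ℚ) - c) ^ 2 < (L / 100) ^ 2 := sq_lt_sq' (by linarith [(abs_lt.mp hnear).1])
      (abs_lt.mp hnear).2
    by_contra hcon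
    push Not at hcon
    have h6 : (7 / 200 * (L : ℚ)) ^ 2 ≤ ((z : ℚ) - c) ^ 2 := by
      rw [← sq_abs ((z : ℚ) - c)]
      exact pow_le_pow_left₀ (by positivity) hcon 2
    have h7 : (9 / 8000 * (L : ℚ) ^ 2) < ((z : ℚ) - c) ^ 2 - ((x₀ : ℚ) - c) ^ 2 := by
      nlinarith
    have h8 : |f.al| * (9 / 8000 * (L : ℚ) ^ 2) < |f.al| * (((z : ℚ) - c) ^ 2 - ((x₀ : ℚ) - c) ^ 2) :=
      mul_lt_mul_of_pos_left h7 hal
    have h9 : (|f.al| * (L : ℚ)) * (9 / 8000 * L) ≤ L := by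
      have : (|f.al| * (L : ℚ)) * (9 / 8000 * L) = |f.al| * (9 / 8000 * (L : ℚ) ^ 2) := by ring
      linarith
    have h10 : (1000 : ℚ) * (9 / 8000 * L) < (|f.al| * (L : ℚ)) * (9 / 8000 * L) :=
      mul_lt_mul_of_pos_right hr (by positivity)
    linarith
  have h1 := abs_lt.mp (key x hx hxa)
  have h2 := abs_lt.mp (key y hy hya)
  rw [abs_lt]
  constructor <;> linarith [h1.1, h1.2, h2.1, h2.2]

theorem real_k (S : Finset ℤ) (a b : ℤ) (ha : a ∈ S) (hb : b ∈ S) (hab : a ≠ b)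
    (f : QM S a) (g : QM S b) (L : ℤ) (hL : ∀ x ∈ S, ∀ y ∈ S, x - y ≤ L)
    (hL' : ∃ x ∈ S, ∃ y ∈ S, x - y = L) (k : ℕ) (hN : 2 ^ k + k < S.card) :
    (|f.al| * L / 1000) ^ k ≤ (L : ℚ) ∨ (|g.al| * L / 1000) ^ k ≤ (L : ℚ) := by
  have hL0 : 0 < L := by
    have h1 := hL a ha b hb
    have h2 := hL b hb a ha
    omega
  have hLq : (1 : ℚ) ≤ L := by exact_mod_cast hL0
  have hsmall : ∀ r : ℚ, 0 ≤ r → r ≤ 1000 → (r / 1000) ^ k ≤ (L : ℚ) := by
    intro r hr0 hr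
    have : (r / 1000) ^ k ≤ 1 := pow_le_one₀ (by positivity) (by linarith)
    linarith
  by_cases hkpos : k = 0
  · left
    rw [hkpos, pow_zero]
    exact hLq
  by_cases hrf : |f.al| * (L : ℚ) ≤ 1000
  · exact Or.inl (hsmall _ (by positivity) hrf)
  by_cases hrg : |g.al| * (L : ℚ) ≤ 1000
  · exact Or.inr (hsmall _ (by positivity) hrg)
  push Not at hrf hrg
  by_cases hf : ∀ x ∈ S, x ≠ a → (L : ℚ) / 100 ≤ |(x : ℚ) - (-f.be / (2 * f.al))|
  · exact Or.inl (real_far f L hL0.le hL hf k hN)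
  by_cases hg : ∀ x ∈ S, x ≠ b → (L : ℚ) / 100 ≤ |(x : ℚ) - (-g.be / (2 * g.al))|
  · exact Or.inr (real_far g L hL0.le hL hg k hN)
  exfalso
  push Not at hf hg
  obtain ⟨x₀, hx₀, hx₀a, hnf⟩ := hf
  obtain ⟨y₀, hy₀, hy₀b, hng⟩ := hg
  -- a third point
  have hk : 0 < k := Nat.pos_of_ne_zero hkpos
  have h3 : 2 < S.card := by
    have : 2 ≤ 2 ^ k := by
      calc 2 = 2 ^ 1 := rfl
        _ ≤ 2 ^ k := Nat.pow_le_pow_right (by norm_num) hk
    omega
  have : ∃ z ∈ S, z ≠ a ∧ z ≠ b := by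
    by_contra hcon
    push Not at hcon
    have hsub : S ⊆ {a, b} := by
      intro z hz
      rw [Finset.mem_insert, Finset.mem_singleton]
      by_cases hza : z = a
      · exact Or.inl hza
      · exact Or.inr (hcon z hz hza)
    have := Finset.card_le_card hsub
    have := Finset.card_le_two (a := a) (b := b)
    omega
  obtain ⟨z, hz, hza, hzb⟩ := this
  -- all of S \ {a} is within .07 L of z, and a is within .07 L of z
  have haz := near_diam g L hL0 hL hrg hy₀ hy₀b hng ha hz hab hzb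
  have hclose : ∀ x ∈ S, |(x : ℚ) - z| < 7 / 100 * L := by
    intro x hx
    by_cases hxa : x = a
    · rw [hxa]; exact haz
    · exact near_diam f L hL0 hL hrf hx₀ hx₀a hnf hx hz hxa hza
  obtain ⟨x, hx, y, hy, hxy⟩ := hL'
  have h1 := abs_lt.mp (hclose x hx)
  have h2 := abs_lt.mp (hclose y hy)
  have h4 : (x : ℚ) - y = L := by exact_mod_cast hxy
  have : (x : ℚ) - y < 14 / 100 * L := by linarith [h1.2, h2.1]
  linarith

theorem real_half (S : Finset ℤ) (a : ℤ) (f : QM S a) (L : ℤ)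
    (hL : ∀ x ∈ S, ∀ y ∈ S, x - y ≤ L) (T : Finset ℤ) (hT : T ⊆ S) (haT : a ∉ T) :
    ∃ T' ⊆ T, T.card ≤ 2 * T'.card ∧
      ∀ x ∈ T', ∀ y ∈ T', ((x : ℚ) - y) ^ 2 * |f.al| ≤ L := by
  set c : ℚ := -f.be / (2 * f.al) with hcd
  have hmain : ∀ x ∈ T, ∀ y ∈ T, (c ≤ (x : ℚ) ∧ c ≤ (y : ℚ)) ∨ ((x : ℚ) < c ∧ (y : ℚ) < c) →
      ((x : ℚ) - y) ^ 2 * |f.al| ≤ L := by
    intro x hx y hy hs
    have hxa : x ≠ a := fun h => haT (h ▸ hx)
    have hya : y ≠ a := fun h => haT (h ▸ hy)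
    have h1 := f.diff (hT hx) (hT hy) hxa hya
    have h2 := abs_sub_le_L hL (f.maps x (hT hx) hxa) (f.maps y (hT hy) hya)
    rw [h1, abs_mul, abs_mul] at h2
    have h3 : |(x : ℚ) - y| ≤ |((x : ℚ) - c) + ((y : ℚ) - c)| := by
      rcases hs with ⟨h, h'⟩ | ⟨h, h'⟩
      · rw [abs_of_nonneg (show (0 : ℚ) ≤ ((x : ℚ) - c) + ((y : ℚ) - c) by linarith), abs_le]
        constructor <;> linarith
      · rw [abs_of_neg (show ((x : ℚ) - c) + ((y : ℚ) - c) < 0 by linarith), abs_le]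
        constructor <;> linarith
    calc ((x : ℚ) - y) ^ 2 * |f.al| = |f.al| * |(x : ℚ) - y| * |(x : ℚ) - y| := by
          rw [← sq_abs ((x : ℚ) - y)]; ring
      _ ≤ |f.al| * |(x : ℚ) - y| * |((x : ℚ) - c) + ((y : ℚ) - c)| :=
          mul_le_mul_of_nonneg_left h3 (by positivity)
      _ ≤ L := h2
  have hsum := Finset.card_filter_add_card_filter_not (s := T) (fun x : ℤ => c ≤ (x : ℚ))
  by_cases h : T.card ≤ 2 * (T.filter (fun x : ℤ => c ≤ (x : ℚ))).card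
  · refine ⟨_, Finset.filter_subset _ _, h, ?_⟩
    intro x hx y hy
    exact hmain x (Finset.mem_filter.mp hx).1 y (Finset.mem_filter.mp hy).1
      (Or.inl ⟨(Finset.mem_filter.mp hx).2, (Finset.mem_filter.mp hy).2⟩)
  · refine ⟨T.filter (fun x : ℤ => ¬ c ≤ (x : ℚ)), Finset.filter_subset _ _, ?_, ?_⟩
    · omega
    · intro x hx y hy
      exact hmain x (Finset.mem_filter.mp hx).1 y (Finset.mem_filter.mp hy).1
        (Or.inr ⟨not_le.mp (Finset.mem_filter.mp hx).2, not_le.mp (Finset.mem_filter.mp hy).2⟩)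

end F0744

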