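import Pool.Agent.Lib.MP_f0744f_nt.End
import Pool.Agent.Lib.MP_f0744f_nt.LocOf
import Pool.Agent.Lib.MP_f0744f_nt.DetS
import Pool.Agent.Lib.MP_f0744f_nt.RealS

open Finset

namespace F0744

variable {S : Finset ℤ} {a b : ℤ}

theorem Yd_sub (S0 : Finset ℤ) (ph : ℤ → ℤ) (j : ℕ) : Yd S0 ph j ⊆ S0 := by
  cases j with
  | zero => exact Subset.refl _
  | succ j => exact filter_subset _ _

theorem Yd_card (S0 : Finset ℤ) (ph : ℤ → ℤ) (hS : S0 ⊆ S) (h2 : S.card ≤ S0.card + 2)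
    (hm : ∀ x ∈ S0, ph x ∈ S) (hi : ∀ x ∈ S0, ∀ y ∈ S0, ph x = ph y → x = y) (j : ℕ) :
    S0.card ≤ (Yd S0 ph j).card + 2 * j := by
  induction j with
  | zero => simp [Yd]
  | succ j ih =>
    have h1 : S0.card = (Yd S0 ph (j + 1)).card + (S0.filter (fun x => ¬ ph x ∈ Yd S0 ph j)).card := by
      rw [Yd]; exact (card_filter_add_card_filter_not _).symm
    have h3 : (S0.filter (fun x => ¬ ph x ∈ Yd S0 ph j)).card ≤ (S \ Yd S0 ph j).card := by
      apply card_le_card_of_injOn ph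
      · intro x hx
        have hx' := mem_filter.mp hx
        exact mem_coe.mpr (mem_sdiff.mpr ⟨hm x hx'.1, hx'.2⟩)
      · intro x hx y hy hxy
        exact hi x (mem_filter.mp hx).1 y (mem_filter.mp hy).1 hxy
    have h4 : (S \ Yd S0 ph j).card + (Yd S0 ph j).card = S.card :=
      card_sdiff_add_card_eq_card ((Yd_sub S0 ph j).trans hS)
    omega

theorem Wt_eps (t : ℕ) (ht : 500000 ≤ t) :
    (1 - 1 / 10000 : ℝ) * ((t : ℝ) ^ 2 - t) ≤ 2 * (Wt 15 t : ℝ) := by
  have h := Wt_ge 15 t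
  have h1 : (500000 : ℝ) ≤ t := by exact_mod_cast ht
  have h2 : (2 : ℝ) ^ 15 = 32768 := by norm_num
  rw [h2] at h
  push_cast at h
  nlinarith

/-- real place consequences -/
theorem rc (f : QM S a) (g : QM S b) (L : ℤ) (hL1 : 1 ≤ L) (hL : ∀ x ∈ S, ∀ y ∈ S, x - y ≤ L)
    (hk : (|f.al| * L / 1000) ^ 20000 ≤ (L : ℚ)) (Y : Finset ℤ) (hY : Y ⊆ S) (hbY : b ∉ Y)
    (hY4 : 4 ≤ Y.card) (hl : 140000 ≤ Real.log L)
    (hD : ∀ T ⊆ Y, Y.card ≤ 2 * T.card →
      (1 - 1 / 10000 : ℝ) * ((T.card : ℝ) ^ 2 - T.card) * Real.log f.al.den ≤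
        ∑ q ∈ T.offDiag, Real.log ((q.1 - q.2).natAbs : ℝ)) :
    Real.log |(f.al : ℝ)| ≤ -(1 - 1 / 2000) * Real.log L ∧
    (1 - 1 / 2000) * Real.log L ≤ Real.log f.al.den ∧
    Real.log |(g.al : ℝ)| ≤ -(1 - 1 / 2000) * Real.log L ∧
    (1 - 1 / 2000) * Real.log L ≤ Real.log g.al.den := by
  have hL0 : (0 : ℝ) < L := by
    have : (0 : ℤ) < L := by linarith
    exact_mod_cast this
  have pf : (0 : ℝ) < |(f.al : ℝ)| := abs_pos.mpr (by exact_mod_cast f.hal)
  have pg : (0 : ℝ) < |(g.al : ℝ)| := abs_pos.mpr (by exact_mod_cast g.hal)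
  set lf := Real.log |(f.al : ℝ)| with hlf
  set lg := Real.log |(g.al : ℝ)| with hlg
  set l := Real.log L with hl'
  have log1000 : Real.log 1000 ≤ 7 := by
    have h1 : (1000 : ℝ) ≤ Real.exp 7 := by
      have h2 : (2.7182818283 : ℝ) < Real.exp 1 := Real.exp_one_gt_d9
      have h3 : Real.exp 7 = Real.exp 1 ^ 7 := by rw [← Real.exp_nat_mul]; norm_num
      rw [h3]
      calc (1000 : ℝ) ≤ 2.7182818283 ^ 7 := by norm_num
        _ ≤ _ := pow_le_pow_left₀ (by norm_num) h2.le 7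
    calc Real.log 1000 ≤ Real.log (Real.exp 7) := Real.log_le_log (by norm_num) h1
      _ = 7 := Real.log_exp 7
  -- (i)
  have h1 : 20000 * (lf + l - Real.log 1000) ≤ l := by
    have h2 : ((|(f.al : ℝ)| * L / 1000) ^ 20000 : ℝ) ≤ L := by exact_mod_cast hk
    have h3 := Real.log_le_log (by positivity) h2
    rw [Real.log_pow, Real.log_div (by positivity) (by norm_num), Real.log_mul pf.ne' hL0.ne'] at h3
    push_cast at h3
    exact h3
  have den_bound : ∀ q : ℚ, q ≠ 0 → 0 ≤ Real.log |(q : ℝ)| + Real.log q.den := by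
    intro q hq
    have hd : (0 : ℝ) < q.den := by exact_mod_cast q.den_pos
    have hq0 : (0 : ℝ) < |(q : ℝ)| := abs_pos.mpr (by exact_mod_cast hq)
    rw [← Real.log_mul hq0.ne' hd.ne']
    apply Real.log_nonneg
    have h5 : |q| * (q.den : ℚ) = ((|q.num| : ℤ) : ℚ) := by
      have h6 : q * (q.den : ℚ) = (q.num : ℚ) := Rat.mul_den_eq_num q
      have h7 : |q| * |(q.den : ℚ)| = |(q.num : ℚ)| := by rw [← abs_mul, h6]
      rw [abs_of_nonneg (by positivity : (0 : ℚ) ≤ (q.den : ℚ))] at h7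
      rw [h7]; push_cast; rfl
    have h8 : (1 : ℤ) ≤ |q.num| := Int.one_le_abs (Rat.num_ne_zero.mpr hq)
    have h9 : (1 : ℚ) ≤ |q| * (q.den : ℚ) := by rw [h5]; exact_mod_cast h8
    exact_mod_cast h9
  have h2 := den_bound f.al f.hal
  have h3 := den_bound g.al g.hal
  rw [← hlf] at h2
  rw [← hlg] at h3
  -- (iii)
  have h4 : 2 * (1 - 1 / 10000) * Real.log f.al.den ≤ l - lg := by
    obtain ⟨T, hTY, hTc, hTp⟩ := real_half S b g L hL Y hY hbY
    have h5 := hD T hTY hTc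
    have h6 : 2 ≤ T.card := by omega
    have hQ : 0 < (T.card : ℝ) ^ 2 - T.card := by
      have h2 : (2 : ℝ) ≤ T.card := by exact_mod_cast h6
      nlinarith
    have h7 : ∑ q ∈ T.offDiag, Real.log ((q.1 - q.2).natAbs : ℝ) ≤
        ((T.card : ℝ) ^ 2 - T.card) * ((l - lg) / 2) := by
      rw [← card_cast, ← nsmul_eq_mul, ← sum_const]
      apply sum_le_sum
      intro q hq
      rw [mem_offDiag] at hq
      have h8 : (0 : ℝ) < ((q.1 - q.2).natAbs : ℝ) := by
        have : 0 < (q.1 - q.2).natAbs := Int.natAbs_pos.mpr (sub_ne_zero.mpr hq.2.2)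
        exact_mod_cast this
      have h9 := hTp _ hq.1 _ hq.2.1
      have h10 : ((q.1 - q.2).natAbs : ℝ) ^ 2 * |(g.al : ℝ)| ≤ L := by
        have e : (((q.1 - q.2).natAbs : ℕ) : ℝ) ^ 2 = (((((q.1 : ℚ) - q.2) ^ 2 : ℚ)) : ℝ) := by
          rw [Nat.cast_natAbs]
          push_cast
          rw [sq_abs]
        rw [e]
        exact_mod_cast h9
      have h11 := Real.log_le_log (by positivity) h10
      rw [Real.log_mul (by positivity) pg.ne', Real.log_pow] at h11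
      push_cast at h11
      linarith
    have h12 := h5.trans h7
    have h13 : ((T.card : ℝ) ^ 2 - T.card) * ((1 - 1 / 10000) * Real.log f.al.den) ≤
      ((T.card : ℝ) ^ 2 - T.card) * ((l - lg) / 2) := by
      calc _ = (1 - 1 / 10000 : ℝ) * ((T.card : ℝ) ^ 2 - T.card) * Real.log f.al.den := by ring
        _ ≤ _ := h12
    have := le_of_mul_le_mul_left h13 hQ
    linarith
  refine ⟨by linarith, by linarith, by linarith, by linarith⟩

end F0744
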