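import Pool.Agent.Lib.MP_f0744f_nt.Asm

open Finset

namespace F0744

variable {S : Finset ℤ} {a b : ℤ}

theorem log_abs_num (q : ℚ) (hq : q ≠ 0) :
    Real.log (q.num.natAbs : ℝ) = Real.log |(q : ℝ)| + Real.log q.den := by
  have hd : (0 : ℝ) < q.den := by exact_mod_cast q.den_pos
  have hq0 : (0 : ℝ) < |(q : ℝ)| := abs_pos.mpr (by exact_mod_cast hq)
  rw [← Real.log_mul hq0.ne' hd.ne']
  congr 1
  have h6 : q * (q.den : ℚ) = (q.num : ℚ) := Rat.mul_den_eq_num q
  have h7 : (q : ℝ) * (q.den : ℝ) = (q.num : ℝ) := by exact_mod_cast h6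
  rw [Nat.cast_natAbs]
  push_cast
  rw [← h7, abs_mul, abs_of_pos hd]

theorem core2 (ha : a ∈ S) (hb : b ∈ S) (hab : a ≠ b) (f : QM S a) (g : QM S b) (L : ℤ)
    (hL1 : 1 ≤ L) (hL : ∀ x ∈ S, ∀ y ∈ S, x - y ≤ L) (hl : 140000 ≤ Real.log L)
    (prim : ∀ p : ℕ, p.Prime → ∃ x ∈ S, ∃ y ∈ S, ¬ (p : ℤ) ∣ x - y)
    (Y : Finset ℤ) (hY : ∀ x ∈ Y, x ∈ S ∧ x ≠ a ∧ x ≠ b)
    (hYf : ∀ x ∈ Y, f.ph x ≠ a ∧ f.ph x ≠ b) (hYg : ∀ x ∈ Y, g.ph x ≠ a ∧ g.ph x ≠ b)
    (hC : S.card ≤ Y.card + 62) (hYn : 1000000 ≤ Y.card)
    (hDf : ∀ T ⊆ Y, 500000 ≤ T.card → ∀ p : ℕ,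
      (1 - 1 / 10000 : ℝ) * ((T.card : ℝ) ^ 2 - T.card) * (f.al.den.factorization p : ℝ) ≤ E p T)
    (hDg : ∀ T ⊆ Y, 500000 ≤ T.card → ∀ p : ℕ,
      (1 - 1 / 10000 : ℝ) * ((T.card : ℝ) ^ 2 - T.card) * (g.al.den.factorization p : ℝ) ≤ E p T)
    (h1 : Real.log |(f.al : ℝ)| ≤ -(1 - 1 / 2000) * Real.log L)
    (h2 : (1 - 1 / 2000) * Real.log L ≤ Real.log f.al.den)
    (h3 : Real.log |(g.al : ℝ)| ≤ -(1 - 1 / 2000) * Real.log L)
    (h4 : (1 - 1 / 2000) * Real.log L ≤ Real.log g.al.den) :
    f.al = g.al ∧ f.be = g.be ∧ f.ga = g.ga := by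
  classical
  set l := Real.log L with hl'
  set A := f.al.den.primeFactors ∪ g.al.den.primeFactors with hA
  have hAp : ∀ p ∈ A, p.Prime := by
    intro p hp
    rcases mem_union.mp hp with h | h
    · exact Nat.prime_of_mem_primeFactors h
    · exact Nat.prime_of_mem_primeFactors h
  set m : ℕ → ℕ := fun p => max (f.al.den.factorization p) (g.al.den.factorization p) with hm
  set N := Y.card * Y.card - Y.card with hNdef
  set G := A.filter (fun p => 100 * E p Y ≤ 101 * m p * N ∧
    99 * m p ≤ 100 * f.al.den.factorization p ∧ 99 * m p ≤ 100 * g.al.den.factorization p ∧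
    2 < p ^ m p) with hG
  have hGA : G ⊆ A := filter_subset _ _
  have hGp : ∀ p ∈ G, p.Prime := fun p hp => hAp p (hGA hp)
  have hQ : (0 : ℝ) < (Y.card : ℝ) ^ 2 - Y.card := by
    have h2 : (1000000 : ℝ) ≤ Y.card := by exact_mod_cast hYn
    nlinarith
  have hNQ : ((N : ℕ) : ℝ) = (Y.card : ℝ) ^ 2 - Y.card := by
    rw [hNdef, Nat.cast_sub (Nat.le_mul_self _)]; push_cast; ring
  -- energies with m
  have hE : ∀ T ⊆ Y, 500000 ≤ T.card → ∀ p : ℕ,
      (1 - 1 / 10000 : ℝ) * ((T.card : ℝ) ^ 2 - T.card) * (m p : ℝ) ≤ E p T := by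
    intro T hT hc p
    rcases max_choice (f.al.den.factorization p) (g.al.den.factorization p) with h | h
    · rw [hm]; simp only; rw [h]; exact hDf T hT hc p
    · rw [hm]; simp only; rw [h]; exact hDg T hT hc p
  have logden : ∀ q : ℚ, q.den.primeFactors ⊆ A →
      ∑ p ∈ A, (q.den.factorization p : ℝ) * Real.log p = Real.log q.den := by
    intro q hq
    rw [Real.log_nat_eq_sum_factorization]
    unfold Finsupp.sum
    rw [Nat.support_factorization]
    symm
    apply sum_subset hq
    intro p _ hp
    have : q.den.factorization p = 0 := by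
      rw [← Finsupp.notMem_support_iff, Nat.support_factorization]; exact hp
    simp [this]
  have sf := logden f.al subset_union_left
  have sg := logden g.al subset_union_right
  have hEsum : ∑ p ∈ A, (E p Y : ℝ) * Real.log p ≤ ((Y.card : ℝ) ^ 2 - Y.card) * l :=
    (E_log A Y).trans (logsum_le Y (fun x hx y hy => hL x (hY x hx).1 y (hY y hy).1))
  have hl0 : 0 ≤ l := by linarith
  obtain ⟨gs1, gs2⟩ := good_sum A G hGA (fun p => (E p Y : ℝ)) (fun p => (m p : ℝ))
    (fun p => (f.al.den.factorization p : ℝ)) (fun p => (g.al.den.factorization p : ℝ))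
    ((Y.card : ℝ) ^ 2 - Y.card) l (1 / 10000) (1 / 2000) hQ (by norm_num) (by norm_num) hl0
    (by norm_num) (fun p _ => Nat.cast_nonneg _) hEsum
    (fun p _ => hE Y (Subset.refl _) (by omega) p)
    (fun p _ => by
      have : f.al.den.factorization p ≤ m p := le_max_left _ _
      exact_mod_cast this)
    (fun p _ => by
      have : g.al.den.factorization p ≤ m p := le_max_right _ _
      exact_mod_cast this)
    (by rw [sf]; exact h2) (by rw [sg]; exact h4)
    (by
      intro p hpA hpG
      have hpp := hAp p hpA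
      by_contra hcon
      push Not at hcon
      obtain ⟨k1, k2, k3, k4⟩ := hcon
      apply hpG
      rw [hG, mem_filter]
      refine ⟨hpA, ?_, ?_, ?_, ?_⟩
      · have : (100 : ℝ) * E p Y ≤ 101 * m p * N := by rw [hNQ]; linarith
        exact_mod_cast this
      · have : (99 : ℝ) * m p ≤ 100 * f.al.den.factorization p := by linarith
        exact_mod_cast this
      · have : (99 : ℝ) * m p ≤ 100 * g.al.den.factorization p := by linarith
        exact_mod_cast this
      · have hm1 : 1 ≤ m p := by
          rcases mem_union.mp hpA with h | h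
          · have h5 : 0 < f.al.den.factorization p :=
              (hpp.factorization_pos_of_dvd f.al.den_nz (Nat.dvd_of_mem_primeFactors h))
            exact le_trans h5 (le_max_left _ _)
          · have h5 : 0 < g.al.den.factorization p :=
              (hpp.factorization_pos_of_dvd g.al.den_nz (Nat.dvd_of_mem_primeFactors h))
            exact le_trans h5 (le_max_right _ _)
        by_cases hp2 : p = 2
        · have h6 := k4 hp2
          have h7 : 1 < m p := by exact_mod_cast h6
          rw [hp2] at h7 ⊢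
          calc 2 < 2 ^ 2 := by norm_num
            _ ≤ 2 ^ m 2 := Nat.pow_le_pow_right (by norm_num) h7
        · have h8 : 3 ≤ p := by
            have := hpp.two_le
            omega
          calc 2 < p := by omega
            _ = p ^ 1 := (pow_one p).symm
            _ ≤ p ^ m p := Nat.pow_le_pow_right (by omega) hm1)
  set Sm := ∑ p ∈ G, (m p : ℝ) * Real.log p with hSg
  have log2 : Real.log 2 ≤ 1 := by
    have := Real.log_two_lt_d9; linarith
  have hSl : 79 / 100 * l ≤ Sm := by linarith
  -- the local structure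
  have hloc : ∀ p ∈ G, ∃ x0 y0 : ℤ, Loc f g Y 4 p (m p) x0 y0 := by
    intro p hp
    have hpA := hGA hp
    obtain ⟨_, q1, q2, q3, q4⟩ := mem_filter.mp hp
    have hpp := hAp p hpA
    apply loc_of (C' := 62)
    refine ⟨hpp, ?_, q4, hab, ha, hb, hY, hYf, hYg, hC, by omega, prim p hpp, q1, q2,
      le_max_left _ _, q3, le_max_right _ _, ?_⟩
    · by_contra h
      have : m p = 0 := by omega
      rw [this] at q4
      norm_num at q4
    · rcases max_choice (f.al.den.factorization p) (g.al.den.factorization p) with h | h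
      · exact Or.inl h
      · exact Or.inr h
  -- upper bound for the denominators
  have hdf : Real.log f.al.den ≤ (1 + 1 / 5000) * l := by
    have h5 : Real.log f.al.den ≤ ∑ p ∈ A, (m p : ℝ) * Real.log p := by
      rw [← sf]
      apply sum_le_sum
      intro p _
      apply mul_le_mul_of_nonneg_right _ (log_nn p)
      have : f.al.den.factorization p ≤ m p := le_max_left _ _
      exact_mod_cast this
    nlinarith
  have hdg : Real.log g.al.den ≤ (1 + 1 / 5000) * l := by
    have h5 : Real.log g.al.den ≤ ∑ p ∈ A, (m p : ℝ) * Real.log p := by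
      rw [← sg]
      apply sum_le_sum
      intro p _
      apply mul_le_mul_of_nonneg_right _ (log_nn p)
      have : g.al.den.factorization p ≤ m p := le_max_right _ _
      exact_mod_cast this
    nlinarith
  -- step 5
  have hsq : f.al ^ 2 = g.al ^ 2 := by
    apply step5 f g G hGp m
      (fun p hp => by obtain ⟨x0, y0, h⟩ := hloc p hp; exact h.n1)
      ((1 + 1 / 1000) * l)
    · rw [log_abs_num f.al f.hal]; linarith
    · rw [log_abs_num g.al g.hal]; linarith
    · rw [← hSg]; linarith
  have hEY : ∀ T ⊆ Y, Y.card ≤ T.card + 4 → ∀ p ∈ G,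
      (1 - 1 / 10000 : ℝ) * ((T.card : ℝ) ^ 2 - T.card) * m p ≤ E p T := by
    intro T hT hc p _
    exact hE T hT (by omega) p
  have maps2 : ∀ x ∈ Y, f.ph x ∈ S ∧ g.ph x ∈ S := by
    intro x hx
    have := hY x hx
    exact ⟨f.maps x this.1 this.2.1, g.maps x this.1 this.2.2⟩
  have hYS : ∀ x ∈ Y, x ∈ S := fun x hx => (hY x hx).1
  rcases sq_eq_sq_iff_eq_or_eq_neg.mp hsq with hal | hal
  · -- al' = al
    have hbe : f.be - g.be = 0 := by
      apply lin Y G hGp m (fun x => f.ph x - g.ph x) (f.be - g.be) L (1 / 10000) (by omega) hL1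
      · intro x hx y hy
        have mx := hY x hx
        have my := hY y hy
        push_cast
        rw [f.val x mx.1 mx.2.1, g.val x mx.1 mx.2.2, f.val y my.1 my.2.1, g.val y my.1 my.2.2, hal]
        ring
      · intro x hx y hy
        have i1 := hL _ (maps2 x hx).1 _ (maps2 x hx).2
        have i2 := hL _ (maps2 x hx).2 _ (maps2 x hx).1
        have i3 := hL _ (maps2 y hy).1 _ (maps2 y hy).2
        have i4 := hL _ (maps2 y hy).2 _ (maps2 y hy).1
        rw [abs_le]
        constructor <;> linarith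
      · intro p hp
        exact hEY Y (Subset.refl _) (by omega) p hp
      · intro p hp
        obtain ⟨x0, y0, h⟩ := hloc p hp
        obtain ⟨x, hx, hx1, hx2⟩ := h.six_pos hal.symm (Subset.refl _) (by omega) true
        obtain ⟨y, hy, hy1, hy2⟩ := h.six_pos hal.symm (Subset.refl _) (by omega) false
        refine ⟨x, hx, y, hy, ?_, dvd_sub hx2 hy2⟩
        intro h9
        have hx1' : (p : ℤ) ∣ x - x0 := by simpa using hx1
        have hy1' : ¬ (p : ℤ) ∣ y - x0 := by simpa using hy1
        apply hy1'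
        have := dvd_sub hx1' h9
        simpa using this
      · rw [← hSg]; linarith
    have hbe' : g.be = f.be := by linarith
    have hga := step7 f g ha hb hab hal.symm hbe' Y 4 (by
      have : Y.card ≤ S.card := card_le_card hYS
      omega) G m hloc L hL (by rw [← hSg]; linarith)
    exact ⟨hal, hbe'.symm, hga⟩
  · exfalso
    have hal' : g.al = - f.al := by rw [hal]; ring
    have hbe : f.be + g.be = 0 := by
      apply lin Y G hGp m (fun x => f.ph x + g.ph x) (f.be + g.be) L (1 / 10000) (by omega) hL1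
      · intro x hx y hy
        have mx := hY x hx
        have my := hY y hy
        push_cast
        rw [f.val x mx.1 mx.2.1, g.val x mx.1 mx.2.2, f.val y my.1 my.2.1, g.val y my.1 my.2.2, hal']
        ring
      · intro x hx y hy
        have i1 := hL _ (maps2 x hx).1 _ (maps2 y hy).1
        have i2 := hL _ (maps2 y hy).1 _ (maps2 x hx).1
        have i3 := hL _ (maps2 x hx).2 _ (maps2 y hy).2
        have i4 := hL _ (maps2 y hy).2 _ (maps2 x hx).2
        rw [abs_le]
        constructor <;> linarith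
      · intro p hp
        exact hEY Y (Subset.refl _) (by omega) p hp
      · intro p hp
        obtain ⟨x0, y0, h⟩ := hloc p hp
        obtain ⟨x, hx, hx1, hx2⟩ := h.six_neg hal' (Subset.refl _) (by omega) true
        obtain ⟨y, hy, hy1, hy2⟩ := h.six_neg hal' (Subset.refl _) (by omega) false
        refine ⟨x, hx, y, hy, ?_, ?_⟩
        · intro h9
          have hx1' : (p : ℤ) ∣ x - x0 := by simpa using hx1
          have hy1' : ¬ (p : ℤ) ∣ y - x0 := by simpa using hy1
          apply hy1'
          have := dvd_sub hx1' h9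
          simpa using this
        · have := dvd_sub hx2 hy2
          have e : f.ph x + g.ph x - (x0 + y0) - (f.ph y + g.ph y - (x0 + y0)) =
            f.ph x + g.ph x - (f.ph y + g.ph y) := by ring
          rwa [e] at this
      · rw [← hSg]; linarith
    have hbe' : g.be = -f.be := by linarith
    exact step8 f g ha hb hab hal' hbe' Y 4 (le_refl _) hY (by omega) G m hloc L hL1 hL
      (1 / 10000) hEY (by rw [← hSg]; linarith)

end F0744
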