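import Pool.Agent.Lib.MP_f0744f_nt.Defs

open Polynomial

namespace F0744

/-- `f` compresses `S`: for some `x₀ ∈ S` the points `x₀, f(x₀), …, f^{N-1}(x₀)`, `N = |S|`, are
exactly the elements of `S`. -/
def Compresses (f : ℝ[X]) (S : Finset ℚ) : Prop :=
  ∃ x₀ ∈ S, (Finset.range S.card).image (fun i => (fun y : ℝ => f.eval y)^[i] (x₀ : ℝ)) =
    S.image (fun q : ℚ => (q : ℝ))

/-- the integral core -/
def MainInt : Prop :=
  ∃ N0 : ℕ, ∀ (S : Finset ℤ) (a b : ℤ), a ∈ S → b ∈ S → a ≠ b → N0 ≤ S.card →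
    (∀ p : ℕ, p.Prime → ∃ x ∈ S, ∃ y ∈ S, ¬ (p : ℤ) ∣ x - y) →
    ∀ (f : QM S a) (g : QM S b), f.al = g.al ∧ f.be = g.be ∧ f.ga = g.ga

/-- value of a quadratic -/
lemma eval_quad {f : ℝ[X]} (hf : f.natDegree = 2) (t : ℝ) :
    f.eval t = f.coeff 2 * t ^ 2 + f.coeff 1 * t + f.coeff 0 := by
  rw [eval_eq_sum_range' (n := 3) (by omega)]
  simp [Finset.sum_range_succ]
  ring

/-- rational coefficients -/
lemma rat_coef {f : ℝ[X]} (hf : f.natDegree = 2) {p₁ p₂ p₃ r₁ r₂ r₃ : ℚ} (h12 : p₁ ≠ p₂)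
    (h13 : p₁ ≠ p₃) (h23 : p₂ ≠ p₃) (e1 : f.eval (p₁ : ℝ) = r₁) (e2 : f.eval (p₂ : ℝ) = r₂)
    (e3 : f.eval (p₃ : ℝ) = r₃) :
    ∃ al be ga : ℚ, f.coeff 2 = al ∧ f.coeff 1 = be ∧ f.coeff 0 = ga := by
  rw [eval_quad hf] at e1 e2 e3
  have g12 : (p₁ : ℝ) - p₂ ≠ 0 := sub_ne_zero.2 (by exact_mod_cast h12)
  have g13 : (p₁ : ℝ) - p₃ ≠ 0 := sub_ne_zero.2 (by exact_mod_cast h13)
  have g23 : (p₂ : ℝ) - p₃ ≠ 0 := sub_ne_zero.2 (by exact_mod_cast h23)
  have hA : f.coeff 2 = (((r₁ - r₂) / (p₁ - p₂) - (r₁ - r₃) / (p₁ - p₃)) / (p₂ - p₃) : ℚ) := by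
    push_cast
    rw [eq_div_iff g23, eq_sub_iff_add_eq, eq_div_iff g12, add_mul, div_mul_eq_mul_div]
    rw [← e1, ← e2, ← e3]
    field_simp
    ring
  have hB : f.coeff 1 = (((r₁ - r₂) / (p₁ - p₂) -
      (((r₁ - r₂) / (p₁ - p₂) - (r₁ - r₃) / (p₁ - p₃)) / (p₂ - p₃)) * (p₁ + p₂)) : ℚ) := by
    have hA' := hA
    push_cast at hA' ⊢
    rw [← hA', eq_sub_iff_add_eq, eq_div_iff g12, ← e1, ← e2]
    ring
  refine ⟨_, _, r₁ - (((r₁ - r₂) / (p₁ - p₂) - (r₁ - r₃) / (p₁ - p₃)) / (p₂ - p₃)) * p₁ ^ 2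
    - ((r₁ - r₂) / (p₁ - p₂) -
      (((r₁ - r₂) / (p₁ - p₂) - (r₁ - r₃) / (p₁ - p₃)) / (p₂ - p₃)) * (p₁ + p₂)) * p₁, hA, hB, ?_⟩
  push_cast at hA hB ⊢
  rw [← hB, ← hA, ← e1]
  ring

lemma quad_ext {f g : ℝ[X]} (hf : f.natDegree = 2) (hg : g.natDegree = 2)
    (h2 : f.coeff 2 = g.coeff 2) (h1 : f.coeff 1 = g.coeff 1) (h0 : f.coeff 0 = g.coeff 0) :
    f = g := by
  refine Polynomial.funext fun t => ?_
  rw [eval_quad hf, eval_quad hg, h2, h1, h0]

/-- integer coordinates on a finite set of rationals -/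
lemma coords (S : Finset ℚ) (hS : 2 ≤ S.card) : ∃ (c : ℚ → ℤ) (s₀ mu : ℚ), mu ≠ 0 ∧
    (∀ s ∈ S, (c s : ℚ) = (s - s₀) * mu) ∧
    (∀ p : ℕ, p.Prime → ∃ x ∈ S.image c, ∃ y ∈ S.image c, ¬ (p : ℤ) ∣ x - y) := by
  obtain ⟨s₀, hs₀, s₁, hs₁, hne⟩ := Finset.one_lt_card.1 (show 1 < S.card by omega)
  set D : ℕ := ∏ s ∈ S, s.den with hD
  have hD0 : (D : ℚ) ≠ 0 := by
    rw [hD]; exact_mod_cast Finset.prod_ne_zero_iff.2 fun (s : ℚ) _ => s.den_nz
  have hint : ∀ s ∈ S, ∃ z : ℤ, (z : ℚ) = s * D := by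
    intro s hs
    obtain ⟨k, hk⟩ : s.den ∣ D := Finset.dvd_prod_of_mem _ hs
    refine ⟨s.num * k, ?_⟩
    rw [hk]
    push_cast
    rw [← mul_assoc, Rat.mul_den_eq_num]
  choose! z hz using hint
  set G : ℤ := S.gcd (fun s => z s - z s₀) with hG
  have hGdvd : ∀ s ∈ S, G ∣ z s - z s₀ := fun s hs => Finset.gcd_dvd hs
  have hG0 : G ≠ 0 := by
    intro h
    have := (Finset.gcd_eq_zero_iff.1 h) s₁ hs₁
    have h1 : (z s₁ : ℚ) = z s₀ := by exact_mod_cast sub_eq_zero.1 this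
    rw [hz s₁ hs₁, hz s₀ hs₀] at h1
    exact hne (mul_right_cancel₀ hD0 h1).symm
  refine ⟨fun s => (z s - z s₀) / G, s₀, D / G, div_ne_zero hD0 (by exact_mod_cast hG0), ?_, ?_⟩
  · intro s hs
    have h1 : ((((z s - z s₀) / G : ℤ)) : ℚ) = ((z s - z s₀ : ℤ) : ℚ) / G :=
      Int.cast_div (hGdvd s hs) (by exact_mod_cast hG0)
    simp only []
    rw [h1]
    push_cast
    rw [hz s hs, hz s₀ hs₀]
    ring
  · intro p hp
    by_contra hcon
    push Not at hcon
    have hall : ∀ s ∈ S, (p : ℤ) ∣ (z s - z s₀) / G := by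
      intro s hs
      have := hcon _ (Finset.mem_image_of_mem _ hs) _ (Finset.mem_image_of_mem _ hs₀)
      simpa using this
    have h1 : (p : ℤ) * G ∣ G := by
      conv_rhs => rw [hG]
      refine Finset.dvd_gcd fun s hs => ?_
      obtain ⟨k, hk⟩ := hall s hs
      refine ⟨k, ?_⟩
      have := Int.ediv_mul_cancel (hGdvd s hs)
      rw [hk] at this
      rw [← this]; ring
    obtain ⟨k, hk⟩ := h1
    have h2 : (1 : ℤ) = p * k := by
      apply mul_left_cancel₀ hG0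
      linear_combination hk
    have h3 : (p : ℤ) ∣ 1 := ⟨k, h2⟩
    have h4 : (p : ℕ) ∣ 1 := by exact_mod_cast h3
    exact hp.one_lt.ne' (Nat.dvd_one.1 h4)

/-- transport of one quadratic map to integer coordinates -/
noncomputable def mkQM (S : Finset ℚ) (c : ℚ → ℤ) (s₀ mu : ℚ) (hmu : mu ≠ 0)
    (hc : ∀ s ∈ S, (c s : ℚ) = (s - s₀) * mu) (a : ℚ) (al be ga : ℚ) (hal : al ≠ 0)
    (hmaps : ∀ s ∈ S, s ≠ a → al * s ^ 2 + be * s + ga ∈ S)
    (hinj : ∀ s ∈ S, ∀ t ∈ S, s ≠ a → t ≠ a →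
      al * s ^ 2 + be * s + ga = al * t ^ 2 + be * t + ga → s = t) :
    QM (S.image c) (c a) where
  al := al / mu
  be := 2 * al * s₀ + be
  ga := mu * (al * s₀ ^ 2 + be * s₀ + ga - s₀)
  hal := div_ne_zero hal hmu
  ph := fun t => c (al * ((t : ℚ) / mu + s₀) ^ 2 + be * ((t : ℚ) / mu + s₀) + ga)
  maps := by
    intro t ht hta
    obtain ⟨s, hs, rfl⟩ := Finset.mem_image.1 ht
    have h1 : (c s : ℚ) / mu + s₀ = s := by rw [hc s hs]; field_simp; ring
    rw [h1]
    exact Finset.mem_image_of_mem _ (hmaps s hs fun h => hta (by rw [h]))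
  val := by
    intro t ht hta
    obtain ⟨s, hs, rfl⟩ := Finset.mem_image.1 ht
    have h1 : (c s : ℚ) / mu + s₀ = s := by rw [hc s hs]; field_simp; ring
    rw [h1, hc _ (hmaps s hs fun h => hta (by rw [h])), hc s hs]
    field_simp
    ring
  inj := by
    intro t ht t' ht' hta hta' he
    obtain ⟨s, hs, rfl⟩ := Finset.mem_image.1 ht
    obtain ⟨s', hs', rfl⟩ := Finset.mem_image.1 ht'
    have h1 : (c s : ℚ) / mu + s₀ = s := by rw [hc s hs]; field_simp; ring
    have h2 : (c s' : ℚ) / mu + s₀ = s' := by rw [hc s' hs']; field_simp; ring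
    rw [h1, h2] at he
    have hsa : s ≠ a := fun h => hta (by rw [h])
    have hsa' : s' ≠ a := fun h => hta' (by rw [h])
    have h3 : ((c (al * s ^ 2 + be * s + ga) : ℤ) : ℚ) = c (al * s' ^ 2 + be * s' + ga) := by
      exact_mod_cast he
    rw [hc _ (hmaps s hs hsa), hc _ (hmaps s' hs' hsa')] at h3
    have h4 := mul_right_cancel₀ hmu h3
    rw [hinj s hs s' hs' hsa hsa' (by linarith)]

/-- orbit data -/
structure Orb (f : ℝ[X]) (x : ℕ → ℚ) (n : ℕ) : Prop where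
  inj : Set.InjOn x (Set.Iio n)
  step : ∀ i, i + 1 < n → f.eval (x i : ℝ) = (x (i + 1) : ℝ)

lemma Orb.pred {f : ℝ[X]} {x : ℕ → ℚ} {n : ℕ} (h : Orb f x (n + 1)) : Orb f x n :=
  ⟨h.inj.mono (Set.Iio_subset_Iio (Nat.le_succ n)), fun i hi => h.step i (by omega)⟩

lemma orb_of_compresses {f : ℝ[X]} {S : Finset ℚ} (h : Compresses f S) :
    ∃ x : ℕ → ℚ, (Finset.range S.card).image x = S ∧ Orb f x S.card := by
  obtain ⟨x₀, hx₀, he⟩ := h
  have h1 : ∀ i < S.card, ∃ q ∈ S, (q : ℝ) = (fun y : ℝ => f.eval y)^[i] (x₀ : ℝ) := by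
    intro i hi
    have : (fun y : ℝ => f.eval y)^[i] (x₀ : ℝ) ∈ S.image (fun q : ℚ => (q : ℝ)) := by
      rw [← he]
      exact Finset.mem_image_of_mem (fun i => (fun y : ℝ => f.eval y)^[i] (x₀ : ℝ))
        (Finset.mem_range.2 hi)
    obtain ⟨q, hq, hq'⟩ := Finset.mem_image.1 this
    exact ⟨q, hq, hq'⟩
  choose! x hxS hx using h1
  have himg : (Finset.range S.card).image x = S := by
    have hinj : Function.Injective (fun q : ℚ => (q : ℝ)) := Rat.cast_injective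
    apply Finset.image_injective hinj
    rw [← he, Finset.image_image]
    refine Finset.image_congr fun i hi => ?_
    simp only [Function.comp]
    exact hx i (by simpa using hi)
  refine ⟨x, himg, ?_, ?_⟩
  · have hcard : ((Finset.range S.card).image x).card = (Finset.range S.card).card := by
      rw [himg, Finset.card_range]
    have := Finset.card_image_iff.1 hcard
    simpa using this
  · intro i hi
    rw [hx i (by omega), hx (i + 1) hi, Function.iterate_succ_apply']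

/-- the case of different last points -/
lemma main_ne {N0 : ℕ} (h : ∀ (S : Finset ℤ) (a b : ℤ), a ∈ S → b ∈ S → a ≠ b → N0 ≤ S.card →
    (∀ p : ℕ, p.Prime → ∃ x ∈ S, ∃ y ∈ S, ¬ (p : ℤ) ∣ x - y) →
    ∀ (f : QM S a) (g : QM S b), f.al = g.al ∧ f.be = g.be ∧ f.ga = g.ga)
    {f g : ℝ[X]} (hf : f.natDegree = 2) (hg : g.natDegree = 2) {x y : ℕ → ℚ} {m : ℕ}
    (hm : N0 ≤ m + 1) (hm3 : 3 ≤ m) (hx : Orb f x (m + 1)) (hy : Orb g y (m + 1))
    (himg : (Finset.range (m + 1)).image x = (Finset.range (m + 1)).image y)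
    (hne : x m ≠ y m) : f = g := by
  set S := (Finset.range (m + 1)).image x with hSdef
  have key : ∀ {f : ℝ[X]} (_ : f.natDegree = 2) {x : ℕ → ℚ} (_ : Orb f x (m + 1))
      (_ : S = (Finset.range (m + 1)).image x), ∃ al be ga : ℚ, f.coeff 2 = al ∧ f.coeff 1 = be ∧
      f.coeff 0 = ga ∧ al ≠ 0 ∧ (∀ s ∈ S, s ≠ x m → al * s ^ 2 + be * s + ga ∈ S) ∧
      (∀ s ∈ S, ∀ t ∈ S, s ≠ x m → t ≠ x m →
      al * s ^ 2 + be * s + ga = al * t ^ 2 + be * t + ga → s = t) := by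
    intro f hf x hx hS
    have hI : ∀ i j, i < m + 1 → j < m + 1 → i ≠ j → x i ≠ x j := fun i j hi hj hij he =>
      hij (hx.inj hi hj he)
    obtain ⟨al, be, ga, h2, h1, h0⟩ := rat_coef hf (hI 0 1 (by omega) (by omega) (by omega))
      (hI 0 2 (by omega) (by omega) (by omega)) (hI 1 2 (by omega) (by omega) (by omega))
      (hx.step 0 (by omega)) (hx.step 1 (by omega)) (hx.step 2 (by omega))
    have hstep : ∀ i, i < m → al * x i ^ 2 + be * x i + ga = x (i + 1) := by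
      intro i hi
      have := hx.step i (by omega)
      rw [eval_quad hf, h2, h1, h0] at this
      exact_mod_cast this
    have hmem : ∀ s ∈ S, s ≠ x m → ∃ i < m, s = x i := by
      intro s hs hsm
      rw [hS] at hs
      obtain ⟨i, hi, rfl⟩ := Finset.mem_image.1 hs
      refine ⟨i, ?_, rfl⟩
      have hi' := Finset.mem_range.1 hi
      rcases Nat.lt_succ_iff_lt_or_eq.1 hi' with h | h
      · exact h
      · exact absurd (by rw [h]) hsm
    refine ⟨al, be, ga, h2, h1, h0, ?_, ?_, ?_⟩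
    · intro h
      have : f.leadingCoeff ≠ 0 := by
        rw [leadingCoeff_ne_zero]; rintro rfl; simp at hf
      rw [leadingCoeff, hf, h2, h] at this
      simp at this
    · intro s hs hsm
      obtain ⟨i, hi, rfl⟩ := hmem s hs hsm
      rw [hstep i hi, hS]
      exact Finset.mem_image_of_mem _ (Finset.mem_range.2 (by omega))
    · intro s hs t ht hsm htm he
      obtain ⟨i, hi, rfl⟩ := hmem s hs hsm
      obtain ⟨j, hj, rfl⟩ := hmem t ht htm
      rw [hstep i hi, hstep j hj] at he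
      have := hx.inj (show i + 1 ∈ Set.Iio (m + 1) by simpa using hi)
        (show j + 1 ∈ Set.Iio (m + 1) by simpa using hj) he
      rw [Nat.succ_injective this]
  obtain ⟨al, be, ga, f2, f1, f0, hal, hmaps, hinj⟩ := key hf hx rfl
  obtain ⟨al', be', ga', g2, g1, g0, hal', hmaps', hinj'⟩ := key hg hy himg
  have hcard : S.card = m + 1 := by
    rw [hSdef, Finset.card_image_of_injOn (by simpa using hx.inj), Finset.card_range]
  obtain ⟨c, s₀, mu, hmu, hc, hprime⟩ := coords S (by omega)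
  have hcinj : ∀ s ∈ S, ∀ t ∈ S, c s = c t → s = t := by
    intro s hs t ht he
    have h1 : (c s : ℚ) = c t := by exact_mod_cast he
    rw [hc s hs, hc t ht] at h1
    have := mul_right_cancel₀ hmu h1
    linarith
  have hxm : x m ∈ S := by
    rw [hSdef]; exact Finset.mem_image_of_mem _ (Finset.mem_range.2 (by omega))
  have hym : y m ∈ S := by
    rw [himg]; exact Finset.mem_image_of_mem _ (Finset.mem_range.2 (by omega))
  have hres := h (S.image c) (c (x m)) (c (y m)) (Finset.mem_image_of_mem _ hxm)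
    (Finset.mem_image_of_mem _ hym) (fun he => hne (hcinj _ hxm _ hym he))
    (by
      rw [Finset.card_image_of_injOn (fun s hs t ht he => hcinj s hs t ht he), hcard]
      exact hm) hprime
    (mkQM S c s₀ mu hmu hc (x m) al be ga hal hmaps hinj)
    (mkQM S c s₀ mu hmu hc (y m) al' be' ga' hal' hmaps' hinj')
  simp only [mkQM] at hres
  obtain ⟨e2, e1, e0⟩ := hres
  have e2' : al = al' := by
    field_simp at e2; exact e2
  subst e2'
  have e1' : be = be' := by linarith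
  subst e1'
  have e0' : ga = ga' := by
    have := mul_left_cancel₀ hmu e0
    linarith
  subst e0'
  exact quad_ext hf hg (by rw [f2, g2]) (by rw [f1, g1]) (by rw [f0, g0])

lemma img_pred {x y : ℕ → ℚ} {m : ℕ} (hx : Set.InjOn x (Set.Iio (m + 1)))
    (hy : Set.InjOn y (Set.Iio (m + 1)))
    (himg : (Finset.range (m + 1)).image x = (Finset.range (m + 1)).image y) (he : x m = y m) :
    (Finset.range m).image x = (Finset.range m).image y := by
  have key : ∀ {x : ℕ → ℚ} (_ : Set.InjOn x (Set.Iio (m + 1))),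
      (Finset.range m).image x = ((Finset.range (m + 1)).image x).erase (x m) := by
    intro x hx
    rw [Finset.range_add_one, Finset.image_insert, Finset.erase_insert]
    intro hmem
    obtain ⟨i, hi, hie⟩ := Finset.mem_image.1 hmem
    have hi' := Finset.mem_range.1 hi
    have := hx (show i ∈ Set.Iio (m + 1) from lt_trans hi' (Nat.lt_succ_self m))
      (show m ∈ Set.Iio (m + 1) from Nat.lt_succ_self m) hie
    omega
  rw [key hx, key hy, himg, he]

theorem main_of_int (h : MainInt) :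
    ∃ M : ℕ, ∀ S : Finset ℚ, M ≤ S.card → ∀ f g : ℝ[X], f.natDegree = 2 → g.natDegree = 2 →
      Compresses f S → Compresses g S → f = g := by
  obtain ⟨N0, h⟩ := h
  refine ⟨N0 + 8, fun S hS f g hf hg hcf hcg => ?_⟩
  obtain ⟨x, hximg, hx⟩ := orb_of_compresses hcf
  obtain ⟨y, hyimg, hy⟩ := orb_of_compresses hcg
  obtain ⟨n, hn⟩ : ∃ n, S.card = n + 4 := ⟨S.card - 4, by omega⟩
  rw [hn] at hx hy hximg hyimg
  have i3 : (Finset.range (n + 3 + 1)).image x = (Finset.range (n + 3 + 1)).image y := by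
    rw [show n + 3 + 1 = n + 4 from rfl, hximg, hyimg]
  by_cases h3 : x (n + 3) = y (n + 3)
  swap
  · exact main_ne h hf hg (by omega) (by omega) hx hy i3 h3
  have i2 := img_pred hx.inj hy.inj i3 h3
  have hx2 : Orb f x (n + 2 + 1) := hx.pred
  have hy2 : Orb g y (n + 2 + 1) := hy.pred
  by_cases h2 : x (n + 2) = y (n + 2)
  swap
  · exact main_ne h hf hg (by omega) (by omega) hx2 hy2 i2 h2
  have i1 := img_pred hx2.inj hy2.inj i2 h2
  have hx1 : Orb f x (n + 1 + 1) := hx2.pred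
  have hy1 : Orb g y (n + 1 + 1) := hy2.pred
  by_cases h1 : x (n + 1) = y (n + 1)
  swap
  · exact main_ne h hf hg (by omega) (by omega) hx1 hy1 i1 h1
  have i0 := img_pred hx1.inj hy1.inj i1 h1
  have hx0 : Orb f x (n + 1) := hx1.pred
  have hy0 : Orb g y (n + 1) := hy1.pred
  by_cases h0 : x n = y n
  swap
  · exact main_ne h hf hg (by omega) (by omega) hx0 hy0 i0 h0
  -- three common values
  have v0 : f.eval (x n : ℝ) = g.eval (x n : ℝ) := by
    rw [hx.step n (by omega), h0, hy.step n (by omega), h1]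
  have v1 : f.eval (x (n + 1) : ℝ) = g.eval (x (n + 1) : ℝ) := by
    rw [hx.step (n + 1) (by omega), h1, hy.step (n + 1) (by omega), h2]
  have v2 : f.eval (x (n + 2) : ℝ) = g.eval (x (n + 2) : ℝ) := by
    rw [hx.step (n + 2) (by omega), h2, hy.step (n + 2) (by omega), h3]
  have hI : ∀ i j, i < n + 4 → j < n + 4 → i ≠ j → ((x i : ℚ) : ℝ) ≠ x j := by
    intro i j hi hj hij he
    exact hij (hx.inj hi hj (by exact_mod_cast he))
  have n01 := sub_ne_zero.2 (hI n (n + 1) (by omega) (by omega) (by omega))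
  have n02 := sub_ne_zero.2 (hI n (n + 2) (by omega) (by omega) (by omega))
  have n12 := sub_ne_zero.2 (hI (n + 1) (n + 2) (by omega) (by omega) (by omega))
  rw [eval_quad hf, eval_quad hg] at v0 v1 v2
  set X0 : ℝ := (x n : ℝ)
  set X1 : ℝ := (x (n + 1) : ℝ)
  set X2 : ℝ := (x (n + 2) : ℝ)
  set A := f.coeff 2 - g.coeff 2 with hA
  set B := f.coeff 1 - g.coeff 1 with hB
  set E := f.coeff 0 - g.coeff 0 with hE
  have w0 : A * X0 ^ 2 + B * X0 + E = 0 := by rw [hA, hB, hE]; linear_combination v0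
  have w1 : A * X1 ^ 2 + B * X1 + E = 0 := by rw [hA, hB, hE]; linear_combination v1
  have w2 : A * X2 ^ 2 + B * X2 + E = 0 := by rw [hA, hB, hE]; linear_combination v2
  have u1 : A * (X0 + X1) + B = 0 := by
    apply mul_left_cancel₀ n01
    linear_combination w0 - w1
  have u2 : A * (X0 + X2) + B = 0 := by
    apply mul_left_cancel₀ n02
    linear_combination w0 - w2
  have hA0 : A = 0 := by
    apply mul_left_cancel₀ n12
    linear_combination u1 - u2
  have hB0 : B = 0 := by rw [hA0] at u1; linarith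
  have hE0 : E = 0 := by rw [hA0, hB0] at w0; linarith
  exact quad_ext hf hg (sub_eq_zero.1 hA0) (sub_eq_zero.1 hB0) (sub_eq_zero.1 hE0)

end F0744
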