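import Mathlib

namespace F0744

/-- A quadratic polynomial `al x^2 + be x + ga` acting on a finite set `S` of integers,
minus the point `a`: it maps `S \ {a}` injectively into `S`. -/
structure QM (S : Finset ℤ) (a : ℤ) where
  al : ℚ
  be : ℚ
  ga : ℚ
  hal : al ≠ 0
  ph : ℤ → ℤ
  maps : ∀ x ∈ S, x ≠ a → ph x ∈ S
  val : ∀ x ∈ S, x ≠ a → ((ph x : ℤ) : ℚ) = al * (x : ℚ) ^ 2 + be * (x : ℚ) + ga
  inj : ∀ x ∈ S, ∀ y ∈ S, x ≠ a → y ≠ a → ph x = ph y → x = y

/-- the points of `S0` whose first `j` iterates under `ph` stay in `S0` -/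
def Yd (S0 : Finset ℤ) (ph : ℤ → ℤ) : ℕ → Finset ℤ
  | 0 => S0
  | j + 1 => S0.filter (fun x => ph x ∈ Yd S0 ph j)

/-- exponent of the leading coefficient of the `d`-th basis polynomial of depth `J` -/
def wt : ℕ → ℕ → ℕ
  | 0, _ => 0
  | J + 1, d => wt J (d / 2) + d / 2

/-- total exponent -/
def Wt (J n : ℕ) : ℕ := ∑ d ∈ Finset.range n, wt J d

end F0744
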