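import Pool.Agent.Lib.MP_f0744f_nt.Fin

open Finset

namespace F0744

variable {S : Finset ℤ} {a b : ℤ}

theorem Loc.two_m {f : QM S a} {g : QM S b} {Y : Finset ℤ} {C p m : ℕ} {x0 y0 : ℤ}
    (h : Loc f g Y C p m x0 y0) {u v : ℤ} (hu : u ∈ S ∧ u ≠ a) (hv : v ∈ S ∧ v ≠ a)
    (huv : (p : ℤ) ∣ u - v) (hf : (p : ℤ) ^ m ∣ f.ph u - f.ph v) : (p : ℤ) ^ (2 * m) ∣ u - v := by
  have hu1 := h.rep_ne' hu.1 (i := decide ((p : ℤ) ∣ u - x0)) rfl
  have hv1 : ¬ (p : ℤ) ∣ v - Loc.rep x0 y0 (!(decide ((p : ℤ) ∣ u - x0))) := by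
    intro h2
    apply hu1
    have := dvd_add huv h2
    simpa using this
  have hz := h.rep_mem (!(decide ((p : ℤ) ∣ u - x0)))
  have s := (sim f h.hp h.hm h.df hu hv ⟨hz.1, hz.2.1⟩ hu1 hv1 m).mpr hf
  have e : 2 * m = m + m := by ring
  rw [e]; exact s

theorem Loc.two_of_three {f : QM S a} {g : QM S b} {Y : Finset ℤ} {C p m : ℕ} {x0 y0 : ℤ}
    (h : Loc f g Y C p m x0 y0) {u v w : ℤ} (hu : u ∈ S) (hv : v ∈ S) (hw : w ∈ S) :
    (p : ℤ) ^ m ∣ u - v ∨ (p : ℤ) ^ m ∣ v - w ∨ (p : ℤ) ^ m ∣ u - w := by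
  have aux : ∀ {r s t : ℤ}, (p : ℤ) ^ m ∣ r - t → (p : ℤ) ^ m ∣ s - t → (p : ℤ) ^ m ∣ r - s := by
    intro r s t h1 h2
    have := dvd_sub h1 h2
    simpa using this
  rcases h.cls u hu with h1 | h1 <;> rcases h.cls v hv with h2 | h2 <;>
    rcases h.cls w hw with h3 | h3
  · exact Or.inl (aux h1 h2)
  · exact Or.inl (aux h1 h2)
  · exact Or.inr (Or.inr (aux h1 h3))
  · exact Or.inr (Or.inl (aux h2 h3))
  · exact Or.inr (Or.inl (aux h2 h3))
  · exact Or.inr (Or.inr (aux h1 h3))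
  · exact Or.inl (aux h1 h2)
  · exact Or.inl (aux h1 h2)

theorem step7 (f : QM S a) (g : QM S b) (ha : a ∈ S) (hb : b ∈ S) (hab : a ≠ b)
    (hal : g.al = f.al) (hbe : g.be = f.be) (Y : Finset ℤ) (C : ℕ) (hN : 11 ≤ S.card)
    (G : Finset ℕ) (m : ℕ → ℕ) (hloc : ∀ p ∈ G, ∃ x0 y0 : ℤ, Loc f g Y C p (m p) x0 y0)
    (L : ℤ) (hL : ∀ x ∈ S, ∀ y ∈ S, x - y ≤ L)
    (hbig : Real.log L + Real.log 2 < 2 * ∑ p ∈ G, (m p : ℝ) * Real.log p) : f.ga = g.ga := by
  classical
  set S0 := (S.erase b).erase a with hS0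
  have mS0 : ∀ x, x ∈ S0 ↔ x ≠ a ∧ x ≠ b ∧ x ∈ S := by
    intro x; rw [hS0, mem_erase, mem_erase]
  have cS0 : S0.card = S.card - 2 := by
    rw [hS0, card_erase_of_mem (mem_erase.mpr ⟨hab, ha⟩), card_erase_of_mem hb]; omega
  obtain ⟨s, hs⟩ : S0.Nonempty := card_pos.mp (by omega)
  set κ : ℤ := f.ph s - g.ph s with hκ
  have val : ∀ x ∈ S0, ((f.ph x - g.ph x : ℤ) : ℚ) = f.ga - g.ga := by
    intro x hx
    have h1 := (mS0 x).mp hx
    push_cast
    rw [f.val x h1.2.2 h1.1, g.val x h1.2.2 h1.2.1, hal, hbe]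
    ring
  have hκq : (κ : ℚ) = f.ga - g.ga := val s hs
  have hconst : ∀ x ∈ S0, f.ph x = g.ph x + κ := by
    intro x hx
    have h1 := val x hx
    rw [← hκq] at h1
    have h2 : f.ph x - g.ph x = κ := by exact_mod_cast h1
    linarith
  by_contra hne
  have hκ0 : κ ≠ 0 := by
    intro h0
    rw [h0] at hκq
    apply hne
    have : f.ga - g.ga = 0 := by rw [← hκq]; simp
    linarith
  set Z := S0.image g.ph with hZ
  have gS : ∀ x ∈ S0, g.ph x ∈ S := by
    intro x hx
    have h1 := (mS0 x).mp hx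
    exact g.maps x h1.2.2 h1.2.1
  have fS : ∀ x ∈ S0, f.ph x ∈ S := by
    intro x hx
    have h1 := (mS0 x).mp hx
    exact f.maps x h1.2.2 h1.1
  have ZS : Z ⊆ S := by
    intro z hz
    obtain ⟨x, hx, rfl⟩ := mem_image.mp hz
    exact gS x hx
  have cZ : Z.card = S.card - 2 := by
    rw [hZ, card_image_of_injOn, cS0]
    intro x hx y hy hxy
    have h1 := (mS0 x).mp hx
    have h2 := (mS0 y).mp hy
    exact g.inj x h1.2.2 y h2.2.2 h1.2.1 h2.2.1 hxy
  have Zk : ∀ z ∈ Z, z + κ ∈ S := by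
    intro z hz
    obtain ⟨x, hx, rfl⟩ := mem_image.mp hz
    rw [← hconst x hx]
    exact fS x hx
  have cSZ : (S \ Z).card ≤ 2 := by
    rw [card_sdiff_of_subset ZS]; omega
  -- a chain of three points
  obtain ⟨z, hz0, hz1, hz2⟩ : ∃ z : ℤ, z ∈ S0 ∧ z + κ ∈ S0 ∧ z + 2 * κ ∈ S0 := by
    set B : Finset ℤ := (S \ Z) ∪ (S \ Z).image (fun x => x - κ) ∪
      {a, b, a - κ, b - κ, a - 2 * κ, b - 2 * κ} with hB
    have cB : B.card ≤ 10 := by
      have h1 := card_union_le ((S \ Z) ∪ (S \ Z).image (fun x => x - κ))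
        {a, b, a - κ, b - κ, a - 2 * κ, b - 2 * κ}
      have h2 := card_union_le (S \ Z) ((S \ Z).image (fun x => x - κ))
      have h3 : ((S \ Z).image (fun x => x - κ)).card ≤ (S \ Z).card := card_image_le
      have h4 : ({a, b, a - κ, b - κ, a - 2 * κ, b - 2 * κ} : Finset ℤ).card ≤ 6 := card_le_six
      rw [hB]
      omega
    obtain ⟨z, hzS, hzB⟩ : ∃ z ∈ S, z ∉ B := by
      by_contra h
      push Not at h
      have := card_le_card (fun x hx => h x hx : S ⊆ B)
      omega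
    rw [hB, mem_union, mem_union] at hzB
    push Not at hzB
    obtain ⟨⟨hb1, hb2⟩, hb3⟩ := hzB
    have hzZ : z ∈ Z := by
      by_contra h
      exact hb1 (mem_sdiff.mpr ⟨hzS, h⟩)
    have h1S := Zk z hzZ
    have h1Z : z + κ ∈ Z := by
      by_contra h
      apply hb2
      exact mem_image.mpr ⟨z + κ, mem_sdiff.mpr ⟨h1S, h⟩, by ring⟩
    have h2S := Zk _ h1Z
    simp only [mem_insert, mem_singleton, not_or] at hb3
    obtain ⟨n1, n2, n3, n4, n5, n6⟩ := hb3
    refine ⟨z, (mS0 z).mpr ⟨n1, n2, hzS⟩, (mS0 _).mpr ⟨?_, ?_, h1S⟩, (mS0 _).mpr ⟨?_, ?_, ?_⟩⟩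
    · intro h; apply n3; linarith
    · intro h; apply n4; linarith
    · intro h; apply n5; linarith
    · intro h; apply n6; linarith
    · have e : z + 2 * κ = z + κ + κ := by ring
      rw [e]; exact h2S
  -- each good prime
  have hp2 : ∀ p ∈ G, 2 * m p ≤ (2 * κ).natAbs.factorization p := by
    intro p hp
    obtain ⟨x0, y0, h⟩ := hloc p hp
    have hpp := h.hp
    have pk : (p : ℤ) ^ m p ∣ κ := by
      obtain ⟨x, hx, _, hx2⟩ := h.six_pos hal (Subset.refl Y) (by omega) true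
      have hx' := h.hY x hx
      have := hconst x ((mS0 x).mpr ⟨hx'.2.1, hx'.2.2, hx'.1⟩)
      rw [this] at hx2
      simpa using hx2
    have pk1 : (p : ℤ) ∣ κ := (h.pdvd).trans pk
    have f0 := fS z hz0
    have f1 := fS _ hz1
    have f2 := fS _ hz2
    have k0 := (mS0 _).mp hz0
    have k1 := (mS0 _).mp hz1
    have k2 := (mS0 _).mp hz2
    rw [← pow_dvd_iff hpp (by omega)]
    rcases h.two_of_three f0 f1 f2 with h1 | h1 | h1
    · have := h.two_m ⟨k0.2.2, k0.1⟩ ⟨k1.2.2, k1.1⟩ (by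
        have e : z - (z + κ) = -κ := by ring
        rw [e]; exact (dvd_neg.mpr pk1)) h1
      have e : z - (z + κ) = -κ := by ring
      rw [e] at this
      exact (dvd_neg.mp this).mul_left 2
    · have := h.two_m ⟨k1.2.2, k1.1⟩ ⟨k2.2.2, k2.1⟩ (by
        have e : z + κ - (z + 2 * κ) = -κ := by ring
        rw [e]; exact (dvd_neg.mpr pk1)) h1
      have e : z + κ - (z + 2 * κ) = -κ := by ring
      rw [e] at this
      exact (dvd_neg.mp this).mul_left 2
    · have := h.two_m ⟨k0.2.2, k0.1⟩ ⟨k2.2.2, k2.1⟩ (by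
        have e : z - (z + 2 * κ) = -(2 * κ) := by ring
        rw [e]; exact (dvd_neg.mpr (pk1.mul_left 2))) h1
      have e : z - (z + 2 * κ) = -(2 * κ) := by ring
      rw [e] at this
      exact dvd_neg.mp this
  have h1 : 2 * ∑ p ∈ G, (m p : ℝ) * Real.log p ≤ Real.log ((2 * κ).natAbs : ℝ) := by
    refine le_trans ?_ (log_fac _ G)
    rw [mul_sum]
    apply sum_le_sum
    intro p hp
    rw [← mul_assoc]
    apply mul_le_mul_of_nonneg_right _ (log_nn p)
    exact_mod_cast hp2 p hp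
  have h2 : Real.log ((2 * κ).natAbs : ℝ) ≤ Real.log L + Real.log 2 := by
    have hpos : (0 : ℝ) < ((2 * κ).natAbs : ℝ) := by
      have : 0 < (2 * κ).natAbs := Int.natAbs_pos.mpr (by omega)
      exact_mod_cast this
    have hk1 : |κ| ≤ L := by
      rw [hκ]
      have i1 := hL _ (fS s hs) _ (gS s hs)
      have i2 := hL _ (gS s hs) _ (fS s hs)
      exact abs_le.mpr ⟨by linarith, i1⟩
    have hL0 : (0 : ℝ) < L := by
      have : 0 < |κ| := abs_pos.mpr hκ0
      have : (0 : ℤ) < L := by linarith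
      exact_mod_cast this
    rw [← Real.log_mul hL0.ne' (by norm_num)]
    apply Real.log_le_log hpos
    rw [Nat.cast_natAbs, abs_mul]
    push_cast
    have : ((|κ| : ℤ) : ℝ) ≤ (L : ℝ) := by exact_mod_cast hk1
    push_cast at this
    rw [abs_of_pos (by norm_num : (0 : ℝ) < 2)]
    linarith
  linarith

theorem step8 (f : QM S a) (g : QM S b) (ha : a ∈ S) (hb : b ∈ S) (hab : a ≠ b)
    (hal : g.al = -f.al) (hbe : g.be = -f.be) (Y : Finset ℤ) (C : ℕ) (hC : 4 ≤ C)
    (hY : ∀ x ∈ Y, x ∈ S ∧ x ≠ a ∧ x ≠ b) (hY7 : 7 ≤ Y.card)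
    (G : Finset ℕ) (m : ℕ → ℕ) (hloc : ∀ p ∈ G, ∃ x0 y0 : ℤ, Loc f g Y C p (m p) x0 y0)
    (L : ℤ) (hL1 : 1 ≤ L) (hL : ∀ x ∈ S, ∀ y ∈ S, x - y ≤ L) (ε : ℝ)
    (hE : ∀ T ⊆ Y, Y.card ≤ T.card + C → ∀ p ∈ G,
      (1 - ε) * ((T.card : ℝ) ^ 2 - T.card) * m p ≤ E p T)
    (hbig : Real.log L + Real.log 2 < (2 - ε) * ∑ p ∈ G, (m p : ℝ) * Real.log p) : False := by
  classical
  set S0 := (S.erase b).erase a with hS0
  have mS0 : ∀ x, x ∈ S0 ↔ x ≠ a ∧ x ≠ b ∧ x ∈ S := by
    intro x; rw [hS0, mem_erase, mem_erase]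
  have YS : Y ⊆ S0 := by
    intro x hx
    have := hY x hx
    exact (mS0 x).mpr ⟨this.2.1, this.2.2, this.1⟩
  have cYS0 := card_le_card YS
  have cS0 : S0.card = S.card - 2 := by
    rw [hS0, card_erase_of_mem (mem_erase.mpr ⟨hab, ha⟩), card_erase_of_mem hb]; omega
  obtain ⟨s, hs⟩ : S0.Nonempty := card_pos.mp (by omega)
  set κ : ℤ := f.ph s + g.ph s with hκ
  have val : ∀ x ∈ S0, ((f.ph x + g.ph x : ℤ) : ℚ) = f.ga + g.ga := by
    intro x hx
    have h1 := (mS0 x).mp hx
    push_cast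
    rw [f.val x h1.2.2 h1.1, g.val x h1.2.2 h1.2.1, hal, hbe]
    ring
  have hκq : (κ : ℚ) = f.ga + g.ga := val s hs
  have hconst : ∀ x ∈ S0, f.ph x = κ - g.ph x := by
    intro x hx
    have h1 := val x hx
    rw [← hκq] at h1
    have h2 : f.ph x + g.ph x = κ := by exact_mod_cast h1
    linarith
  set Z := S0.image g.ph with hZ
  have gS : ∀ x ∈ S0, g.ph x ∈ S := by
    intro x hx
    have h1 := (mS0 x).mp hx
    exact g.maps x h1.2.2 h1.2.1
  have fS : ∀ x ∈ S0, f.ph x ∈ S := by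
    intro x hx
    have h1 := (mS0 x).mp hx
    exact f.maps x h1.2.2 h1.1
  have ZS : Z ⊆ S := by
    intro z hz
    obtain ⟨x, hx, rfl⟩ := mem_image.mp hz
    exact gS x hx
  have cZ : Z.card = S.card - 2 := by
    rw [hZ, card_image_of_injOn, cS0]
    intro x hx y hy hxy
    have h1 := (mS0 x).mp hx
    have h2 := (mS0 y).mp hy
    exact g.inj x h1.2.2 y h2.2.2 h1.2.1 h2.2.1 hxy
  have Zk : ∀ z ∈ Z, κ - z ∈ S := by
    intro z hz
    obtain ⟨x, hx, rfl⟩ := mem_image.mp hz
    rw [← hconst x hx]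
    exact fS x hx
  have cSZ : (S \ Z).card ≤ 2 := by
    rw [card_sdiff_of_subset ZS]; omega
  set T := Y.filter (fun x => κ - x ∈ S0) with hT
  have TY : T ⊆ Y := filter_subset _ _
  have cT : Y.card ≤ T.card + 4 := by
    have h1 : Y.card = T.card + (Y.filter (fun x => ¬ κ - x ∈ S0)).card := by
      rw [hT]; exact (card_filter_add_card_filter_not _).symm
    have h2 : Y.filter (fun x => ¬ κ - x ∈ S0) ⊆ (S \ Z) ∪ {κ - a, κ - b} := by
      intro x hx
      obtain ⟨hxY, hx2⟩ := mem_filter.mp hx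
      rw [mem_union]
      by_cases hxZ : x ∈ Z
      · right
        have h3 := Zk x hxZ
        have h4 : κ - x = a ∨ κ - x = b := by
          by_contra h5
          push Not at h5
          exact hx2 ((mS0 _).mpr ⟨h5.1, h5.2, h3⟩)
        rw [mem_insert, mem_singleton]
        rcases h4 with h4 | h4
        · left; linarith
        · right; linarith
      · left
        exact mem_sdiff.mpr ⟨(hY x hxY).1, hxZ⟩
    have h3 := card_le_card h2
    have h4 := card_union_le (S \ Z) {κ - a, κ - b}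
    have h5 : ({κ - a, κ - b} : Finset ℤ).card ≤ 2 := card_le_two
    omega
  have hT2 : 2 ≤ T.card := by omega
  set θ : ℚ := f.al * κ + f.be with hθ
  set q : ℤ → ℤ := fun x => f.ph x - f.ph (κ - x) with hq
  have mT : ∀ x ∈ T, (x ∈ S0) ∧ (κ - x ∈ S0) := by
    intro x hx
    obtain ⟨h1, h2⟩ := mem_filter.mp hx
    exact ⟨YS h1, h2⟩
  have qv : ∀ x ∈ T, ((q x : ℤ) : ℚ) = θ * (2 * x - κ) := by
    intro x hx
    obtain ⟨h1, h2⟩ := mT x hx
    have k1 := (mS0 _).mp h1
    have k2 := (mS0 _).mp h2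
    rw [hq]
    push_cast
    rw [f.val x k1.2.2 k1.1, f.val _ k2.2.2 k2.1, hθ]
    push_cast
    ring
  have hs0 : 2 * θ = 0 := by
    apply lin T G (fun p hp => by obtain ⟨x0, y0, h⟩ := hloc p hp; exact h.hp) m q (2 * θ) L ε hT2 hL1
    · intro x hx y hy
      push_cast
      rw [qv x hx, qv y hy]
      ring
    · intro x hx y hy
      obtain ⟨h1, h2⟩ := mT x hx
      obtain ⟨h3, h4⟩ := mT y hy
      have i1 := hL _ (fS _ h1) _ (fS _ h2)
      have i2 := hL _ (fS _ h2) _ (fS _ h1)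
      have i3 := hL _ (fS _ h3) _ (fS _ h4)
      have i4 := hL _ (fS _ h4) _ (fS _ h3)
      rw [hq]
      simp only
      rw [abs_le]
      constructor <;> linarith
    · intro p hp
      exact hE T TY (by omega) p hp
    · intro p hp
      obtain ⟨x0, y0, h⟩ := hloc p hp
      have hpp := h.hp
      have pd := h.pdvd
      have hκm : (p : ℤ) ^ m p ∣ κ - (x0 + y0) := by
        obtain ⟨x, hx, _, hx2⟩ := h.six_neg hal (Subset.refl Y) (by omega) true
        have := hconst x (YS hx)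
        rw [this] at hx2
        simpa using hx2
      have hrr : ∀ i : Bool, Loc.rep x0 y0 i + Loc.rep x0 y0 (!i) = x0 + y0 := by
        intro i
        cases i <;> simp [Loc.rep]
        ring
      -- in each class a point with `q` divisible
      have hcl : ∀ i : Bool, ∃ x ∈ T, decide ((p : ℤ) ∣ x - x0) = i ∧ (p : ℤ) ^ m p ∣ q x := by
        intro i
        obtain ⟨x, hx, hx1, hx2⟩ := h.nd T TY (by omega) i true
        obtain ⟨y, hy, hy1, hy2⟩ := h.nd T TY (by omega) i false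
        obtain ⟨sx, sx'⟩ := mT x hx
        obtain ⟨sy, sy'⟩ := mT y hy
        have mx := (mS0 _).mp sx
        have my := (mS0 _).mp sy
        have rx := h.rep_dvd mx.2.2 hx1
        have ry := h.rep_dvd my.2.2 hy1
        have e1 : (p : ℤ) ^ m p ∣ f.ph x - x0 := h.cls_x (fS _ sx) (by simpa using hx2)
        have e2 : (p : ℤ) ^ m p ∣ f.ph y - y0 := h.cls_y (fS _ sy) (by simpa using hy2)
        have hxy : (p : ℤ) ^ m p ∣ x - y := by
          have := dvd_sub rx ry
          simpa using this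
        have hnx : ¬ (p : ℤ) ∣ 2 * x - κ := by
          intro h3
          apply h.rep_ne i
          have h4 := (pd.trans hκm)
          have h5 := pd.trans rx
          have h6 := dvd_add h3 h4
          -- 2x - κ + κ - (x0+y0) - 2 (x - rep i) = rep i - rep !i
          have h7 := dvd_sub h6 (h5.mul_left 2)
          have e : 2 * x - κ + (κ - (x0 + y0)) - 2 * (x - Loc.rep x0 y0 i) =
            Loc.rep x0 y0 i - Loc.rep x0 y0 (!i) := by
            have := hrr i
            linarith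
          rwa [e] at h7
        have hqq : (q x - q y) * (2 * x - κ) = 2 * (x - y) * q x := by
          have h3 := qv x hx
          have h4 := qv y hy
          apply Int.cast_injective (α := ℚ)
          push_cast
          rw [h3, h4]
          ring
        have hqd : (p : ℤ) ^ m p ∣ q x - q y := by
          apply dvd_cancel hpp hnx
          rw [hqq]
          exact (hxy.mul_left 2).mul_right _
        refine ⟨x, hx, hx1, ?_⟩
        rcases h.cls _ (fS _ sx') with c1 | c1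
        · have := dvd_sub e1 c1
          have e : f.ph x - x0 - (f.ph (κ - x) - x0) = q x := by rw [hq]; ring
          rwa [e] at this
        · exfalso
          -- q x ≡ x0 - y0
          have q1 : (p : ℤ) ^ m p ∣ q x - (x0 - y0) := by
            have := dvd_sub e1 c1
            have e : f.ph x - x0 - (f.ph (κ - x) - y0) = q x - (x0 - y0) := by rw [hq]; ring
            rwa [e] at this
          rcases h.cls _ (fS _ sy') with c2 | c2
          · -- q y ≡ y0 - x0
            have q2 : (p : ℤ) ^ m p ∣ q y - (y0 - x0) := by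
              have := dvd_sub e2 c2
              have e : f.ph y - y0 - (f.ph (κ - y) - x0) = q y - (y0 - x0) := by rw [hq]; ring
              rwa [e] at this
            apply h.two_ne
            have := dvd_sub hqd (dvd_sub q1 q2)
            have e : q x - q y - (q x - (x0 - y0) - (q y - (y0 - x0))) = 2 * (x0 - y0) := by ring
            rwa [e] at this
          · have q2 : (p : ℤ) ^ m p ∣ q y := by
              have := dvd_sub e2 c2
              have e : f.ph y - y0 - (f.ph (κ - y) - y0) = q y := by rw [hq]; ring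
              rwa [e] at this
            apply h.hxy
            have h8 := dvd_sub hqd (dvd_sub q1 q2)
            have e : q x - q y - (q x - (x0 - y0) - q y) = x0 - y0 := by ring
            rw [e] at h8
            exact pd.trans h8
      obtain ⟨x, hx, hx1, hx2⟩ := hcl true
      obtain ⟨y, hy, hy1, hy2⟩ := hcl false
      refine ⟨x, hx, y, hy, ?_, dvd_sub hx2 hy2⟩
      intro h3
      have hx1' : (p : ℤ) ∣ x - x0 := by simpa using hx1
      have hy1' : ¬ (p : ℤ) ∣ y - x0 := by simpa using hy1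
      apply hy1'
      have := dvd_sub hx1' h3
      simpa using this
    · exact hbig
  have hθ0 : θ = 0 := by
    have := hs0
    simpa using this
  have heq : ∀ x ∈ T, 2 * x = κ := by
    intro x hx
    have h1 := qv x hx
    rw [hθ0, zero_mul] at h1
    have h2 : q x = 0 := by exact_mod_cast h1
    obtain ⟨sx, sx'⟩ := mT x hx
    have mx := (mS0 _).mp sx
    have mx' := (mS0 _).mp sx'
    have h3 : f.ph x = f.ph (κ - x) := by rw [hq] at h2; simp only at h2; linarith
    have := f.inj x mx.2.2 _ mx'.2.2 mx.1 mx'.1 h3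
    linarith
  have : T.card ≤ 1 := by
    rw [card_le_one]
    intro x hx y hy
    have h1 := heq x hx
    have h2 := heq y hy
    omega
  omega

end F0744
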