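import Pool.Agent.Lib.MP_f0744f_nt.Glob
import Pool.Agent.Lib.MP_f0744f_nt.Loc2

open Finset

namespace F0744

/-- a linear function of small slope which is congruent at the good primes is constant -/
theorem lin (T : Finset ℤ) (G : Finset ℕ) (hGp : ∀ p ∈ G, p.Prime) (m : ℕ → ℕ) (q : ℤ → ℤ)
    (s : ℚ) (L : ℤ) (ε : ℝ) (hT : 2 ≤ T.card) (hL : 1 ≤ L)
    (hq : ∀ x ∈ T, ∀ y ∈ T, ((q x - q y : ℤ) : ℚ) = s * ((x : ℚ) - y))
    (hb : ∀ x ∈ T, ∀ y ∈ T, |q x - q y| ≤ 2 * L)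
    (hE : ∀ p ∈ G, (1 - ε) * ((T.card : ℝ) ^ 2 - T.card) * m p ≤ E p T)
    (hloc : ∀ p ∈ G, ∃ x ∈ T, ∃ y ∈ T, ¬ (p : ℤ) ∣ x - y ∧ (p : ℤ) ^ (m p) ∣ q x - q y)
    (hbig : Real.log L + Real.log 2 < (2 - ε) * ∑ p ∈ G, (m p : ℝ) * Real.log p) : s = 0 := by
  by_contra hs
  have hne : ∀ x ∈ T, ∀ y ∈ T, x ≠ y → q x - q y ≠ 0 := by
    intro x hx y hy hxy h0
    have h1 := hq x hx y hy
    rw [h0] at h1
    have h2 : (x : ℚ) - y ≠ 0 := sub_ne_zero.mpr (by exact_mod_cast hxy)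
    rcases mul_eq_zero.mp h1.symm with h3 | h3
    · exact hs h3
    · exact h2 h3
  have hQ : 0 < (T.card : ℝ) ^ 2 - T.card := by
    have h2 : (2 : ℝ) ≤ T.card := by exact_mod_cast hT
    nlinarith
  have hL0 : (0 : ℝ) < (L : ℝ) := by
    have : (1 : ℝ) ≤ L := by exact_mod_cast hL
    linarith
  -- upper bound
  have hup : ∑ r ∈ T.offDiag, Real.log ((q r.1 - q r.2).natAbs : ℝ) ≤
      ((T.card : ℝ) ^ 2 - T.card) * (Real.log L + Real.log 2) := by
    rw [← card_cast, ← nsmul_eq_mul, ← sum_const]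
    apply sum_le_sum
    intro r hr
    rw [mem_offDiag] at hr
    have h1 : (0 : ℝ) < ((q r.1 - q r.2).natAbs : ℝ) := by
      have : 0 < (q r.1 - q r.2).natAbs := Int.natAbs_pos.mpr (hne _ hr.1 _ hr.2.1 hr.2.2)
      exact_mod_cast this
    rw [← Real.log_mul hL0.ne' (by norm_num)]
    apply Real.log_le_log h1
    have h2 := hb _ hr.1 _ hr.2.1
    rw [Nat.cast_natAbs]
    have h3 : ((|q r.1 - q r.2| : ℤ) : ℝ) ≤ ((2 * L : ℤ) : ℝ) := by exact_mod_cast h2
    push_cast at h3 ⊢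
    linarith
  -- lower bound
  have hval : ∀ p ∈ G, ∀ r ∈ T.offDiag, m p + (r.1 - r.2).natAbs.factorization p ≤
      (q r.1 - q r.2).natAbs.factorization p := by
    intro p hp r hr
    rw [mem_offDiag] at hr
    obtain ⟨x, hx, y, hy, hxy, hpm⟩ := hloc p hp
    have hpp := hGp p hp
    have hz := hne _ hr.1 _ hr.2.1 hr.2.2
    have hz' : r.1 - r.2 ≠ 0 := sub_ne_zero.mpr hr.2.2
    rw [← pow_dvd_iff hpp hz]
    apply dvd_cancel hpp hxy
    have e : (q r.1 - q r.2) * (x - y) = (q x - q y) * (r.1 - r.2) := by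
      have h1 := hq _ hr.1 _ hr.2.1
      have h2 := hq x hx y hy
      apply Int.cast_injective (α := ℚ)
      rw [Int.cast_mul, Int.cast_mul, h1, h2]
      push_cast
      ring
    rw [e, pow_add]
    exact mul_dvd_mul hpm ((pow_dvd_iff hpp hz' _).mpr (le_refl _))
  have hlow : ((T.card : ℝ) ^ 2 - T.card) * ((2 - ε) * ∑ p ∈ G, (m p : ℝ) * Real.log p) ≤
      ∑ r ∈ T.offDiag, Real.log ((q r.1 - q r.2).natAbs : ℝ) := by
    have h1 : ∑ r ∈ T.offDiag, ∑ p ∈ G, ((m p : ℝ) + ((r.1 - r.2).natAbs.factorization p : ℝ)) *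
        Real.log p ≤ ∑ r ∈ T.offDiag, Real.log ((q r.1 - q r.2).natAbs : ℝ) := by
      apply sum_le_sum
      intro r hr
      refine le_trans ?_ (log_fac _ G)
      apply sum_le_sum
      intro p hp
      apply mul_le_mul_of_nonneg_right _ (log_nn p)
      exact_mod_cast hval p hp r hr
    refine le_trans ?_ h1
    rw [sum_comm, mul_sum, mul_sum]
    apply sum_le_sum
    intro p hp
    rw [← sum_mul, sum_add_distrib, sum_const, nsmul_eq_mul, card_cast]
    have h2 := hE p hp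
    have h3 : (E p T : ℝ) = ∑ r ∈ T.offDiag, ((r.1 - r.2).natAbs.factorization p : ℝ) := by
      rw [E]; push_cast; rfl
    rw [h3] at h2
    have h4 := log_nn p
    have h5 : ((T.card : ℝ) ^ 2 - T.card) * ((2 - ε) * (m p : ℝ)) ≤
      ((T.card : ℝ) ^ 2 - T.card) * m p +
        ∑ r ∈ T.offDiag, ((r.1 - r.2).natAbs.factorization p : ℝ) := by nlinarith
    calc ((T.card : ℝ) ^ 2 - T.card) * ((2 - ε) * ((m p : ℝ) * Real.log p))
        = (((T.card : ℝ) ^ 2 - T.card) * ((2 - ε) * (m p : ℝ))) * Real.log p := by ring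
      _ ≤ _ := mul_le_mul_of_nonneg_right h5 h4
  have h6 := hlow.trans hup
  have h7 := le_of_mul_le_mul_left h6 hQ
  linarith

variable {S : Finset ℤ} {a b : ℤ}

theorem step5 (f : QM S a) (g : QM S b) (G : Finset ℕ) (hGp : ∀ p ∈ G, p.Prime) (m : ℕ → ℕ)
    (hloc : ∀ p ∈ G, (p : ℤ) ^ (3 * m p) ∣
      (f.al.num * g.al.den) ^ 2 - (g.al.num * f.al.den) ^ 2) (u : ℝ)
    (hu1 : Real.log (f.al.num.natAbs : ℝ) + Real.log (g.al.den : ℝ) ≤ u)
    (hu2 : Real.log (g.al.num.natAbs : ℝ) + Real.log (f.al.den : ℝ) ≤ u)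
    (hbig : 2 * u < 3 * ∑ p ∈ G, (m p : ℝ) * Real.log p) : f.al ^ 2 = g.al ^ 2 := by
  set n1 : ℤ := (f.al.num * g.al.den) ^ 2 - (g.al.num * f.al.den) ^ 2 with hn1
  have hz : n1 = 0 := by
    by_contra hne
    have h1 : 3 * ∑ p ∈ G, (m p : ℝ) * Real.log p ≤ Real.log (n1.natAbs : ℝ) := by
      refine le_trans ?_ (log_fac _ G)
      rw [mul_sum]
      apply sum_le_sum
      intro p hp
      rw [← mul_assoc]
      apply mul_le_mul_of_nonneg_right _ (log_nn p)
      have := (pow_dvd_iff (hGp p hp) hne _).mp (hloc p hp)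
      exact_mod_cast this
    have pf : (0 : ℝ) < (f.al.num.natAbs : ℝ) := by
      have : 0 < f.al.num.natAbs := Int.natAbs_pos.mpr (Rat.num_ne_zero.mpr f.hal)
      exact_mod_cast this
    have pg : (0 : ℝ) < (g.al.num.natAbs : ℝ) := by
      have : 0 < g.al.num.natAbs := Int.natAbs_pos.mpr (Rat.num_ne_zero.mpr g.hal)
      exact_mod_cast this
    have qf : (0 : ℝ) < (f.al.den : ℝ) := by exact_mod_cast f.al.den_pos
    have qg : (0 : ℝ) < (g.al.den : ℝ) := by exact_mod_cast g.al.den_pos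
    have h2 : Real.log (n1.natAbs : ℝ) ≤ 2 * u := by
      have hpos : (0 : ℝ) < (n1.natAbs : ℝ) := by
        have : 0 < n1.natAbs := Int.natAbs_pos.mpr hne
        exact_mod_cast this
      set A : ℝ := (f.al.num.natAbs : ℝ) * (g.al.den : ℝ) with hA
      set B : ℝ := (g.al.num.natAbs : ℝ) * (f.al.den : ℝ) with hB
      have hA0 : 0 < A := mul_pos pf qg
      have hB0 : 0 < B := mul_pos pg qf
      have eA : Real.log (A ^ 2) ≤ 2 * u := by
        rw [Real.log_pow, hA, Real.log_mul pf.ne' qg.ne']; push_cast; linarith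
      have eB : Real.log (B ^ 2) ≤ 2 * u := by
        rw [Real.log_pow, hB, Real.log_mul pg.ne' qf.ne']; push_cast; linarith
      have hn : (n1.natAbs : ℝ) = |A ^ 2 - B ^ 2| := by
        rw [Nat.cast_natAbs, hn1]
        push_cast
        rw [hA, hB, Nat.cast_natAbs, Nat.cast_natAbs]
        push_cast
        rw [mul_pow, mul_pow, mul_pow, mul_pow, sq_abs, sq_abs]
      rcases le_total (A ^ 2) (B ^ 2) with h | h
      · refine le_trans (Real.log_le_log hpos ?_) eB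
        rw [hn, abs_of_nonpos (by linarith)]
        have : 0 ≤ A ^ 2 := sq_nonneg _
        linarith
      · refine le_trans (Real.log_le_log hpos ?_) eA
        rw [hn, abs_of_nonneg (by linarith)]
        have : 0 ≤ B ^ 2 := sq_nonneg _
        linarith
    linarith
  have hf : f.al * (f.al.den : ℚ) = (f.al.num : ℚ) := Rat.mul_den_eq_num f.al
  have hg : g.al * (g.al.den : ℚ) = (g.al.num : ℚ) := Rat.mul_den_eq_num g.al
  have qf : (f.al.den : ℚ) ≠ 0 := by exact_mod_cast f.al.den_nz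
  have qg : (g.al.den : ℚ) ≠ 0 := by exact_mod_cast g.al.den_nz
  have h3 : ((f.al.num : ℚ) * g.al.den) ^ 2 = ((g.al.num : ℚ) * f.al.den) ^ 2 := by
    have : (f.al.num * g.al.den) ^ 2 = (g.al.num * f.al.den) ^ 2 := by
      have := hz; rw [hn1] at this; linarith
    exact_mod_cast this
  rw [← hf, ← hg] at h3
  have h4 : ((f.al.den : ℚ) * g.al.den) ^ 2 ≠ 0 := pow_ne_zero _ (mul_ne_zero qf qg)
  apply mul_right_cancel₀ h4
  linear_combination h3

end F0744
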