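import Pool.Agent.Lib.MP_f0744f_nt.Nd

open Finset

namespace F0744

theorem log_nn (p : ℕ) : 0 ≤ Real.log (p : ℝ) := Real.log_natCast_nonneg p

theorem log_fac (z : ℕ) (P : Finset ℕ) :
    ∑ p ∈ P, (z.factorization p : ℝ) * Real.log p ≤ Real.log z := by
  rw [Real.log_nat_eq_sum_factorization]
  unfold Finsupp.sum
  calc ∑ p ∈ P, (z.factorization p : ℝ) * Real.log p
      ≤ ∑ p ∈ P ∪ z.factorization.support, (z.factorization p : ℝ) * Real.log p := by
        apply sum_le_sum_of_subset_of_nonneg subset_union_left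
        intro p _ _
        exact mul_nonneg (Nat.cast_nonneg _) (log_nn p)
    _ = ∑ p ∈ z.factorization.support, (z.factorization p : ℝ) * Real.log p := by
        symm
        apply sum_subset subset_union_right
        intro p _ hp
        rw [Finsupp.notMem_support_iff] at hp
        simp [hp]

theorem E_log (P : Finset ℕ) (T : Finset ℤ) :
    ∑ p ∈ P, (E p T : ℝ) * Real.log p ≤
      ∑ q ∈ T.offDiag, Real.log ((q.1 - q.2).natAbs : ℝ) := by
  have h : ∀ p : ℕ, (E p T : ℝ) * Real.log p =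
      ∑ q ∈ T.offDiag, ((q.1 - q.2).natAbs.factorization p : ℝ) * Real.log p := by
    intro p
    rw [E]; push_cast
    rw [sum_mul]
  rw [sum_congr rfl (fun p _ => h p), sum_comm]
  apply sum_le_sum
  intro q _
  exact log_fac _ P

theorem card_cast (T : Finset ℤ) : ((T.offDiag.card : ℕ) : ℝ) = (T.card : ℝ) ^ 2 - T.card := by
  rw [offDiag_card, Nat.cast_sub (Nat.le_mul_self _)]
  push_cast; ring

theorem logsum_le (T : Finset ℤ) {L : ℤ} (hL : ∀ x ∈ T, ∀ y ∈ T, x - y ≤ L) :
    ∑ q ∈ T.offDiag, Real.log ((q.1 - q.2).natAbs : ℝ) ≤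
      ((T.card : ℝ) ^ 2 - T.card) * Real.log L := by
  rw [← card_cast, ← nsmul_eq_mul, ← sum_const]
  apply sum_le_sum
  intro q hq
  rw [mem_offDiag] at hq
  have h1 : (0 : ℝ) < ((q.1 - q.2).natAbs : ℝ) := by
    have : 0 < (q.1 - q.2).natAbs := Int.natAbs_pos.mpr (sub_ne_zero.mpr hq.2.2)
    exact_mod_cast this
  apply Real.log_le_log h1
  have h2 := hL _ hq.1 _ hq.2.1
  have h3 := hL _ hq.2.1 _ hq.1
  have h4 : |q.1 - q.2| ≤ L := abs_le.mpr ⟨by linarith, h2⟩
  rw [Nat.cast_natAbs]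
  exact_mod_cast h4

/-- from divisibility of the Vandermonde product to energies -/
theorem det_E {D W : ℕ} {T : Finset ℤ} (h : (D : ℤ) ^ W ∣ ∏ q ∈ T.offDiag, (q.1 - q.2)) (p : ℕ) :
    W * D.factorization p ≤ E p T := by
  have h1 : (∏ q ∈ T.offDiag, (q.1 - q.2)).natAbs = ∏ q ∈ T.offDiag, (q.1 - q.2).natAbs :=
    map_prod Int.natAbsHom _ _
  have hne : ∀ q ∈ T.offDiag, (q.1 - q.2).natAbs ≠ 0 := by
    intro q hq
    rw [mem_offDiag] at hq
    exact Int.natAbs_ne_zero.mpr (sub_ne_zero.mpr hq.2.2)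
  have h2 : D ^ W ∣ ∏ q ∈ T.offDiag, (q.1 - q.2).natAbs := by
    rw [← h1, ← Int.natCast_dvd]
    exact_mod_cast h
  have h3 := (Nat.factorization_le_iff_dvd (by
    intro h0
    have : (∏ q ∈ T.offDiag, (q.1 - q.2).natAbs) = 0 := by
      rw [h0] at h2; exact zero_dvd_iff.mp h2
    exact (prod_ne_zero_iff.mpr hne) this) (prod_ne_zero_iff.mpr hne)).mpr h2 p
  rw [Nat.factorization_pow, Nat.factorization_prod hne] at h3
  rw [E]
  simpa using h3

/-- the numerical core of the selection of good primes -/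
theorem good_sum (A G : Finset ℕ) (hG : G ⊆ A) (e m d d' : ℕ → ℝ) (Q l ε τ : ℝ) (hQ : 0 < Q)
    (hε0 : 0 ≤ ε) (hε : ε ≤ 1 / 2) (hl : 0 ≤ l) (hτ0 : 0 ≤ τ)
    (hm : ∀ p ∈ A, 0 ≤ m p)
    (he : ∑ p ∈ A, e p * Real.log p ≤ Q * l)
    (hem : ∀ p ∈ A, (1 - ε) * Q * m p ≤ e p)
    (hd : ∀ p ∈ A, d p ≤ m p) (hd' : ∀ p ∈ A, d' p ≤ m p)
    (hsd : (1 - τ) * l ≤ ∑ p ∈ A, d p * Real.log p)
    (hsd' : (1 - τ) * l ≤ ∑ p ∈ A, d' p * Real.log p)
    (hbad : ∀ p ∈ A, p ∉ G → (101 / 100 * m p * Q < e p ∨ d p < 99 / 100 * m p ∨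
      d' p < 99 / 100 * m p ∨ (p = 2 ∧ m p ≤ 1))) :
    (1 - ε) * ∑ p ∈ A, m p * Real.log p ≤ l ∧
    (1 - τ) * l - (500 * ε + 300 * τ) * l - Real.log 2 ≤ ∑ p ∈ G, m p * Real.log p := by
  set M := ∑ p ∈ A, m p * Real.log p with hM
  have h1 : (1 - ε) * M ≤ l := by
    have h2 : (1 - ε) * Q * M ≤ Q * l := by
      refine le_trans ?_ he
      rw [hM, mul_sum]
      apply sum_le_sum
      intro p hp
      rw [← mul_assoc]
      exact mul_le_mul_of_nonneg_right (hem p hp) (log_nn p)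
    have h3 : Q * ((1 - ε) * M) ≤ Q * l := by linarith [h2, mul_comm ((1 - ε)) Q, mul_assoc Q (1 - ε) M]
    exact le_of_mul_le_mul_left h3 hQ
  refine ⟨h1, ?_⟩
  -- pointwise inequality
  have hpt : ∀ p ∈ A, (if p ∈ G then 0 else m p * Real.log p) ≤
      100 * (e p / Q - (1 - ε) * m p) * Real.log p + 100 * (m p - d p) * Real.log p +
      100 * (m p - d' p) * Real.log p + (if p = 2 then Real.log 2 else 0) := by
    intro p hp
    have n1 : 0 ≤ e p / Q - (1 - ε) * m p := by
      have := hem p hp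
      have h2 : (1 - ε) * m p ≤ e p / Q := by
        rw [le_div_iff₀ hQ]; linarith
      linarith
    have n2 := hd p hp
    have n3 := hd' p hp
    have n4 := log_nn p
    have n5 := hm p hp
    have n6 : (0 : ℝ) ≤ (if p = 2 then Real.log 2 else 0) := by
      split_ifs
      · exact Real.log_nonneg (by norm_num)
      · exact le_refl _
    have t1 : 0 ≤ 100 * (e p / Q - (1 - ε) * m p) * Real.log p := by positivity
    have t2 : 0 ≤ 100 * (m p - d p) * Real.log p :=
      mul_nonneg (mul_nonneg (by norm_num) (by linarith)) n4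
    have t3 : 0 ≤ 100 * (m p - d' p) * Real.log p :=
      mul_nonneg (mul_nonneg (by norm_num) (by linarith)) n4
    by_cases hpG : p ∈ G
    · rw [if_pos hpG]; linarith
    · rw [if_neg hpG]
      rcases hbad p hp hpG with h | h | h | h
      · have h2 : m p ≤ 100 * (e p / Q - (1 - ε) * m p) := by
          have h3 : 101 / 100 * m p ≤ e p / Q := by
            rw [le_div_iff₀ hQ]; linarith
          nlinarith
        have := mul_le_mul_of_nonneg_right h2 n4
        linarith
      · have h2 : m p ≤ 100 * (m p - d p) := by linarith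
        have := mul_le_mul_of_nonneg_right h2 n4
        linarith
      · have h2 : m p ≤ 100 * (m p - d' p) := by linarith
        have := mul_le_mul_of_nonneg_right h2 n4
        linarith
      · obtain ⟨h2, h3⟩ := h
        subst h2
        rw [if_pos rfl]
        have : m 2 * Real.log ((2 : ℕ) : ℝ) ≤ 1 * Real.log ((2 : ℕ) : ℝ) :=
          mul_le_mul_of_nonneg_right h3 n4
        have e2 : Real.log ((2 : ℕ) : ℝ) = Real.log 2 := by norm_num
        rw [e2] at this t1 t2 t3 ⊢
        linarith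
  have hsum := sum_le_sum hpt
  rw [sum_add_distrib, sum_add_distrib, sum_add_distrib] at hsum
  have e1 : ∑ p ∈ A, (if p ∈ G then 0 else m p * Real.log p) = M - ∑ p ∈ G, m p * Real.log p := by
    have h2 : ∀ p ∈ A, (if p ∈ G then 0 else m p * Real.log p) =
        m p * Real.log p - (if p ∈ G then m p * Real.log p else 0) := by
      intro p _
      split_ifs <;> ring
    rw [sum_congr rfl h2, sum_sub_distrib, ← sum_filter]
    have h3 : A.filter (fun p => p ∈ G) = G := by
      ext p; rw [mem_filter]; exact ⟨fun h => h.2, fun h => ⟨hG h, h⟩⟩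
    rw [h3]
  have e2 : ∑ p ∈ A, 100 * (e p / Q - (1 - ε) * m p) * Real.log p ≤ 100 * (l - (1 - ε) * M) := by
    have h2 : ∑ p ∈ A, 100 * (e p / Q - (1 - ε) * m p) * Real.log p =
        100 * ((∑ p ∈ A, e p * Real.log p) / Q - (1 - ε) * M) := by
      rw [hM, sum_div, mul_sum, ← sum_sub_distrib, mul_sum]
      apply sum_congr rfl
      intro p _
      ring
    rw [h2]
    have h3 : (∑ p ∈ A, e p * Real.log p) / Q ≤ l := by
      rw [div_le_iff₀ hQ]; linarith
    linarith
  have e3 : ∑ p ∈ A, 100 * (m p - d p) * Real.log p = 100 * (M - ∑ p ∈ A, d p * Real.log p) := by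
    rw [hM, ← sum_sub_distrib, mul_sum]
    apply sum_congr rfl
    intro p _
    ring
  have e4 : ∑ p ∈ A, 100 * (m p - d' p) * Real.log p =
      100 * (M - ∑ p ∈ A, d' p * Real.log p) := by
    rw [hM, ← sum_sub_distrib, mul_sum]
    apply sum_congr rfl
    intro p _
    ring
  have e5 : ∑ p ∈ A, (if p = 2 then Real.log 2 else 0) ≤ Real.log 2 := by
    rw [sum_ite_eq']
    split_ifs
    · exact le_refl _
    · exact Real.log_nonneg (by norm_num)
  rw [e1, e3, e4] at hsum
  have hMl : M ≤ (1 + 2 * ε) * l := by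
    have h2 : (1 - ε) * M ≤ (1 - ε) * ((1 + 2 * ε) * l) := by
      have : l ≤ (1 - ε) * ((1 + 2 * ε) * l) := by nlinarith [mul_nonneg hε0 hl]
      linarith
    exact le_of_mul_le_mul_left h2 (by linarith)
  have hMg : (1 - τ) * l ≤ M := by
    refine le_trans hsd ?_
    apply sum_le_sum
    intro p hp
    exact mul_le_mul_of_nonneg_right (hd p hp) (log_nn p)
  have hfin : (1 - ε) * M ≥ (1 - ε) * ((1 - τ) * l) := by
    apply mul_le_mul_of_nonneg_left hMg; linarith
  have hx : (1 - ε) * ((1 - τ) * l) ≥ l - ε * l - τ * l := by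
    nlinarith [mul_nonneg (mul_nonneg hε0 hτ0) hl]
  linarith

end F0744
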