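import Pool.Agent.Lib.MP_f0744f_nt.Defs

namespace F0744

variable {S : Finset ℤ} {a b : ℤ}

theorem key (f : QM S a) {x y z : ℤ} (hx : x ∈ S ∧ x ≠ a) (hy : y ∈ S ∧ y ≠ a)
    (hz : z ∈ S ∧ z ≠ a) :
    (f.al.den : ℤ) * (f.ph x - f.ph y) * (y - z) =
      (x - y) * ((f.al.den : ℤ) * (f.ph y - f.ph z) + f.al.num * (y - z) * (x - z)) := by
  have h : f.al * (f.al.den : ℚ) = (f.al.num : ℚ) := Rat.mul_den_eq_num f.al
  have h1 := f.val x hx.1 hx.2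
  have h2 := f.val y hy.1 hy.2
  have h3 := f.val z hz.1 hz.2
  apply Int.cast_injective (α := ℚ)
  push_cast
  rw [h1, h2, h3]
  linear_combination (-(((x : ℚ) - y) * (y - z) * (x - z))) * h + 2 * (((x : ℚ) - y) * (y - z) * (x - z)) * h

theorem cop_num {q : ℚ} {p : ℕ} (hp : p.Prime) (h : (p : ℤ) ∣ (q.den : ℤ)) : ¬ (p : ℤ) ∣ q.num := by
  intro h2
  have h3 : (p : ℕ) ∣ q.num.natAbs := Int.natCast_dvd.mp h2
  have h4 : p ∣ q.den := by exact_mod_cast h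
  have h5 := Nat.dvd_gcd h3 h4
  rw [q.reduced] at h5
  exact hp.one_lt.ne' (Nat.dvd_one.mp h5)

theorem cop_pow {p : ℕ} (hp : p.Prime) {u : ℤ} (hu : ¬ (p : ℤ) ∣ u) (j : ℕ) :
    IsCoprime ((p : ℤ) ^ j) u := by
  apply IsCoprime.pow_left
  exact (Nat.prime_iff_prime_int.mp hp).irreducible.coprime_iff_not_dvd.mpr hu

theorem dvd_cancel {p : ℕ} (hp : p.Prime) {u v : ℤ} (hu : ¬ (p : ℤ) ∣ u) {j : ℕ}
    (h : (p : ℤ) ^ j ∣ v * u) : (p : ℤ) ^ j ∣ v :=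
  (cop_pow hp hu j).dvd_of_dvd_mul_right h

theorem not_dvd_mul {p : ℕ} (hp : p.Prime) {u v : ℤ} (hu : ¬ (p : ℤ) ∣ u) (hv : ¬ (p : ℤ) ∣ v) :
    ¬ (p : ℤ) ∣ u * v := by
  intro h
  rcases (Nat.prime_iff_prime_int.mp hp).dvd_or_dvd h with h | h
  · exact hu h
  · exact hv h

/-- three points: the two-class structure -/
theorem two_class (f : QM S a) {p : ℕ} (hp : p.Prime) {d : ℕ} (hd1 : 1 ≤ d)
    (hd : (p : ℤ) ^ d ∣ (f.al.den : ℤ)) {x y z : ℤ} (hx : x ∈ S ∧ x ≠ a) (hy : y ∈ S ∧ y ≠ a)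
    (hz : z ∈ S ∧ z ≠ a) (hxy : ¬ (p : ℤ) ∣ x - y) :
    (p : ℤ) ^ d ∣ z - x ∨ (p : ℤ) ^ d ∣ z - y := by
  have hpd : (p : ℤ) ∣ (f.al.den : ℤ) := (dvd_pow_self _ (by omega)).trans hd
  have hw := cop_num hp hpd
  have hk := key f hx hy hz
  have h1 : (p : ℤ) ^ d ∣ ((z - x) * (z - y)) * (f.al.num * (x - y)) := by
    have e : ((z - x) * (z - y)) * (f.al.num * (x - y)) =
      (f.al.den : ℤ) * ((f.ph x - f.ph y) * (y - z) - (x - y) * (f.ph y - f.ph z)) := by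
      linear_combination -hk
    rw [e]
    exact hd.mul_right _
  have h2 := dvd_cancel hp (not_dvd_mul hp hw hxy) h1
  by_cases h3 : (p : ℤ) ∣ z - x
  · left
    apply dvd_cancel hp _ h2
    intro h4
    apply hxy
    have := dvd_sub h4 h3
    simpa using this
  · right
    rw [mul_comm] at h2
    exact dvd_cancel hp h3 h2

/-- similarity inside a class -/
theorem sim (f : QM S a) {p : ℕ} (hp : p.Prime) {d : ℕ} (hd1 : 1 ≤ d)
    (hd : f.al.den.factorization p = d) {x y z : ℤ} (hx : x ∈ S ∧ x ≠ a) (hy : y ∈ S ∧ y ≠ a)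
    (hz : z ∈ S ∧ z ≠ a) (hxz : ¬ (p : ℤ) ∣ x - z) (hyz : ¬ (p : ℤ) ∣ y - z) (j : ℕ) :
    (p : ℤ) ^ (d + j) ∣ x - y ↔ (p : ℤ) ^ j ∣ f.ph x - f.ph y := by
  have hk := key f hx hy hz
  obtain ⟨D1, hD1, hD⟩ : ∃ D1 : ℤ, ¬ (p : ℤ) ∣ D1 ∧ (f.al.den : ℤ) = (p : ℤ) ^ d * D1 := by
    refine ⟨((f.al.den / p ^ d : ℕ) : ℤ), ?_, ?_⟩
    · intro h
      have h2 : p ∣ f.al.den / p ^ d := by exact_mod_cast h
      rw [← hd] at h2
      exact Nat.not_dvd_ordCompl hp f.al.den_nz h2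
    · have h3 : p ^ d * (f.al.den / p ^ d) = f.al.den := by
        rw [← hd]
        exact Nat.ordProj_mul_ordCompl_eq_self f.al.den p
      exact_mod_cast h3.symm
  have hpd : (p : ℤ) ∣ (f.al.den : ℤ) := by
    rw [hD]
    exact (dvd_pow_self _ (by omega)).mul_right _
  have hw := cop_num hp hpd
  set u1 : ℤ := (f.al.den : ℤ) * (f.ph y - f.ph z) + f.al.num * (y - z) * (x - z) with hu1
  have hu : ¬ (p : ℤ) ∣ u1 := by
    intro h
    have h2 : (p : ℤ) ∣ f.al.num * (y - z) * (x - z) := by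
      have := dvd_sub h (hpd.mul_right (f.ph y - f.ph z))
      rw [hu1] at this
      simpa using this
    exact not_dvd_mul hp (not_dvd_mul hp hw hyz) hxz h2
  have hpp : (p : ℤ) ^ d ≠ 0 := by
    have : (p : ℤ) ≠ 0 := by exact_mod_cast hp.ne_zero
    positivity
  constructor
  · intro h
    have h1 : (p : ℤ) ^ (d + j) ∣ (x - y) * u1 := h.mul_right _
    rw [← hk, hD, pow_add] at h1
    have h2 : (p : ℤ) ^ j ∣ (f.ph x - f.ph y) * (D1 * (y - z)) := by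
      have e : (p : ℤ) ^ d * D1 * (f.ph x - f.ph y) * (y - z) =
        (p : ℤ) ^ d * ((f.ph x - f.ph y) * (D1 * (y - z))) := by ring
      rw [e] at h1
      exact (mul_dvd_mul_iff_left hpp).mp h1
    exact dvd_cancel hp (not_dvd_mul hp hD1 hyz) h2
  · intro h
    apply dvd_cancel hp hu
    rw [← hk, hD, pow_add]
    have e : (p : ℤ) ^ d * D1 * (f.ph x - f.ph y) * (y - z) =
        (p : ℤ) ^ d * ((f.ph x - f.ph y)) * (D1 * (y - z)) := by ring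
    rw [e]
    exact (mul_dvd_mul_left _ h).mul_right _

end F0744
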