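import Pool.Agent.Lib.MP_f0744f_nt.Core
import Pool.Agent.Lib.MP_f0744f_nt.RedS

open Finset

namespace F0744

variable {S : Finset ℤ} {a b : ℤ}

theorem core (ha : a ∈ S) (hb : b ∈ S) (hab : a ≠ b) (f : QM S a) (g : QM S b)
    (prim : ∀ p : ℕ, p.Prime → ∃ x ∈ S, ∃ y ∈ S, ¬ (p : ℤ) ∣ x - y)
    (hN1 : 2000000 ≤ S.card) (hN2 : 2 ^ 20000 + 20000 < S.card)
    (hN3 : Real.exp 140000 ≤ (S.card : ℝ) - 1) :
    f.al = g.al ∧ f.be = g.be ∧ f.ga = g.ga := by
  classical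
  have hne : S.Nonempty := ⟨a, ha⟩
  set L : ℤ := S.max' hne - S.min' hne with hLdef
  have hL : ∀ x ∈ S, ∀ y ∈ S, x - y ≤ L := by
    intro x hx y hy
    have h1 := S.le_max' x hx
    have h2 := S.min'_le y hy
    rw [hLdef]; linarith
  have hL' : ∃ x ∈ S, ∃ y ∈ S, x - y = L := ⟨_, S.max'_mem hne, _, S.min'_mem hne, rfl⟩
  have hcard : (S.card : ℤ) ≤ L + 1 := by
    have h1 : S ⊆ Icc (S.min' hne) (S.max' hne) := by
      intro x hx
      exact mem_Icc.mpr ⟨S.min'_le x hx, S.le_max' x hx⟩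
    have h2 := card_le_card h1
    rw [Int.card_Icc] at h2
    omega
  have hL1 : 1 ≤ L := by omega
  have hcr : Real.exp 140000 ≤ (L : ℝ) := by
    have : ((S.card : ℤ) : ℝ) ≤ ((L + 1 : ℤ) : ℝ) := by exact_mod_cast hcard
    push_cast at this
    linarith
  have hl : 140000 ≤ Real.log L := by
    rw [← Real.log_exp 140000]
    exact Real.log_le_log (Real.exp_pos _) hcr
  set S0 := (S.erase b).erase a with hS0
  have mS0 : ∀ x, x ∈ S0 ↔ x ≠ a ∧ x ≠ b ∧ x ∈ S := by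
    intro x; rw [hS0, mem_erase, mem_erase]
  have cS0 : S0.card = S.card - 2 := by
    rw [hS0, card_erase_of_mem (mem_erase.mpr ⟨hab, ha⟩), card_erase_of_mem hb]; omega
  have hSS : S0 ⊆ S := fun x hx => ((mS0 x).mp hx).2.2
  have gS : ∀ x ∈ S0, g.ph x ∈ S := by
    intro x hx
    have h1 := (mS0 x).mp hx
    exact g.maps x h1.2.2 h1.2.1
  have fS : ∀ x ∈ S0, f.ph x ∈ S := by
    intro x hx
    have h1 := (mS0 x).mp hx
    exact f.maps x h1.2.2 h1.1
  have fi : ∀ x ∈ S0, ∀ y ∈ S0, f.ph x = f.ph y → x = y := by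
    intro x hx y hy h
    have h1 := (mS0 x).mp hx
    have h2 := (mS0 y).mp hy
    exact f.inj x h1.2.2 y h2.2.2 h1.1 h2.1 h
  have gi : ∀ x ∈ S0, ∀ y ∈ S0, g.ph x = g.ph y → x = y := by
    intro x hx y hy h
    have h1 := (mS0 x).mp hx
    have h2 := (mS0 y).mp hy
    exact g.inj x h1.2.2 y h2.2.2 h1.2.1 h2.2.1 h
  set Yf := Yd S0 f.ph 15 with hYf
  set Yg := Yd S0 g.ph 15 with hYg
  have cf : S0.card ≤ Yf.card + 2 * 15 := Yd_card S0 f.ph hSS (by omega) fS fi 15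
  have cg : S0.card ≤ Yg.card + 2 * 15 := Yd_card S0 g.ph hSS (by omega) gS gi 15
  set Y := Yf ∩ Yg with hY
  have YfS0 : Yf ⊆ S0 := Yd_sub _ _ _
  have YgS0 : Yg ⊆ S0 := Yd_sub _ _ _
  have cY : S0.card ≤ Y.card + 60 := by
    have h1 := card_union_add_card_inter Yf Yg
    have h2 := card_le_card (union_subset YfS0 YgS0)
    rw [hY]
    omega
  have mY : ∀ x ∈ Y, x ∈ S ∧ x ≠ a ∧ x ≠ b := by
    intro x hx
    have h1 := (mS0 x).mp (YfS0 (mem_inter.mp hx).1)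
    exact ⟨h1.2.2, h1.1, h1.2.1⟩
  have nf : ∀ x ∈ Y, f.ph x ≠ a ∧ f.ph x ≠ b := by
    intro x hx
    have h1 := (mem_inter.mp hx).1
    rw [hYf, Yd, mem_filter] at h1
    have h2 := (mS0 _).mp (Yd_sub _ _ _ h1.2)
    exact ⟨h2.1, h2.2.1⟩
  have ng : ∀ x ∈ Y, g.ph x ≠ a ∧ g.ph x ≠ b := by
    intro x hx
    have h1 := (mem_inter.mp hx).2
    rw [hYg, Yd, mem_filter] at h1
    have h2 := (mS0 _).mp (Yd_sub _ _ _ h1.2)
    exact ⟨h2.1, h2.2.1⟩
  have vf : ∀ x ∈ S0, ((f.ph x : ℤ) : ℚ) = f.al * (x : ℚ) ^ 2 + f.be * (x : ℚ) + f.ga := by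
    intro x hx
    have h1 := (mS0 x).mp hx
    exact f.val x h1.2.2 h1.1
  have vg : ∀ x ∈ S0, ((g.ph x : ℤ) : ℚ) = g.al * (x : ℚ) ^ 2 + g.be * (x : ℚ) + g.ga := by
    intro x hx
    have h1 := (mS0 x).mp hx
    exact g.val x h1.2.2 h1.2.1
  -- energies
  have genE : ∀ (al be ga : ℚ) (ph : ℤ → ℤ),
      (∀ x ∈ S0, ((ph x : ℤ) : ℚ) = al * (x : ℚ) ^ 2 + be * (x : ℚ) + ga) →
      ∀ T ⊆ Yd S0 ph 15, 500000 ≤ T.card → ∀ p : ℕ,
      (1 - 1 / 10000 : ℝ) * ((T.card : ℝ) ^ 2 - T.card) * (al.den.factorization p : ℝ) ≤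
        E p T := by
    intro al be ga ph hv T hT hc p
    have h1 := det_E (det_dvd S0 T al be ga ph 15 hv hT) p
    have h2 := Wt_eps T.card hc
    have h3 : ((2 * Wt 15 T.card * al.den.factorization p : ℕ) : ℝ) ≤ ((E p T : ℕ) : ℝ) := by
      exact_mod_cast h1
    push_cast at h3
    calc _ ≤ (2 * (Wt 15 T.card : ℝ)) * (al.den.factorization p : ℝ) :=
          mul_le_mul_of_nonneg_right h2 (Nat.cast_nonneg _)
      _ ≤ _ := h3
  have hEf := fun T (hT : T ⊆ Y) => genE f.al f.be f.ga f.ph vf T (hT.trans inter_subset_left)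
  have hEg := fun T (hT : T ⊆ Y) => genE g.al g.be g.ga g.ph vg T (hT.trans inter_subset_right)
  have genD : ∀ q : ℚ, (∀ T ⊆ Y, 500000 ≤ T.card → ∀ p : ℕ,
      (1 - 1 / 10000 : ℝ) * ((T.card : ℝ) ^ 2 - T.card) * (q.den.factorization p : ℝ) ≤ E p T) →
      ∀ T ⊆ Y, Y.card ≤ 2 * T.card →
      (1 - 1 / 10000 : ℝ) * ((T.card : ℝ) ^ 2 - T.card) * Real.log q.den ≤
        ∑ r ∈ T.offDiag, Real.log ((r.1 - r.2).natAbs : ℝ) := by
    intro q hq T hT hc
    refine le_trans ?_ (E_log q.den.primeFactors T)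
    have h1 : Real.log q.den = ∑ p ∈ q.den.primeFactors, (q.den.factorization p : ℝ) *
        Real.log p := by
      rw [Real.log_nat_eq_sum_factorization]
      unfold Finsupp.sum
      rw [Nat.support_factorization]
    rw [h1, mul_sum]
    apply sum_le_sum
    intro p _
    rw [← mul_assoc]
    exact mul_le_mul_of_nonneg_right (hq T hT (by omega) p) (log_nn p)
  have hbY : b ∉ Y := fun h => (mY b h).2.2 rfl
  have haY : a ∉ Y := fun h => (mY a h).2.1 rfl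
  have hYS : Y ⊆ S := fun x hx => (mY x hx).1
  have four : Real.log |(f.al : ℝ)| ≤ -(1 - 1 / 2000) * Real.log L ∧
      (1 - 1 / 2000) * Real.log L ≤ Real.log f.al.den ∧
      Real.log |(g.al : ℝ)| ≤ -(1 - 1 / 2000) * Real.log L ∧
      (1 - 1 / 2000) * Real.log L ≤ Real.log g.al.den := by
    rcases real_k S a b ha hb hab f g L hL hL' 20000 hN2 with h | h
    · exact rc f g L hL1 hL h Y hYS hbY (by omega) hl (genD f.al hEf)
    · have := rc g f L hL1 hL h Y hYS haY (by omega) hl (genD g.al hEg)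
      exact ⟨this.2.2.1, this.2.2.2, this.1, this.2.1⟩
  exact core2 ha hb hab f g L hL1 hL hl prim Y mY nf ng (by omega) (by omega) hEf hEg
    four.1 four.2.1 four.2.2.1 four.2.2.2

theorem main_int : MainInt := by
  obtain ⟨n, hn⟩ := exists_nat_ge (Real.exp 140000 + 1)
  refine ⟨max (max 2000000 (2 ^ 20000 + 20001)) n, ?_⟩
  intro S a b ha hb hab hN prim f g
  have h1 : 2000000 ≤ S.card := le_trans (le_trans (le_max_left _ _) (le_max_left _ _)) hN
  have h2 : 2 ^ 20000 + 20001 ≤ S.card :=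
    le_trans (le_trans (le_max_right _ _) (le_max_left _ _)) hN
  have h3 : n ≤ S.card := le_trans (le_max_right _ _) hN
  apply core ha hb hab f g prim h1 (by omega)
  have : (n : ℝ) ≤ S.card := by exact_mod_cast h3
  linarith

theorem main : ∃ M : ℕ, ∀ S : Finset ℚ, M ≤ S.card → ∀ f g : Polynomial ℝ,
    f.natDegree = 2 → g.natDegree = 2 → Compresses f S → Compresses g S → f = g :=
  main_of_int main_int


end F0744
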