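import Pool.Agent.Lib.MP_f0744f_nt.Loc

open Finset

namespace F0744

/-- the `p`-adic energy of a finite set of integers -/
def E (p : ℕ) (T : Finset ℤ) : ℕ := ∑ q ∈ T.offDiag, (q.1 - q.2).natAbs.factorization p

theorem pow_dvd_iff {p : ℕ} (hp : p.Prime) {z : ℤ} (hz : z ≠ 0) (j : ℕ) :
    (p : ℤ) ^ j ∣ z ↔ j ≤ z.natAbs.factorization p := by
  rw [← hp.pow_dvd_iff_le_factorization (Int.natAbs_ne_zero.mpr hz), ← Int.natCast_dvd]
  push_cast
  rfl

theorem E_mono (p : ℕ) {T Y : Finset ℤ} (h : T ⊆ Y) : E p T ≤ E p Y :=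
  sum_le_sum_of_subset (offDiag_mono h)

theorem card_off (T : Finset ℤ) : T.offDiag.card = T.card * T.card - T.card := offDiag_card T

theorem E_all {p : ℕ} (hp : p.Prime) {T : Finset ℤ} {k : ℕ}
    (h : ∀ x ∈ T, ∀ y ∈ T, (p : ℤ) ^ k ∣ x - y) : k * (T.card * T.card - T.card) ≤ E p T := by
  rw [← card_off, mul_comm, ← smul_eq_mul, ← sum_const, E]
  apply sum_le_sum
  intro q hq
  rw [mem_offDiag] at hq
  exact (pow_dvd_iff hp (sub_ne_zero.mpr hq.2.2) k).mp (h _ hq.1 _ hq.2.1)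

theorem cs {ι : Type*} [DecidableEq ι] (T : Finset ℤ) (c : ℤ → ι) (I : Finset ι)
    (h : ∀ x ∈ T, c x ∈ I) :
    T.card ^ 2 ≤ I.card * (∑ q ∈ T ×ˢ T, if c q.1 = c q.2 then 1 else 0) := by
  have h1 : T.card = ∑ i ∈ I, (T.filter (fun x => c x = i)).card :=
    card_eq_sum_card_fiberwise (fun x hx => h x hx)
  have h2 : (∑ q ∈ T ×ˢ T, if c q.1 = c q.2 then 1 else 0) =
      ∑ i ∈ I, (T.filter (fun x => c x = i)).card ^ 2 := by
    have e1 : ∀ q ∈ T ×ˢ T, (if c q.1 = c q.2 then 1 else 0) =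
        ∑ i ∈ I, (if c q.1 = i then 1 else 0) * (if c q.2 = i then 1 else 0) := by
      intro q hq
      rw [mem_product] at hq
      rw [sum_eq_single (c q.1)]
      · by_cases h3 : c q.1 = c q.2
        · simp [h3]
        · have h4 : ¬ c q.2 = c q.1 := fun h5 => h3 h5.symm
          simp [h3, h4]
      · intro i _ hi
        simp [Ne.symm hi]
      · intro h5
        exact absurd (h _ hq.1) h5
    rw [sum_congr rfl e1, sum_comm]
    apply sum_congr rfl
    intro i _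
    rw [sum_product]
    simp only
    rw [sq, card_filter, sum_mul_sum]
  rw [h2]
  conv_lhs => rw [h1]
  have := sq_sum_le_card_mul_sum_sq (s := I) (f := fun i => (T.filter (fun x => c x = i)).card)
  simpa using this

theorem sum_split (T : Finset ℤ) (F : ℤ × ℤ → ℕ) :
    ∑ q ∈ T ×ˢ T, F q = ∑ x ∈ T, F (x, x) + ∑ q ∈ T.offDiag, F q := by
  rw [← diag_union_offDiag, sum_union (disjoint_diag_offDiag T), sum_diag]

variable {S : Finset ℤ} {a b : ℤ}

/-- same class mod `p` gives congruence mod `p^d` -/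
theorem same_class (f : QM S a) {p : ℕ} (hp : p.Prime) {d : ℕ} (hd1 : 1 ≤ d)
    (hd : (p : ℤ) ^ d ∣ (f.al.den : ℤ)) {x0 y0 : ℤ} (hx0 : x0 ∈ S ∧ x0 ≠ a)
    (hy0 : y0 ∈ S ∧ y0 ≠ a) (hxy : ¬ (p : ℤ) ∣ x0 - y0) {u v : ℤ} (hu : u ∈ S ∧ u ≠ a)
    (hv : v ∈ S ∧ v ≠ a) (h : decide ((p : ℤ) ∣ u - x0) = decide ((p : ℤ) ∣ v - x0)) :
    (p : ℤ) ^ d ∣ u - v := by
  have pd : (p : ℤ) ∣ (p : ℤ) ^ d := dvd_pow_self _ (by omega)
  have tu := two_class f hp hd1 hd hx0 hy0 hu hxy
  have tv := two_class f hp hd1 hd hx0 hy0 hv hxy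
  have ny : ∀ z : ℤ, (p : ℤ) ∣ z - x0 → (p : ℤ) ^ d ∣ z - y0 → False := by
    intro z h1 h2
    apply hxy
    have := dvd_sub (pd.trans h2) h1
    simpa using this
  by_cases hc : (p : ℤ) ∣ u - x0
  · have hc' : (p : ℤ) ∣ v - x0 := by
      have : decide ((p : ℤ) ∣ v - x0) = true := by rw [← h]; simpa using hc
      simpa using this
    rcases tu with tu | tu
    · rcases tv with tv | tv
      · have := dvd_sub tu tv
        simpa using this
      · exact (ny _ hc' tv).elim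
    · exact (ny _ hc tu).elim
  · have hc' : ¬ (p : ℤ) ∣ v - x0 := by
      have : decide ((p : ℤ) ∣ v - x0) = false := by rw [← h]; simpa using hc
      simpa using this
    rcases tu with tu | tu
    · exact absurd (pd.trans tu) hc
    · rcases tv with tv | tv
      · exact absurd (pd.trans tv) hc'
      · have := dvd_sub tu tv
        simpa using this

/-- lifting a congruence of the images to a congruence of the points -/
theorem lift_class (f : QM S a) {p : ℕ} (hp : p.Prime) {d : ℕ} (hd1 : 1 ≤ d)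
    (hd : f.al.den.factorization p = d) {x0 y0 : ℤ} (hx0 : x0 ∈ S ∧ x0 ≠ a)
    (hy0 : y0 ∈ S ∧ y0 ≠ a) (hxy : ¬ (p : ℤ) ∣ x0 - y0) {u v : ℤ} (hu : u ∈ S ∧ u ≠ a)
    (hv : v ∈ S ∧ v ≠ a) (h : decide ((p : ℤ) ∣ u - x0) = decide ((p : ℤ) ∣ v - x0)) (k : ℕ)
    (hk : (p : ℤ) ^ k ∣ f.ph u - f.ph v) :
    (p : ℤ) ^ (d + k) ∣ u - v := by
  have pd : (p : ℤ) ∣ (p : ℤ) ^ d := dvd_pow_self _ (by omega)
  have hd' : (p : ℤ) ^ d ∣ (f.al.den : ℤ) := by
    have := Nat.ordProj_dvd f.al.den p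
    rw [hd] at this
    exact_mod_cast this
  have tu := two_class f hp hd1 hd' hx0 hy0 hu hxy
  have tv := two_class f hp hd1 hd' hx0 hy0 hv hxy
  by_cases hc : (p : ℤ) ∣ u - x0
  · have hc' : (p : ℤ) ∣ v - x0 := by
      have : decide ((p : ℤ) ∣ v - x0) = true := by rw [← h]; simpa using hc
      simpa using this
    have n1 : ¬ (p : ℤ) ∣ u - y0 := by
      intro h1; apply hxy; have := dvd_sub h1 hc; simpa using this
    have n2 : ¬ (p : ℤ) ∣ v - y0 := by
      intro h1; apply hxy; have := dvd_sub h1 hc'; simpa using this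
    exact (sim f hp hd1 hd hu hv hy0 n1 n2 k).mpr hk
  · have hc' : ¬ (p : ℤ) ∣ v - x0 := by
      have : decide ((p : ℤ) ∣ v - x0) = false := by rw [← h]; simpa using hc
      simpa using this
    exact (sim f hp hd1 hd hu hv hx0 hc hc' k).mpr hk

theorem card3 (i j : Bool) :
    ((univ : Finset (Bool × Bool)).filter (fun w => ¬ (w.1 = i ∧ w.2 = j))).card = 3 := by
  revert i j; decide

theorem card5 (i j : Bool) :
    ((univ : Finset (Bool × Bool × Bool)).filter
      (fun w => ¬ (w.1 = i ∧ w.2.1 = j) ∧ ¬ (w.2.1 = i ∧ w.2.2 = j))).card ≤ 5 := by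
  revert i j; decide

/-- a missing two-letter word forces too much energy -/
theorem nd_energy (f : QM S a) {p : ℕ} (hp : p.Prime) {d : ℕ} (hd1 : 1 ≤ d)
    (hd : f.al.den.factorization p = d) {x0 y0 : ℤ} (hx0 : x0 ∈ S ∧ x0 ≠ a)
    (hy0 : y0 ∈ S ∧ y0 ≠ a) (hxy : ¬ (p : ℤ) ∣ x0 - y0) (T : Finset ℤ)
    (hT : ∀ x ∈ T, (x ∈ S ∧ x ≠ a) ∧ f.ph x ≠ a) (i j : Bool)
    (hmiss : ∀ x ∈ T, ¬ (decide ((p : ℤ) ∣ x - x0) = i ∧ decide ((p : ℤ) ∣ f.ph x - x0) = j)) :
    ∃ T1 ⊆ T, 2 * T.card ≤ S.card + T1.card ∧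
      d * (31 * T1.card ^ 2) ≤ 30 * E p T1 + d * (90 * T1.card) := by
  classical
  set T1 := T.filter (fun x => f.ph x ∈ T) with hT1
  have hd' : (p : ℤ) ^ d ∣ (f.al.den : ℤ) := by
    have := Nat.ordProj_dvd f.al.den p
    rw [hd] at this
    exact_mod_cast this
  refine ⟨T1, filter_subset _ _, ?_, ?_⟩
  · -- counting
    have h1 : T.card = T1.card + (T.filter (fun x => ¬ f.ph x ∈ T)).card := by
      rw [hT1]; exact (card_filter_add_card_filter_not _).symm
    have hTS : T ⊆ S := fun x hx => (hT x hx).1.1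
    have h2 : (T.filter (fun x => ¬ f.ph x ∈ T)).card ≤ (S \ T).card := by
      apply card_le_card_of_injOn f.ph
      · intro x hx
        have hx' := mem_filter.mp hx
        have := hT x hx'.1
        exact mem_coe.mpr (mem_sdiff.mpr ⟨f.maps x this.1.1 this.1.2, hx'.2⟩)
      · intro x hx y hy hxy'
        have hx' := mem_filter.mp hx
        have hy' := mem_filter.mp hy
        exact f.inj x (hTS hx'.1) y (hTS hy'.1) (hT x hx'.1).1.2 (hT y hy'.1).1.2 hxy'
    have h3 : (S \ T).card + T.card = S.card := card_sdiff_add_card_eq_card hTS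
    omega
  · -- energy
    set χ : ℤ → Bool := fun z => decide ((p : ℤ) ∣ z - x0) with hχ
    set c1 : ℤ → Bool := χ with hc1
    set c2 : ℤ → Bool × Bool := fun x => (χ x, χ (f.ph x)) with hc2
    set c3 : ℤ → Bool × Bool × Bool := fun x => (χ x, χ (f.ph x), χ (f.ph (f.ph x))) with hc3
    have A1 := cs T1 c1 univ (fun x _ => mem_univ _)
    have A2 := cs T1 c2 (univ.filter (fun w => ¬ (w.1 = i ∧ w.2 = j))) (by
      intro x hx
      rw [mem_filter]
      exact ⟨mem_univ _, hmiss x (mem_filter.mp hx).1⟩)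
    have A3 := cs T1 c3 (univ.filter
      (fun w => ¬ (w.1 = i ∧ w.2.1 = j) ∧ ¬ (w.2.1 = i ∧ w.2.2 = j))) (by
      intro x hx
      rw [mem_filter]
      exact ⟨mem_univ _, hmiss x (mem_filter.mp hx).1, hmiss _ (mem_filter.mp hx).2⟩)
    rw [card3] at A2
    have A1' : T1.card ^ 2 ≤ 2 * (∑ q ∈ T1 ×ˢ T1, if c1 q.1 = c1 q.2 then 1 else 0) := by
      have : (univ : Finset Bool).card = 2 := by decide
      rwa [this] at A1
    have A3' : T1.card ^ 2 ≤ 5 * (∑ q ∈ T1 ×ˢ T1, if c3 q.1 = c3 q.2 then 1 else 0) :=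
      A3.trans (Nat.mul_le_mul_right _ (card5 i j))
    rw [sum_split] at A1' A2 A3'
    simp only [if_true, sum_const, smul_eq_mul, mul_one] at A1' A2 A3'
    set B1 := ∑ q ∈ T1.offDiag, (if c1 q.1 = c1 q.2 then 1 else 0) with hB1
    set B2 := ∑ q ∈ T1.offDiag, (if c2 q.1 = c2 q.2 then 1 else 0) with hB2
    set B3 := ∑ q ∈ T1.offDiag, (if c3 q.1 = c3 q.2 then 1 else 0) with hB3
    have hE : d * (B1 + B2 + B3) ≤ E p T1 := by
      rw [hB1, hB2, hB3, ← sum_add_distrib, ← sum_add_distrib, mul_sum, E]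
      apply sum_le_sum
      intro q hq
      rw [mem_offDiag] at hq
      obtain ⟨h1, h2, h3⟩ := hq
      have hz : q.1 - q.2 ≠ 0 := sub_ne_zero.mpr h3
      have m1 := mem_filter.mp h1
      have m2 := mem_filter.mp h2
      have k1 := hT _ m1.1
      have k2 := hT _ m2.1
      have l1 := hT _ m1.2
      have l2 := hT _ m2.2
      by_cases e1 : c1 q.1 = c1 q.2
      · have d1 : (p : ℤ) ^ d ∣ q.1 - q.2 :=
          same_class f hp hd1 hd' hx0 hy0 hxy k1.1 k2.1 e1
        by_cases e2 : χ (f.ph q.1) = χ (f.ph q.2)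
        · have d2 : (p : ℤ) ^ d ∣ f.ph q.1 - f.ph q.2 :=
            same_class f hp hd1 hd' hx0 hy0 hxy l1.1 l2.1 e2
          have e2' : c2 q.1 = c2 q.2 := Prod.ext e1 e2
          by_cases e3 : χ (f.ph (f.ph q.1)) = χ (f.ph (f.ph q.2))
          · have d3 : (p : ℤ) ^ d ∣ f.ph (f.ph q.1) - f.ph (f.ph q.2) := by
              apply same_class f hp hd1 hd' hx0 hy0 hxy _ _ e3
              · exact ⟨f.maps _ l1.1.1 l1.1.2, l1.2⟩
              · exact ⟨f.maps _ l2.1.1 l2.1.2, l2.2⟩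
            have e3' : c3 q.1 = c3 q.2 := Prod.ext e1 (Prod.ext e2 e3)
            have s1 := lift_class f hp hd1 hd hx0 hy0 hxy l1.1 l2.1 e2 d d3
            have s2 := lift_class f hp hd1 hd hx0 hy0 hxy k1.1 k2.1 e1 _ s1
            have := (pow_dvd_iff hp hz _).mp s2
            rw [if_pos e1, if_pos e2', if_pos e3']
            omega
          · have e3' : ¬ c3 q.1 = c3 q.2 := fun h => e3 (congrArg (fun w => w.2.2) h)
            have s2 := lift_class f hp hd1 hd hx0 hy0 hxy k1.1 k2.1 e1 _ d2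
            have := (pow_dvd_iff hp hz _).mp s2
            rw [if_pos e1, if_pos e2', if_neg e3']
            omega
        · have e2' : ¬ c2 q.1 = c2 q.2 := fun h => e2 (congrArg (fun w => w.2) h)
          have e3' : ¬ c3 q.1 = c3 q.2 := fun h => e2 (congrArg (fun w => w.2.1) h)
          have := (pow_dvd_iff hp hz _).mp d1
          rw [if_pos e1, if_neg e2', if_neg e3']
          omega
      · have e2' : ¬ c2 q.1 = c2 q.2 := fun h => e1 (congrArg (fun w => w.1) h)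
        have e3' : ¬ c3 q.1 = c3 q.2 := fun h => e1 (congrArg (fun w => w.1) h)
        rw [if_neg e1, if_neg e2', if_neg e3']
        simp
    have hfin : 31 * T1.card ^ 2 ≤ 30 * (B1 + B2 + B3) + 90 * T1.card := by
      nlinarith [A1', A2, A3']
    calc d * (31 * T1.card ^ 2) ≤ d * (30 * (B1 + B2 + B3) + 90 * T1.card) :=
          Nat.mul_le_mul_left _ hfin
      _ = 30 * (d * (B1 + B2 + B3)) + d * (90 * T1.card) := by ring
      _ ≤ 30 * E p T1 + d * (90 * T1.card) := by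
          have := Nat.mul_le_mul_left 30 hE
          omega

end F0744
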